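import Pool.Agent.H50.CP.CornerFin

set_option autoImplicit false

/-!
# Isolation of the square: basic notions
-/

namespace Pool.Agent.H84.Sq

open Pool.Agent.H90.Clone Pool.Agent.H21.Tri Pool.Agent.H50.CP Complex Set Pointwise MeasureTheory

/-- the isometry `z ↦ w * z + b` -/
noncomputable def rot (w b : ℂ) (hw : ‖w‖ = 1) : ℂ ≃ᵢ ℂ :=
  (rotation ⟨w, mem_sphere_zero_iff_norm.mpr hw⟩).toIsometryEquiv.trans (IsometryEquiv.addRight b)

lemma rot_apply (w b : ℂ) (hw : ‖w‖ = 1) (z : ℂ) : rot w b hw z = w * z + b := rfl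

/-- the functional `z ↦ ip z n` -/
noncomputable def ipL (n : ℂ) : ℂ →L[ℝ] ℝ := n.re • Complex.reCLM + n.im • Complex.imCLM

lemma ipL_apply (n z : ℂ) : ipL n z = ip z n := by
  simp only [ipL, add_apply, smul_apply,
    Complex.reCLM_apply, Complex.imCLM_apply, smul_eq_mul, ip]
  ring

lemma ipL_ne {n : ℂ} (hn : n ≠ 0) : ipL n ≠ 0 := by
  intro h
  apply hn
  have h1 := ipL_apply n 1
  have h2 := ipL_apply n I
  rw [h] at h1 h2
  simp only [zero_apply, ip, one_re, one_im, I_re, I_im, one_mul, zero_mul,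
    zero_add, add_zero] at h1 h2
  exact Complex.ext h1.symm h2.symm

/-- two copies given by isometries -/
theorem two_mk {F : Set ℂ} {l : ℝ} (hl : 1 / 2 < l) (g1 g2 : ℂ ≃ᵢ ℂ) {n : ℂ} (hn : n ≠ 0) (t : ℝ)
    (h1 : ∀ z ∈ F, g1 ((l : ℂ) * z) ∈ F) (h2 : ∀ z ∈ F, g2 ((l : ℂ) * z) ∈ F)
    (s1 : ∀ z ∈ F, ip (g1 ((l : ℂ) * z)) n ≤ t) (s2 : ∀ z ∈ F, t ≤ ip (g2 ((l : ℂ) * z)) n) :
    Two F := by
  refine ⟨l, g1 '' (l • F), g2 '' (l • F), hl, ⟨g1, rfl⟩, ⟨g2, rfl⟩, ?_, ?_, ipL n, t, ipL_ne hn,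
    ?_, ?_⟩
  · rintro _ ⟨_, ⟨z, hz, rfl⟩, rfl⟩
    simpa only [real_smul] using h1 z hz
  · rintro _ ⟨_, ⟨z, hz, rfl⟩, rfl⟩
    simpa only [real_smul] using h2 z hz
  · rintro _ ⟨_, ⟨z, hz, rfl⟩, rfl⟩
    rw [ipL_apply]
    simpa only [real_smul] using s1 z hz
  · rintro _ ⟨_, ⟨z, hz, rfl⟩, rfl⟩
    rw [ipL_apply]
    simpa only [real_smul] using s2 z hz

/-- `Two` is invariant under similarities -/
theorem two_sim {F : Set ℂ} {a b : ℂ} (ha : a ≠ 0) (h : Two ((fun z => a * z + b) '' F)) :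
    Two F := by
  obtain ⟨l, A, B, hl, ⟨g1, hA⟩, ⟨g2, hB⟩, hAF, hBF, f, t, hf, h1, h2⟩ := h
  have hna : 0 < ‖a‖ := norm_pos_iff.mpr ha
  have hnc : ((‖a‖ : ℝ) : ℂ) ≠ 0 := by exact_mod_cast hna.ne'
  set e : ℂ := a / ‖a‖ with he
  have he1 : ‖e‖ = 1 := by
    rw [he, norm_div, Complex.norm_real, Real.norm_of_nonneg hna.le]
    exact div_self hna.ne'
  have hae : a = e * ‖a‖ := by
    rw [he]
    field_simp
  have he0 : e ≠ 0 := by
    intro h0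
    rw [h0] at he1
    simp at he1
  have hei : ‖e⁻¹‖ = 1 := by rw [norm_inv, he1, inv_one]
  have hs : (‖a‖⁻¹ : ℝ) ≠ 0 := inv_ne_zero hna.ne'
  -- the conjugated isometry
  set G : (ℂ ≃ᵢ ℂ) → (ℂ ≃ᵢ ℂ) := fun g =>
    scaleIso ‖a‖⁻¹ hs (((rot e (l * b) he1).trans g).trans (rot e⁻¹ (-(e⁻¹ * b)) hei)) with hG
  have key : ∀ (g : ℂ ≃ᵢ ℂ) (x : ℂ), a * G g (l * x) + b = g (l * (a * x + b)) := by
    intro g x
    have e1 : G g (l * x) = (‖a‖⁻¹ : ℝ) • (e⁻¹ * g (e * ((‖a‖⁻¹ : ℝ)⁻¹ • (l * x)) + l * b) +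
      -(e⁻¹ * b)) := rfl
    rw [e1, real_smul, real_smul, inv_inv]
    have e2 : e * ((‖a‖ : ℂ) * (l * x)) + l * b = l * (a * x + b) := by
      rw [hae]
      simp only [norm_mul, he1, one_mul, Complex.norm_real, norm_norm]
      ring
    rw [e2]
    push_cast
    rw [show a * ((‖a‖ : ℂ)⁻¹ * (e⁻¹ * g (l * (a * x + b)) + -(e⁻¹ * b))) + b =
      (a * (‖a‖ : ℂ)⁻¹ * e⁻¹) * g (l * (a * x + b)) - (a * (‖a‖ : ℂ)⁻¹ * e⁻¹) * b + b by ring]
    have e3 : a * (‖a‖ : ℂ)⁻¹ * e⁻¹ = 1 := by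
      rw [he]
      field_simp
    rw [e3]
    ring
  have hsub : ∀ g : ℂ ≃ᵢ ℂ, g '' (l • ((fun z => a * z + b) '' F)) ⊆ (fun z => a * z + b) '' F →
      ∀ x ∈ F, G g (l * x) ∈ F := by
    intro g hg x hx
    have e1 : g (l * (a * x + b)) ∈ g '' (l • ((fun z => a * z + b) '' F)) :=
      ⟨l * (a * x + b), ⟨a * x + b, ⟨x, hx, rfl⟩, by simp only [real_smul]⟩, rfl⟩
    obtain ⟨y, hy, hyx⟩ := hg e1
    rw [← key g x] at hyx
    have e2 : a * y = a * G g (l * x) := by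
      have : a * y + b = a * G g (l * x) + b := hyx
      linear_combination this
    rw [← mul_left_cancel₀ ha e2]
    exact hy
  subst hA
  subst hB
  have k1 := hsub g1 hAF
  have k2 := hsub g2 hBF
  refine ⟨l, G g1 '' (l • F), G g2 '' (l • F), hl, ⟨_, rfl⟩, ⟨_, rfl⟩, ?_, ?_,
    f.comp (a • (1 : ℂ →L[ℝ] ℂ)), t - f b, ?_, ?_, ?_⟩
  · rintro _ ⟨_, ⟨z, hz, rfl⟩, rfl⟩
    simpa only [real_smul] using k1 z hz
  · rintro _ ⟨_, ⟨z, hz, rfl⟩, rfl⟩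
    simpa only [real_smul] using k2 z hz
  · intro h0
    apply hf
    ext z
    have := congrArg (fun k : ℂ →L[ℝ] ℝ => k (a⁻¹ * z)) h0
    simpa [ha] using this
  · rintro _ ⟨_, ⟨z, hz, rfl⟩, rfl⟩
    have e1 : g1 (l * (a * z + b)) ∈ g1 '' (l • ((fun z => a * z + b) '' F)) :=
      ⟨l * (a * z + b), ⟨a * z + b, ⟨z, hz, rfl⟩, by simp only [real_smul]⟩, rfl⟩
    have := h1 _ e1
    rw [← key g1 z, map_add] at this
    simp only [real_smul, ContinuousLinearMap.comp_apply, smul_apply,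
      one_apply_eq_self, smul_eq_mul]
    linarith
  · rintro _ ⟨_, ⟨z, hz, rfl⟩, rfl⟩
    have e1 : g2 (l * (a * z + b)) ∈ g2 '' (l • ((fun z => a * z + b) '' F)) :=
      ⟨l * (a * z + b), ⟨a * z + b, ⟨z, hz, rfl⟩, by simp only [real_smul]⟩, rfl⟩
    have := h2 _ e1
    rw [← key g2 z, map_add] at this
    simp only [real_smul, ContinuousLinearMap.comp_apply, smul_apply,
      one_apply_eq_self, smul_eq_mul]
    linarith

end Pool.Agent.H84.Sq
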