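import Pool.Agent.H84.Sq.Defs

set_option autoImplicit false

/-!
# Two squares of side more than `1/2` do not fit in a unit square (row SQ SqTwo: prove `sq_not_two`)

PROOF. By a similarity (`two_sim` in Base.lean; `v = I u` or `v = -I u` by `eq_I_of_orth` in H50/CP/Fin.lean) one may assume
`F = Q := {|z.re| ≤ 1/2, |z.im| ≤ 1/2}` (for instance `F` is the image of `Q` under `z ↦ u z + (o + (u + v)/2)`, so `Two F` gives `Two Q`
by `two_sim` applied to the inverse similarity; if `v = -I u` the same set is obtained as `Par (o + v) u (I u)`,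
`par_turn`-type lemmas in H50/CP/Fin.lean, or just compute). KEY LEMMA: if `g` is an isometry, `l > 1/2` and `g '' (l • Q) ⊆ Q` then
`0 ∈ interior (g '' (l • Q))`. Given two such copies separated by `f` at level `t`, with `0` interior to both: `f 0 < t < f 0`
(or use `SepSets.disjoint` in H90/Clone/Geom.lean: the interiors are disjoint, contradiction).
Proof of the key lemma. `g` is affine (`IsometryEquiv.toRealAffineIsometryEquiv`), `g (x + y I) = z0 + x e + y f` with
`‖e‖ = ‖f‖ = 1` and `f = I e` or `f = -I e` (an isometry of `ℂ` is `z ↦ w z + b` or `z ↦ w conj z + b`, cf. `linear_isometry_complex`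
in Mathlib; and `conj` maps `l • Q` to itself, so w.l.o.g. `g z = w z + z0`). Let `C = |w.re|`, `S = |w.im|`,
`C² + S² = 1`. The corners `z0 + w (± l/2 ± l/2 I)` are in `Q`, so `|z0.re| + (l/2)(C + S) ≤ 1/2`, `|z0.im| + (l/2)(C + S) ≤ 1/2`.
`0 ∈ interior` iff the coordinates of `-z0` in the frame `w, I w` are `< l/2` in absolute value:
`|Re (conj w z0)| ≤ |z0.re| C + |z0.im| S ≤ (1/2 - (l/2)(C + S)) (C + S) = (C + S)/2 - (l/2)(1 + 2 C S)`, and this is `< l/2` because
`C + S ≤ 1 + C S` (`(1 - C)(1 - S) ≥ 0`) and `1 < 2 l`: `(C + S)/2 ≤ (1 + C S)/2 < l (1 + C S)`. The same for the other coordinate.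
-/

namespace Pool.Agent.H84.Sq

open Pool.Agent.H90.Clone Pool.Agent.H21.Tri Pool.Agent.H50.CP Complex Set Pointwise MeasureTheory

/-- the centred unit square -/
private def SqTwoX_Q : Set ℂ := {z | |z.re| ≤ 1 / 2 ∧ |z.im| ≤ 1 / 2}

private lemma SqTwoX_num {C S p q l : ℝ} (hC : 0 ≤ C) (hS : 0 ≤ S) (h1 : C ^ 2 + S ^ 2 = 1)
    (hl : 1 / 2 < l) (hp : p + l / 2 * (C + S) ≤ 1 / 2) (hq : q + l / 2 * (C + S) ≤ 1 / 2) :
    p * C + q * S < l / 2 := by
  have hC1 : C ≤ 1 := by nlinarith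
  have hS1 : S ≤ 1 := by nlinarith
  have h2 : C + S ≤ 1 + C * S := by nlinarith [mul_nonneg (sub_nonneg.mpr hC1) (sub_nonneg.mpr hS1)]
  have h3 : 0 ≤ C * S := mul_nonneg hC hS
  have h4 : p * C ≤ (1 / 2 - l / 2 * (C + S)) * C := mul_le_mul_of_nonneg_right (by linarith) hC
  have h5 : q * S ≤ (1 / 2 - l / 2 * (C + S)) * S := mul_le_mul_of_nonneg_right (by linarith) hS
  have h6 : (1 / 2 - l / 2 * (C + S)) * C + (1 / 2 - l / 2 * (C + S)) * S =
      (C + S) / 2 - l / 2 * (1 + 2 * (C * S)) := by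
    linear_combination (-l / 2) * h1
  have h7 : (1 : ℝ) * (1 + C * S) < 2 * l * (1 + C * S) :=
    mul_lt_mul_of_pos_right (by linarith) (by linarith)
  nlinarith

private lemma SqTwoX_abs {x a b m : ℝ} (h1 : |x + (a - b)| ≤ m) (h2 : |x + (a + b)| ≤ m)
    (h3 : |x + (-a - b)| ≤ m) (h4 : |x + (-a + b)| ≤ m) : |x| + (|a| + |b|) ≤ m := by
  rw [abs_le] at h1 h2 h3 h4
  rcases abs_cases x with h | h <;> rcases abs_cases a with h' | h' <;>
    rcases abs_cases b with h'' | h'' <;> rw [h.1, h'.1, h''.1] <;>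
    linarith [h1.1, h1.2, h2.1, h2.2, h3.1, h3.2, h4.1, h4.2]

private lemma SqTwoX_rot {w z : ℂ} {l : ℝ} (hw : ‖w‖ = 1) (hl : 1 / 2 < l)
    (h : ∀ s t : ℝ, |s| = 1 → |t| = 1 →
      w * ((l / 2 * s : ℝ) + (l / 2 * t : ℝ) * I) + z ∈ SqTwoX_Q) :
    |(starRingEnd ℂ w * z).re| < l / 2 ∧ |(starRingEnd ℂ w * z).im| < l / 2 := by
  have hl0 : 0 ≤ l / 2 := by linarith
  have hn : |w.re| ^ 2 + |w.im| ^ 2 = 1 := by
    rw [sq_abs, sq_abs]
    have := Complex.sq_norm w
    rw [Complex.normSq_apply, hw] at this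
    linarith
  have c1 := h 1 1 (by simp) (by simp)
  have c2 := h 1 (-1) (by simp) (by simp)
  have c3 := h (-1) 1 (by simp) (by simp)
  have c4 := h (-1) (-1) (by simp) (by simp)
  have ere : ∀ s t : ℝ, (w * ((l / 2 * s : ℝ) + (l / 2 * t : ℝ) * I) + z).re =
      z.re + (l / 2 * w.re * s - l / 2 * w.im * t) := by
    intro s t
    simp only [add_re, mul_re, add_im, mul_im, ofReal_re, ofReal_im, I_re, I_im]
    ring
  have eim : ∀ s t : ℝ, (w * ((l / 2 * s : ℝ) + (l / 2 * t : ℝ) * I) + z).im =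
      z.im + (l / 2 * w.im * s + l / 2 * w.re * t) := by
    intro s t
    simp only [add_re, mul_re, add_im, mul_im, ofReal_re, ofReal_im, I_re, I_im]
    ring
  obtain ⟨c1r, c1i⟩ := c1
  obtain ⟨c2r, c2i⟩ := c2
  obtain ⟨c3r, c3i⟩ := c3
  obtain ⟨c4r, c4i⟩ := c4
  rw [ere] at c1r c2r c3r c4r
  rw [eim] at c1i c2i c3i c4i
  have hre : |z.re| + (|l / 2 * w.re| + |l / 2 * w.im|) ≤ 1 / 2 := by
    apply SqTwoX_abs
    · convert c1r using 3; ring
    · convert c2r using 3; ring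
    · convert c3r using 3; ring
    · convert c4r using 3; ring
  have him : |z.im| + (|l / 2 * w.im| + |l / 2 * w.re|) ≤ 1 / 2 := by
    apply SqTwoX_abs
    · convert c2i using 3; ring
    · convert c1i using 3; ring
    · convert c4i using 3; ring
    · convert c3i using 3; ring
  rw [abs_mul, abs_mul, abs_of_nonneg hl0] at hre him
  have k1 : |z.re| + l / 2 * (|w.re| + |w.im|) ≤ 1 / 2 := by linarith
  have k2 : |z.im| + l / 2 * (|w.re| + |w.im|) ≤ 1 / 2 := by linarith
  constructor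
  · have e : (starRingEnd ℂ w * z).re = z.re * w.re + z.im * w.im := by
      simp only [mul_re, conj_re, conj_im]
      ring
    rw [e]
    calc |z.re * w.re + z.im * w.im| ≤ |z.re * w.re| + |z.im * w.im| := abs_add_le _ _
      _ = |z.re| * |w.re| + |z.im| * |w.im| := by rw [abs_mul, abs_mul]
      _ < l / 2 := SqTwoX_num (abs_nonneg _) (abs_nonneg _) hn hl k1 k2
  · have e : (starRingEnd ℂ w * z).im = z.im * w.re + -(z.re * w.im) := by
      simp only [mul_im, conj_re, conj_im]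
      ring
    rw [e]
    calc |z.im * w.re + -(z.re * w.im)| ≤ |z.im * w.re| + |-(z.re * w.im)| := abs_add_le _ _
      _ = |z.im| * |w.re| + |z.re| * |w.im| := by rw [abs_neg, abs_mul, abs_mul]
      _ < l / 2 := SqTwoX_num (abs_nonneg _) (abs_nonneg _) hn hl k2 k1

private lemma SqTwoX_smul {l : ℝ} (hl : 0 < l) {z : ℂ} (h1 : |z.re| ≤ l / 2) (h2 : |z.im| ≤ l / 2) :
    z ∈ l • SqTwoX_Q := by
  rw [mem_smul_set_iff_inv_smul_mem₀ hl.ne']
  have hi : 0 ≤ l⁻¹ := (inv_pos.mpr hl).le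
  constructor
  · rw [smul_re, smul_eq_mul, abs_mul, abs_of_nonneg hi, inv_mul_le_iff₀ hl]
    linarith
  · rw [smul_im, smul_eq_mul, abs_mul, abs_of_nonneg hi, inv_mul_le_iff₀ hl]
    linarith

private lemma SqTwoX_int {l : ℝ} (hl : 0 < l) {z : ℂ} (h1 : |z.re| < l / 2) (h2 : |z.im| < l / 2) :
    z ∈ interior (l • SqTwoX_Q) := by
  have ho : IsOpen {z : ℂ | |z.re| < l / 2 ∧ |z.im| < l / 2} :=
    (isOpen_lt (continuous_abs.comp continuous_re) continuous_const).inter
      (isOpen_lt (continuous_abs.comp continuous_im) continuous_const)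
  refine mem_interior.mpr ⟨_, fun w hw => ?_, ho, ⟨h1, h2⟩⟩
  exact SqTwoX_smul hl hw.1.le hw.2.le

private lemma SqTwoX_key {l : ℝ} (hl : 1 / 2 < l) (g : ℂ ≃ᵢ ℂ)
    (h : g '' (l • SqTwoX_Q) ⊆ SqTwoX_Q) : (0 : ℂ) ∈ interior (g '' (l • SqTwoX_Q)) := by
  have hl0 : 0 < l := by linarith
  rw [interior_image_iso]
  set L : ℂ ≃ₗᵢ[ℝ] ℂ := g.toRealLinearIsometryEquiv with hL
  have hg : ∀ z, g z = L z + g 0 := by
    intro z
    have := g.toRealLinearIsometryEquiv_apply z
    rw [hL, this]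
    ring
  have hcor : ∀ s t : ℝ, |s| = 1 → |t| = 1 →
      L ((l / 2 * s : ℝ) + (l / 2 * t : ℝ) * I) + g 0 ∈ SqTwoX_Q := by
    intro s t hs ht
    rw [← hg]
    apply h
    refine ⟨_, SqTwoX_smul hl0 ?_ ?_, rfl⟩
    · simp only [add_re, mul_re, ofReal_re, ofReal_im, I_re, I_im, mul_zero, zero_mul, sub_zero,
        mul_one, add_zero, sub_self, add_zero]
      rw [abs_mul, hs, abs_of_nonneg (by linarith)]
      linarith
    · simp only [add_im, mul_im, ofReal_re, ofReal_im, I_re, I_im, mul_zero, zero_mul, mul_one,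
        add_zero, zero_add]
      rw [abs_mul, ht, abs_of_nonneg (by linarith)]
      linarith
  obtain ⟨a, ha | ha⟩ := linear_isometry_complex L
  · have ha1 : ‖(a : ℂ)‖ = 1 := a.norm_coe
    have hLz : ∀ z, L z = a * z := by
      intro z
      rw [ha, rotation_apply]
    have hr := SqTwoX_rot (z := g 0) ha1 hl (by
      intro s t hs ht
      rw [← hLz]
      exact hcor s t hs ht)
    refine ⟨-(starRingEnd ℂ (a : ℂ) * g 0), SqTwoX_int hl0 ?_ ?_, ?_⟩
    · rw [neg_re, abs_neg]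
      exact hr.1
    · rw [neg_im, abs_neg]
      exact hr.2
    · rw [hg, hLz]
      have : (a : ℂ) * starRingEnd ℂ (a : ℂ) = 1 := by
        rw [Complex.mul_conj, Complex.normSq_eq_norm_sq, ha1]
        simp
      linear_combination (-g 0) * this
  · have ha1 : ‖(a : ℂ)‖ = 1 := a.norm_coe
    have hLz : ∀ z, L z = a * starRingEnd ℂ z := by
      intro z
      rw [ha, LinearIsometryEquiv.trans_apply, conjLIE_apply, rotation_apply]
    have hr := SqTwoX_rot (z := g 0) ha1 hl (by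
      intro s t hs ht
      have := hcor s (-t) hs (by rw [abs_neg]; exact ht)
      rw [hLz] at this
      convert this using 3
      simp only [map_add, map_mul, conj_ofReal, conj_I]
      push_cast
      ring)
    refine ⟨starRingEnd ℂ (-(starRingEnd ℂ (a : ℂ) * g 0)), SqTwoX_int hl0 ?_ ?_, ?_⟩
    · rw [conj_re, neg_re, abs_neg]
      exact hr.1
    · rw [conj_im, neg_im, neg_neg]
      exact hr.2
    · rw [hg, hLz, conj_conj]
      have : (a : ℂ) * starRingEnd ℂ (a : ℂ) = 1 := by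
        rw [Complex.mul_conj, Complex.normSq_eq_norm_sq, ha1]
        simp
      linear_combination (-g 0) * this

private lemma SqTwoX_notQ : ¬ Two SqTwoX_Q := by
  rintro ⟨l, A, B, hl, ⟨g1, rfl⟩, ⟨g2, rfl⟩, hA, hB, hs⟩
  exact Set.disjoint_left.mp (SepSets.disjoint hs) (SqTwoX_key hl g1 hA) (SqTwoX_key hl g2 hB)

private lemma SqTwoX_par (o u : ℂ) :
    Par o u (I * u) = (fun z => u * z + (o + (u + I * u) / 2)) '' SqTwoX_Q := by
  ext z
  constructor
  · rintro ⟨x, y, h1, h2, h3, h4, rfl⟩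
    refine ⟨⟨x - 1 / 2, y - 1 / 2⟩, ⟨?_, ?_⟩, ?_⟩
    · rw [abs_le]
      constructor <;> simp only [] <;> linarith
    · rw [abs_le]
      constructor <;> simp only [] <;> linarith
    · have e : (⟨x - 1 / 2, y - 1 / 2⟩ : ℂ) = ((x - 1 / 2 : ℝ) : ℂ) + ((y - 1 / 2 : ℝ) : ℂ) * I := by
        apply Complex.ext <;> simp
      simp only []
      rw [e]
      push_cast
      ring
  · rintro ⟨w, ⟨h1, h2⟩, rfl⟩
    rw [abs_le] at h1 h2
    refine ⟨w.re + 1 / 2, w.im + 1 / 2, by linarith [h1.1], by linarith [h1.2],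
      by linarith [h2.1], by linarith [h2.2], ?_⟩
    have e : w = (w.re : ℂ) + (w.im : ℂ) * I := (Complex.re_add_im w).symm
    simp only []
    nth_rewrite 1 [e]
    push_cast
    ring

private lemma SqTwoX_pos (o u : ℂ) (hu : u ≠ 0) : ¬ Two (Par o u (I * u)) := by
  intro h
  rw [SqTwoX_par] at h
  exact SqTwoX_notQ (two_sim hu h)

theorem sq_not_two {F : Set ℂ} (h : IsSq F) : ¬ Two F := by
  obtain ⟨o, u, v, hu, h1, h2, rfl⟩ := h
  rcases eq_I_of_orth hu h1 h2 with e | e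
  · rw [e]
    exact SqTwoX_pos o u hu
  · have hv : v ≠ 0 := by
      intro h0
      rw [h0, norm_zero, norm_eq_zero] at h1
      exact hu h1
    rw [e, par_swap]
    exact SqTwoX_pos o v hv

end Pool.Agent.H84.Sq
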