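import Pool.Agent.H84.Sq.Defs

set_option autoImplicit false

/-!
# Symmetries of the normal form (row SQ Sym: prove `nf_swap`, `nf_rot`, `nf_mir`)

PROOF. In the coordinates `x = z.re`, `y = c z.im - s z.re` (so `z = pt s c x y`) the three isometries are
* swap: `G = refl (-s + c I) 0 '' F` (H21/Tri/Two.lean; `z ↦ (-s + c I) conj z`): `(x, y) ↦ (y, x)`;
* rot: `G = rot (-1) (pt s c 1 1) '' F`: `z ↦ pt s c 1 1 - z`: `(x, y) ↦ (1 - x, 1 - y)`;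
* mir: `G = refl (-1) (1 - (s/c) I) '' F`: `z ↦ 1 - (s/c) I - conj z`, which maps `pt s c x y` to `pt (-s) c (1 - x) y`.
`s² + c² = 1`, `c > 0`. `¬ Two G` by `two_image` (H50/CP/CornerFin.lean), `fig` by `fig_image`.
First prove private lemmas for the effect of each map on `z.re`, `c * z.im - s * z.re` and on `pt`, then each field is direct.
-/

namespace Pool.Agent.H84.Sq

open Pool.Agent.H90.Clone Pool.Agent.H21.Tri Pool.Agent.H50.CP Complex Set Pointwise MeasureTheory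

private lemma SymX_norm {s c : ℝ} (h : s ^ 2 + c ^ 2 = 1) : ‖(⟨-s, c⟩ : ℂ)‖ = 1 := by
  have h1 : ‖(⟨-s, c⟩ : ℂ)‖ ^ 2 = 1 := by
    rw [← Complex.normSq_eq_norm_sq, Complex.normSq_mk]
    nlinarith
  have h2 : 0 ≤ ‖(⟨-s, c⟩ : ℂ)‖ := norm_nonneg _
  nlinarith

private lemma SymX_one : ‖(-1 : ℂ)‖ = 1 := by simp

private lemma SymX_swap_re {s c : ℝ} (h : s ^ 2 + c ^ 2 = 1) (z : ℂ) :
    (refl ⟨-s, c⟩ 0 (SymX_norm h) z).re = c * z.im - s * z.re := by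
  rw [refl_apply]
  simp only [add_re, mul_re, conj_re, conj_im, zero_re]
  ring

private lemma SymX_swap_y {s c : ℝ} (h : s ^ 2 + c ^ 2 = 1) (z : ℂ) :
    c * (refl ⟨-s, c⟩ 0 (SymX_norm h) z).im - s * (refl ⟨-s, c⟩ 0 (SymX_norm h) z).re = z.re := by
  rw [refl_apply]
  simp only [add_re, add_im, mul_re, mul_im, conj_re, conj_im, zero_re, zero_im]
  linear_combination z.re * h

private lemma SymX_swap_pt {s c : ℝ} (h : s ^ 2 + c ^ 2 = 1) (hc : 0 < c) (x y : ℝ) :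
    refl ⟨-s, c⟩ 0 (SymX_norm h) (pt s c x y) = pt s c y x := by
  rw [refl_apply]
  apply Complex.ext
  · simp only [add_re, mul_re, conj_re, conj_im, zero_re, pt]
    field_simp
    ring
  · simp only [add_im, mul_im, conj_re, conj_im, zero_im, pt]
    field_simp
    linear_combination x * h

private lemma SymX_rot_re {s c : ℝ} (z : ℂ) :
    (rot (-1) (pt s c 1 1) SymX_one z).re = 1 - z.re := by
  rw [rot_apply]
  simp only [add_re, mul_re, neg_re, one_re, neg_im, one_im, pt]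
  ring

private lemma SymX_rot_y {s c : ℝ} (hc : 0 < c) (z : ℂ) :
    c * (rot (-1) (pt s c 1 1) SymX_one z).im - s * (rot (-1) (pt s c 1 1) SymX_one z).re
      = 1 - (c * z.im - s * z.re) := by
  rw [rot_apply]
  simp only [add_re, mul_re, add_im, mul_im, neg_re, one_re, neg_im, one_im, pt]
  field_simp
  ring

private lemma SymX_rot_pt {s c : ℝ} (hc : 0 < c) (x y : ℝ) :
    rot (-1) (pt s c 1 1) SymX_one (pt s c x y) = pt s c (1 - x) (1 - y) := by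
  rw [rot_apply]
  apply Complex.ext
  · simp only [add_re, mul_re, neg_re, one_re, neg_im, one_im, pt]
    ring
  · simp only [add_im, mul_im, neg_re, one_re, neg_im, one_im, pt]
    field_simp
    ring

private lemma SymX_mir_re {s c : ℝ} (z : ℂ) :
    (refl (-1) ⟨1, -(s / c)⟩ SymX_one z).re = 1 - z.re := by
  rw [refl_apply]
  simp only [add_re, mul_re, neg_re, one_re, neg_im, one_im, conj_re, conj_im]
  ring

private lemma SymX_mir_y {s c : ℝ} (hc : 0 < c) (z : ℂ) :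
    c * (refl (-1) ⟨1, -(s / c)⟩ SymX_one z).im
      - (-s) * (refl (-1) ⟨1, -(s / c)⟩ SymX_one z).re = c * z.im - s * z.re := by
  rw [refl_apply]
  simp only [add_re, mul_re, add_im, mul_im, neg_re, one_re, neg_im, one_im, conj_re, conj_im]
  field_simp
  ring

private lemma SymX_mir_pt {s c : ℝ} (hc : 0 < c) (x y : ℝ) :
    refl (-1) ⟨1, -(s / c)⟩ SymX_one (pt s c x y) = pt (-s) c (1 - x) y := by
  rw [refl_apply]
  apply Complex.ext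
  · simp only [add_re, mul_re, neg_re, one_re, neg_im, one_im, conj_re, conj_im, pt]
    ring
  · simp only [add_im, mul_im, neg_re, one_re, neg_im, one_im, conj_re, conj_im, pt]
    field_simp
    ring

theorem nf_swap {F : Set ℂ} {s c κ p q u v : ℝ} (h : NF F s c κ p q u v) (h2 : ¬ Two F) :
    ∃ G : Set ℂ, NF G s c κ p q v u ∧ ¬ Two G := by
  have hP : ∀ x y : ℝ, pt s c x y ∈ F →
      pt s c y x ∈ refl ⟨-s, c⟩ 0 (SymX_norm h.cs) '' F :=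
    fun x y hxy => ⟨_, hxy, SymX_swap_pt h.cs h.c0 x y⟩
  refine ⟨refl ⟨-s, c⟩ 0 (SymX_norm h.cs) '' F, ?_, fun ht => h2 (two_image h.fig _ ht)⟩
  refine ⟨fig_image h.fig _, h.cs, h.c0, ?_, ?_, ?_, ?_, ?_, ?_, ?_, ?_, ?_, ?_, ?_, ?_, ?_⟩
  · rintro _ ⟨z, hz, rfl⟩
    rw [SymX_swap_y h.cs, SymX_swap_re h.cs]
    obtain ⟨a1, a2, a3, a4⟩ := h.sub z hz
    exact ⟨a3, a4, a1, a2⟩
  · rintro _ ⟨z, hz, rfl⟩
    rw [SymX_swap_y h.cs, SymX_swap_re h.cs]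
    linarith [h.oLL z hz]
  · rintro _ ⟨z, hz, rfl⟩
    rw [SymX_swap_y h.cs, SymX_swap_re h.cs]
    linarith [h.oUR z hz]
  · rintro _ ⟨z, hz, rfl⟩
    rw [SymX_swap_y h.cs, SymX_swap_re h.cs]
    linarith [h.oLR z hz]
  · rintro _ ⟨z, hz, rfl⟩
    rw [SymX_swap_y h.cs, SymX_swap_re h.cs]
    linarith [h.oUL z hz]
  · obtain ⟨y, h0, h1, hm⟩ := h.LL2
    exact ⟨y, h0, h1, hP _ _ hm⟩
  · obtain ⟨x, h0, h1, hm⟩ := h.LL1
    exact ⟨x, h0, h1, hP _ _ hm⟩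
  · obtain ⟨y, h0, h1, hm⟩ := h.UR2
    exact ⟨y, h0, h1, hP _ _ hm⟩
  · obtain ⟨x, h0, h1, hm⟩ := h.UR1
    exact ⟨x, h0, h1, hP _ _ hm⟩
  · obtain ⟨y, h0, h1, hm⟩ := h.LR2
    exact ⟨y, h0, h1, hP _ _ hm⟩
  · obtain ⟨x, h0, h1, hm⟩ := h.LR1
    exact ⟨x, h0, h1, hP _ _ hm⟩
  · obtain ⟨y, h0, h1, hm⟩ := h.UL2
    exact ⟨y, h0, h1, hP _ _ hm⟩
  · obtain ⟨x, h0, h1, hm⟩ := h.UL1
    exact ⟨x, h0, h1, hP _ _ hm⟩

theorem nf_rot {F : Set ℂ} {s c κ p q u v : ℝ} (h : NF F s c κ p q u v) (h2 : ¬ Two F) :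
    ∃ G : Set ℂ, NF G s c κ q p v u ∧ ¬ Two G := by
  have hP : ∀ x y : ℝ, pt s c x y ∈ F →
      pt s c (1 - x) (1 - y) ∈ rot (-1) (pt s c 1 1) SymX_one '' F :=
    fun x y hxy => ⟨_, hxy, SymX_rot_pt h.c0 x y⟩
  refine ⟨rot (-1) (pt s c 1 1) SymX_one '' F, ?_, fun ht => h2 (two_image h.fig _ ht)⟩
  have hc0 := h.c0
  refine ⟨fig_image h.fig _, h.cs, h.c0, ?_, ?_, ?_, ?_, ?_, ?_, ?_, ?_, ?_, ?_, ?_, ?_, ?_⟩
  · rintro _ ⟨z, hz, rfl⟩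
    rw [SymX_rot_y hc0, SymX_rot_re]
    obtain ⟨a1, a2, a3, a4⟩ := h.sub z hz
    exact ⟨by linarith, by linarith, by linarith, by linarith⟩
  · rintro _ ⟨z, hz, rfl⟩
    rw [SymX_rot_y hc0, SymX_rot_re]
    linarith [h.oUR z hz]
  · rintro _ ⟨z, hz, rfl⟩
    rw [SymX_rot_y hc0, SymX_rot_re]
    linarith [h.oLL z hz]
  · rintro _ ⟨z, hz, rfl⟩
    rw [SymX_rot_y hc0, SymX_rot_re]
    linarith [h.oLR z hz]
  · rintro _ ⟨z, hz, rfl⟩
    rw [SymX_rot_y hc0, SymX_rot_re]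
    linarith [h.oUL z hz]
  · obtain ⟨x, h0, h1, hm⟩ := h.UR1
    refine ⟨x, h0, h1, ?_⟩
    have := hP _ _ hm
    rwa [sub_sub_cancel, sub_self] at this
  · obtain ⟨y, h0, h1, hm⟩ := h.UR2
    refine ⟨y, h0, h1, ?_⟩
    have := hP _ _ hm
    rwa [sub_sub_cancel, sub_self] at this
  · obtain ⟨x, h0, h1, hm⟩ := h.LL1
    refine ⟨x, h0, h1, ?_⟩
    have := hP _ _ hm
    rwa [sub_zero] at this
  · obtain ⟨y, h0, h1, hm⟩ := h.LL2
    refine ⟨y, h0, h1, ?_⟩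
    have := hP _ _ hm
    rwa [sub_zero] at this
  · obtain ⟨x, h0, h1, hm⟩ := h.LR1
    refine ⟨x, h0, h1, ?_⟩
    have := hP _ _ hm
    rwa [sub_sub_cancel, sub_zero] at this
  · obtain ⟨y, h0, h1, hm⟩ := h.LR2
    refine ⟨y, h0, h1, ?_⟩
    have := hP _ _ hm
    rwa [sub_self] at this
  · obtain ⟨x, h0, h1, hm⟩ := h.UL1
    refine ⟨x, h0, h1, ?_⟩
    have := hP _ _ hm
    rwa [sub_self] at this
  · obtain ⟨y, h0, h1, hm⟩ := h.UL2
    refine ⟨y, h0, h1, ?_⟩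
    have := hP _ _ hm
    rwa [sub_sub_cancel, sub_zero] at this

theorem nf_mir {F : Set ℂ} {s c κ p q u v : ℝ} (h : NF F s c κ p q u v) (h2 : ¬ Two F) :
    ∃ G : Set ℂ, NF G (-s) c κ v u q p ∧ ¬ Two G := by
  have hP : ∀ x y : ℝ, pt s c x y ∈ F →
      pt (-s) c (1 - x) y ∈ refl (-1) ⟨1, -(s / c)⟩ SymX_one '' F :=
    fun x y hxy => ⟨_, hxy, SymX_mir_pt h.c0 x y⟩
  refine ⟨refl (-1) ⟨1, -(s / c)⟩ SymX_one '' F, ?_, fun ht => h2 (two_image h.fig _ ht)⟩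
  have hc0 := h.c0
  refine ⟨fig_image h.fig _, ?_, h.c0, ?_, ?_, ?_, ?_, ?_, ?_, ?_, ?_, ?_, ?_, ?_, ?_, ?_⟩
  · have := h.cs
    nlinarith
  · rintro _ ⟨z, hz, rfl⟩
    rw [SymX_mir_y hc0, SymX_mir_re]
    obtain ⟨a1, a2, a3, a4⟩ := h.sub z hz
    exact ⟨by linarith, by linarith, by linarith, by linarith⟩
  · rintro _ ⟨z, hz, rfl⟩
    rw [SymX_mir_y hc0, SymX_mir_re]
    linarith [h.oLR z hz]
  · rintro _ ⟨z, hz, rfl⟩
    rw [SymX_mir_y hc0, SymX_mir_re]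
    linarith [h.oUL z hz]
  · rintro _ ⟨z, hz, rfl⟩
    rw [SymX_mir_y hc0, SymX_mir_re]
    linarith [h.oUR z hz]
  · rintro _ ⟨z, hz, rfl⟩
    rw [SymX_mir_y hc0, SymX_mir_re]
    linarith [h.oLL z hz]
  · obtain ⟨x, h0, h1, hm⟩ := h.LR1
    refine ⟨x, h0, h1, ?_⟩
    have := hP _ _ hm
    rwa [sub_sub_cancel] at this
  · obtain ⟨y, h0, h1, hm⟩ := h.LR2
    refine ⟨y, h0, h1, ?_⟩
    have := hP _ _ hm
    rwa [sub_self] at this
  · obtain ⟨x, h0, h1, hm⟩ := h.UL1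
    refine ⟨x, h0, h1, ?_⟩
    exact hP _ _ hm
  · obtain ⟨y, h0, h1, hm⟩ := h.UL2
    refine ⟨y, h0, h1, ?_⟩
    have := hP _ _ hm
    rwa [sub_zero] at this
  · obtain ⟨x, h0, h1, hm⟩ := h.UR1
    refine ⟨x, h0, h1, ?_⟩
    have := hP _ _ hm
    rwa [sub_sub_cancel] at this
  · obtain ⟨y, h0, h1, hm⟩ := h.UR2
    refine ⟨y, h0, h1, ?_⟩
    have := hP _ _ hm
    rwa [sub_self] at this
  · obtain ⟨x, h0, h1, hm⟩ := h.LL1
    refine ⟨x, h0, h1, ?_⟩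
    exact hP _ _ hm
  · obtain ⟨y, h0, h1, hm⟩ := h.LL2
    refine ⟨y, h0, h1, ?_⟩
    have := hP _ _ hm
    rwa [sub_zero] at this

end Pool.Agent.H84.Sq
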