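import Pool.Agent.H84.Sq.Tilt
import Pool.Agent.H84.Sq.Sym

set_option autoImplicit false

/-!
# A figure in normal form without `Two` is a square
-/

namespace Pool.Agent.H84.Sq

open Pool.Agent.H90.Clone Pool.Agent.H21.Tri Pool.Agent.H50.CP Complex Set Pointwise MeasureTheory

private lemma combo_gain {F : Set ℂ} {s c p q u v ρ : ℝ} (h : NF F s c (1 / 100) p q u v)
    (h2 : ¬ Two F) (hρ0 : 0 < ρ) (hρ : ρ ≤ 1 / 1000) (hs : |s| ≤ ρ) (hp : p ≤ ρ) (hqp : q ≤ p)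
    (hu : u ≤ ρ) (hvu : v ≤ u) : s + u ≤ 51 / 100 * p + 25 / 1000 * ρ := by
  by_contra hc
  push Not at hc
  obtain ⟨x, x0, x1, -⟩ := h.LL1
  exact h2 (tilt_two h hρ hs hp hqp hu (hvu.trans hu) (S := 102 / 100 * p + ρ / 100)
    (by linarith) (by linarith) (by linarith) (by linarith))

private lemma combo_core {F : Set ℂ} {s c p q u v : ℝ} (h : NF F s c (1 / 100) p q u v)
    (h2 : ¬ Two F) (hs : |s| ≤ 1 / 1000) (hp : p ≤ 1 / 1000) (hqp : q ≤ p) (hu : u ≤ 1 / 1000)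
    (hvu : v ≤ u) : s = 0 ∧ p = 0 ∧ q = 0 ∧ u = 0 ∧ v = 0 := by
  obtain ⟨x, x0, x1, -⟩ := h.LL1
  obtain ⟨x', x0', x1', -⟩ := h.UL1
  obtain ⟨x2, x20, x21, -⟩ := h.UR1
  obtain ⟨x3, x30, x31, -⟩ := h.LR1
  obtain ⟨G, hG, hG2⟩ := nf_mir h h2
  obtain ⟨G', hG', hG2'⟩ := nf_rot hG hG2
  obtain ⟨ρ, hρd⟩ : ∃ ρ : ℝ, ρ = max |s| (max p u) := ⟨_, rfl⟩
  have hρ1 : |s| ≤ ρ := by rw [hρd]; exact le_max_left _ _
  have hρ2 : p ≤ ρ := by rw [hρd]; exact (le_max_left _ _).trans (le_max_right _ _)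
  have hρ3 : u ≤ ρ := by rw [hρd]; exact (le_max_right _ _).trans (le_max_right _ _)
  have hρ4 : ρ ≤ 1 / 1000 := by rw [hρd]; exact max_le hs (max_le hp hu)
  have habs := abs_nonneg s
  have hρ0 : ρ ≤ 0 := by
    by_contra hc
    push Not at hc
    have g1 := combo_gain h h2 hc hρ4 hρ1 hρ2 hqp hρ3 hvu
    have g2 := combo_gain hG' hG2' hc hρ4 (by rwa [abs_neg]) hρ3 hvu hρ2 hqp
    have g3 : ρ = |s| := by
      rcases max_choice |s| (max p u) with hm | hm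
      · rw [hρd, hm]
      · rcases max_choice p u with hm' | hm'
        · rw [← hρd, hm'] at hm
          linarith
        · rw [← hρd, hm'] at hm
          linarith
    rcases le_total 0 s with h0 | h0
    · rw [abs_of_nonneg h0] at g3
      linarith
    · rw [abs_of_nonpos h0] at g3
      linarith
  have hs0 : |s| = 0 := le_antisymm (by linarith) habs
  exact ⟨abs_eq_zero.mp hs0, by linarith, by linarith, by linarith, by linarith⟩

theorem nf_zero {F : Set ℂ} {s c p q u v : ℝ} (h : NF F s c (1 / 100) p q u v) (h2 : ¬ Two F)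
    (hs : |s| ≤ 1 / 1000) (hp : p ≤ 1 / 1000) (hq : q ≤ 1 / 1000) (hu : u ≤ 1 / 1000)
    (hv : v ≤ 1 / 1000) : s = 0 ∧ p = 0 ∧ q = 0 ∧ u = 0 ∧ v = 0 := by
  rcases le_total q p with hqp | hqp
  · rcases le_total v u with hvu | hvu
    · exact combo_core h h2 hs hp hqp hu hvu
    · obtain ⟨G, hG, hG2⟩ := nf_swap h h2
      obtain ⟨r1, r2, r3, r4, r5⟩ := combo_core hG hG2 hs hp hqp hv hvu
      exact ⟨r1, r2, r3, r5, r4⟩
  · obtain ⟨G, hG, hG2⟩ := nf_rot h h2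
    rcases le_total v u with hvu | hvu
    · obtain ⟨G', hG', hG2'⟩ := nf_swap hG hG2
      obtain ⟨r1, r2, r3, r4, r5⟩ := combo_core hG' hG2' hs hq hqp hu hvu
      exact ⟨r1, r3, r2, r4, r5⟩
    · obtain ⟨r1, r2, r3, r4, r5⟩ := combo_core hG hG2 hs hq hqp hv hvu
      exact ⟨r1, r3, r2, r5, r4⟩

/-- the unit square -/
theorem nf_square {F : Set ℂ} {c κ : ℝ} (h : NF F 0 c κ 0 0 0 0) : F = Par 0 1 I := by
  have hc : c = 1 := by
    have h1 := h.cs
    have h2 := h.c0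
    nlinarith
  subst hc
  obtain ⟨x1, a1, b1, m1⟩ := h.LL1
  obtain ⟨x2, a2, b2, m2⟩ := h.LR1
  obtain ⟨x3, a3, b3, m3⟩ := h.UL1
  obtain ⟨x4, a4, b4, m4⟩ := h.UR1
  have e1 : x1 = 0 := le_antisymm b1 a1
  have e2 : x2 = 0 := le_antisymm b2 a2
  have e3 : x3 = 0 := le_antisymm b3 a3
  have e4 : x4 = 0 := le_antisymm b4 a4
  subst e1 e2 e3 e4
  have hcv := h.fig.2.1
  ext z
  constructor
  · intro hz
    obtain ⟨k1, k2, k3, k4⟩ := h.sub z hz
    refine ⟨z.re, z.im, k1, k2, by linarith, by linarith, ?_⟩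
    apply Complex.ext
    · simp
    · simp
  · rintro ⟨x, y, h1, h2, h3, h4, rfl⟩
    -- convexity
    have hb : (((x : ℝ) : ℂ)) ∈ F := by
      have := hcv m1 m2 (show (0:ℝ) ≤ 1 - x by linarith) h1 (by ring)
      have e : (1 - x) • pt 0 1 0 0 + x • pt 0 1 (1 - 0) 0 = (x : ℂ) := by
        apply Complex.ext
        · simp [pt]
        · simp [pt]
      rwa [e] at this
    have ht : (((x : ℝ) : ℂ) + I) ∈ F := by
      have := hcv m3 m4 (show (0:ℝ) ≤ 1 - x by linarith) h1 (by ring)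
      have e : (1 - x) • pt 0 1 0 1 + x • pt 0 1 (1 - 0) 1 = (x : ℂ) + I := by
        apply Complex.ext
        · simp [pt]
        · simp [pt]
      rwa [e] at this
    have := hcv hb ht (show (0:ℝ) ≤ 1 - y by linarith) h3 (by ring)
    have e : (1 - y) • (x : ℂ) + y • ((x : ℂ) + I) = 0 + (x : ℂ) * 1 + (y : ℂ) * I := by
      simp only [real_smul]
      push_cast
      ring
    rwa [e] at this

end Pool.Agent.H84.Sq
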