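import Pool.Agent.H84.Sq.Base

set_option autoImplicit false

/-!
# Isolation of the square: definitions
-/

namespace Pool.Agent.H84.Sq

open Pool.Agent.H90.Clone Pool.Agent.H21.Tri Pool.Agent.H50.CP Complex Set Pointwise MeasureTheory

/-- `F` lies between two concentric squares of side `1` and `1 + 2 r`. -/
structure Near (F : Set ℂ) (r : ℝ) : Prop where
  fig : IsConvexFigure F
  inn : ∀ z : ℂ, |z.re| ≤ 1 / 2 → |z.im| ≤ 1 / 2 → z ∈ F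
  out : ∀ z ∈ F, |z.re| ≤ 1 / 2 + r ∧ |z.im| ≤ 1 / 2 + r

/-- `F` has a straight wall from `a` to `b` with outer normal `n ≈ e`, close to the side of the unit
square with outer normal `e`, with further outer normals `c ≈ e (1 - I)` at `a` and `d ≈ e (1 + I)`
at `b`. -/
structure Wall (F : Set ℂ) (e n a b c d : ℂ) (δ : ℝ) : Prop where
  ma : a ∈ F
  mb : b ∈ F
  n1 : ‖n‖ = 1
  sn : ∀ z ∈ F, ip z n ≤ ip b n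
  eq : ip a n = ip b n
  sc : ∀ z ∈ F, ip z c ≤ ip a c
  sd : ∀ z ∈ F, ip z d ≤ ip b d
  hn : ‖n - e‖ ≤ δ
  ha : ‖a - e * (1 / 2 - I / 2)‖ ≤ δ
  hb : ‖b - e * (1 / 2 + I / 2)‖ ≤ δ
  hc : ‖c - e * (1 - I)‖ ≤ δ
  hd : ‖d - e * (1 + I)‖ ≤ δ

/-- the point at distances `x`, `y` from the two lines `Re z = 0`, `c Im z = s Re z` -/
noncomputable def pt (s c x y : ℝ) : ℂ := ⟨x, (y + s * x) / c⟩

/-- Normal form: `F` is a unit rhombus (distance `1` between opposite sides; the left side is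
vertical, the lower side has direction `(c, s)`) with small cuts at the corners. The sizes of the
cuts are `p` (lower left), `q` (upper right), `u` (upper left), `v` (lower right). -/
structure NF (F : Set ℂ) (s c κ p q u v : ℝ) : Prop where
  fig : IsConvexFigure F
  cs : s ^ 2 + c ^ 2 = 1
  c0 : 0 < c
  sub : ∀ z ∈ F, 0 ≤ z.re ∧ z.re ≤ 1 ∧ 0 ≤ c * z.im - s * z.re ∧ c * z.im - s * z.re ≤ 1
  oLL : ∀ z ∈ F, (1 - κ) * p ≤ z.re + (c * z.im - s * z.re)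
  oUR : ∀ z ∈ F, (1 - κ) * q ≤ (1 - z.re) + (1 - (c * z.im - s * z.re))
  oUL : ∀ z ∈ F, (1 - κ) * u ≤ z.re + (1 - (c * z.im - s * z.re))
  oLR : ∀ z ∈ F, (1 - κ) * v ≤ (1 - z.re) + (c * z.im - s * z.re)
  LL1 : ∃ x : ℝ, 0 ≤ x ∧ x ≤ p ∧ pt s c x 0 ∈ F
  LL2 : ∃ y : ℝ, 0 ≤ y ∧ y ≤ p ∧ pt s c 0 y ∈ F
  UR1 : ∃ x : ℝ, 0 ≤ x ∧ x ≤ q ∧ pt s c (1 - x) 1 ∈ F
  UR2 : ∃ y : ℝ, 0 ≤ y ∧ y ≤ q ∧ pt s c 1 (1 - y) ∈ F
  UL1 : ∃ x : ℝ, 0 ≤ x ∧ x ≤ u ∧ pt s c x 1 ∈ F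
  UL2 : ∃ y : ℝ, 0 ≤ y ∧ y ≤ u ∧ pt s c 0 (1 - y) ∈ F
  LR1 : ∃ x : ℝ, 0 ≤ x ∧ x ≤ v ∧ pt s c (1 - x) 0 ∈ F
  LR2 : ∃ y : ℝ, 0 ≤ y ∧ y ≤ v ∧ pt s c 1 y ∈ F

/-- squares -/
def IsSq (F : Set ℂ) : Prop := ∃ o u v : ℂ, u ≠ 0 ∧ ‖u‖ = ‖v‖ ∧ ip u v = 0 ∧ F = Par o u v

end Pool.Agent.H84.Sq
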