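import Pool.Agent.H84.Sq.Tilt

set_option autoImplicit false

/-!
# From four straight walls to the normal form
-/

namespace Pool.Agent.H84.Sq

open Pool.Agent.H90.Clone Pool.Agent.H21.Tri Pool.Agent.H50.CP Complex Set Pointwise MeasureTheory

lemma fig_sim {F : Set ℂ} (hF : IsConvexFigure F) {a : ℂ} (ha : a ≠ 0) (b : ℂ) :
    IsConvexFigure ((fun z => a * z + b) '' F) := by
  refine ⟨hF.1.image (by fun_prop), ?_, ?_⟩
  · rintro _ ⟨x, hx, rfl⟩ _ ⟨y, hy, rfl⟩ α β hα hβ hαβ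
    refine ⟨α • x + β • y, hF.2.1 hx hy hα hβ hαβ, ?_⟩
    have e : (α : ℂ) + β = 1 := by exact_mod_cast hαβ
    simp only [real_smul]
    linear_combination (-b) * e
  · have h1 : (fun z => a * z + b) '' interior F ⊆ (fun z => a * z + b) '' F :=
      image_mono interior_subset
    have h2 : IsOpen ((fun z => a * z + b) '' interior F) := by
      have e : (fun z => a * z + b) = ⇑((Homeomorph.mulLeft₀ a ha).trans (Homeomorph.addRight b)) :=
        rfl
      rw [e]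
      exact ((Homeomorph.mulLeft₀ a ha).trans (Homeomorph.addRight b)).isOpenMap _ isOpen_interior
    exact (hF.2.2.image _).mono (interior_maximal h1 h2)

lemma comp_le {z e : ℂ} {δ : ℝ} (h : ‖z - e‖ ≤ δ) : |z.re - e.re| ≤ δ ∧ |z.im - e.im| ≤ δ := by
  have h1 := Complex.abs_re_le_norm (z - e)
  have h2 := Complex.abs_im_le_norm (z - e)
  rw [sub_re] at h1
  rw [sub_im] at h2
  exact ⟨h1.trans h, h2.trans h⟩

private lemma mul_abs {x y a b : ℝ} (hx : |x| ≤ a) (hy : |y| ≤ b) : |x * y| ≤ a * b := by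
  rw [abs_mul]
  exact mul_le_mul hx hy (abs_nonneg _) ((abs_nonneg _).trans hx)

private lemma ip_small {z n : ℂ} {δ : ℝ} (hδ0 : 0 ≤ δ) (hδ : δ ≤ 1 / 10000) (h1 : |z.re| ≤ 2 * δ)
    (h2 : |z.im| ≤ 1 + 2 * δ) (h3 : |n.re| ≤ 1 + δ) (h4 : |n.im| ≤ δ) : |ip z n| ≤ 4 * δ := by
  have e1 := mul_abs h1 h3
  have e2 := mul_abs h2 h4
  have e3 : |ip z n| ≤ |z.re * n.re| + |z.im * n.im| := abs_add_le _ _
  nlinarith only [hδ0, hδ, e1, e2, e3]

private lemma ip_small' {z n : ℂ} {δ : ℝ} (hδ0 : 0 ≤ δ) (hδ : δ ≤ 1 / 10000)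
    (h1 : |z.re| ≤ 1 + 2 * δ) (h2 : |z.im| ≤ 2 * δ) (h3 : |n.re| ≤ δ) (h4 : |n.im| ≤ 1 + δ) :
    |ip z n| ≤ 4 * δ := by
  have e1 := mul_abs h1 h3
  have e2 := mul_abs h2 h4
  have e3 : |ip z n| ≤ |z.re * n.re| + |z.im * n.im| := abs_add_le _ _
  nlinarith only [hδ0, hδ, e1, e2, e3]

/-- the coefficients of a functional in the oblique coordinates -/
private lemma coef {n0 d : ℂ} {s c δ σ₁ σ₂ : ℝ} (hδ0 : 0 ≤ δ) (hδ : δ ≤ 1 / 10000)
    (hn : ‖n0 - 1‖ ≤ δ) (hs : |s| ≤ 3 * δ) (hc : |c - 1| ≤ 3 * δ) (h1 : |σ₁| = 1) (h2 : |σ₂| = 1)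
    (hd : ‖d - (σ₁ + σ₂ * I)‖ ≤ δ) :
    |((starRingEnd ℂ) n0 * d).re + s / c * ((starRingEnd ℂ) n0 * d).im - σ₁| ≤ 1 / 1000 ∧
    |((starRingEnd ℂ) n0 * d).im / c - σ₂| ≤ 1 / 1000 := by
  obtain ⟨g1, g2⟩ := comp_le hn
  obtain ⟨g3, g4⟩ := comp_le hd
  simp only [one_re, one_im, sub_zero, add_re, add_im, mul_re, mul_im, I_re, I_im, ofReal_re,
    ofReal_im, mul_zero, mul_one, add_zero, zero_add] at g1 g2 g3 g4
  have ere : ((starRingEnd ℂ) n0 * d).re = n0.re * d.re + n0.im * d.im := by simp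
  have eim : ((starRingEnd ℂ) n0 * d).im = n0.re * d.im - n0.im * d.re := by
    simp
    ring
  have hdr : |d.re| ≤ 1 + δ := by
    have := abs_add_le (d.re - σ₁) σ₁
    rw [sub_add_cancel] at this
    linarith only [h1, g3, this]
  have hdi : |d.im| ≤ 1 + δ := by
    have := abs_add_le (d.im - σ₂) σ₂
    rw [sub_add_cancel] at this
    linarith only [h2, g4, this]
  have k1 : |((starRingEnd ℂ) n0 * d).re - σ₁| ≤ 4 * δ := by
    have e : ((starRingEnd ℂ) n0 * d).re - σ₁ = (n0.re - 1) * d.re + (d.re - σ₁) + n0.im * d.im := by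
      rw [ere]; ring
    rw [e]
    have f1 := mul_abs g1 hdr
    have f2 := mul_abs g2 hdi
    have f3 := abs_add_le ((n0.re - 1) * d.re + (d.re - σ₁)) (n0.im * d.im)
    have f4 := abs_add_le ((n0.re - 1) * d.re) (d.re - σ₁)
    nlinarith only [hδ0, hδ, g3, f1, f2, f3, f4]
  have k2 : |((starRingEnd ℂ) n0 * d).im - σ₂| ≤ 4 * δ := by
    have e : ((starRingEnd ℂ) n0 * d).im - σ₂ = (n0.re - 1) * d.im + (d.im - σ₂) + n0.im * (-d.re) := by
      rw [eim]; ring
    rw [e]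
    have f1 := mul_abs g1 hdi
    have f2 := mul_abs g2 (show |-d.re| ≤ 1 + δ by rwa [abs_neg])
    have f3 := abs_add_le ((n0.re - 1) * d.im + (d.im - σ₂)) (n0.im * (-d.re))
    have f4 := abs_add_le ((n0.re - 1) * d.im) (d.im - σ₂)
    nlinarith only [hδ0, hδ, g4, f1, f2, f3, f4]
  obtain ⟨P, hP⟩ : ∃ P : ℝ, P = ((starRingEnd ℂ) n0 * d).re := ⟨_, rfl⟩
  obtain ⟨Q, hQ⟩ : ∃ Q : ℝ, Q = ((starRingEnd ℂ) n0 * d).im := ⟨_, rfl⟩
  rw [← hP, ← hQ]
  rw [← hP] at k1
  rw [← hQ] at k2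
  have hc1 : 999 / 1000 ≤ c := by
    have := (abs_le.mp hc).1
    linarith only [hδ, this]
  have hc0 : 0 < c := by linarith only [hc1]
  have hQ1 : |Q| ≤ 1 + 4 * δ := by
    have := abs_add_le (Q - σ₂) σ₂
    rw [sub_add_cancel] at this
    linarith only [h2, k2, this]
  have hsc : |s / c * Q| ≤ 4 * δ := by
    rw [div_mul_eq_mul_div, abs_div, abs_of_pos hc0, div_le_iff₀ hc0]
    have := mul_abs hs hQ1
    nlinarith only [hδ0, hδ, hc1, this]
  constructor
  · have e : P + s / c * Q - σ₁ = (P - σ₁) + s / c * Q := by ring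
    rw [e]
    have := abs_add_le (P - σ₁) (s / c * Q)
    linarith only [hδ, k1, hsc, this]
  · have e : Q / c - σ₂ = ((Q - σ₂) + σ₂ * (1 - c)) / c := by field_simp; ring
    rw [e, abs_div, abs_of_pos hc0, div_le_iff₀ hc0]
    have f1 := abs_add_le (Q - σ₂) (σ₂ * (1 - c))
    have f2 := mul_abs h2.le (show |1 - c| ≤ 3 * δ by rwa [abs_sub_comm])
    linarith only [hδ, k2, hc1, f1, f2]

private lemma cut_bd {α β X Y t : ℝ} (hα : |α - 1| ≤ 1 / 1000) (hβ : |β - 1| ≤ 1 / 1000)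
    (hX : 0 ≤ X) (hY : 0 ≤ Y) (ht : 0 ≤ t) (h : β * t ≤ α * X + β * Y) :
    (1 - 1 / 100) * t ≤ X + Y := by
  obtain ⟨a1, a2⟩ := abs_le.mp hα
  obtain ⟨b1, b2⟩ := abs_le.mp hβ
  have e1 : α * X ≤ (1 + 1 / 1000) * X := mul_le_mul_of_nonneg_right (by linarith only [a2]) hX
  have e2 : β * Y ≤ (1 + 1 / 1000) * Y := mul_le_mul_of_nonneg_right (by linarith only [b2]) hY
  have e3 : (1 - 1 / 1000) * t ≤ β * t := mul_le_mul_of_nonneg_right (by linarith only [b1]) ht
  linarith only [hX, hY, h, e1, e2, e3]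

theorem nf_of_walls {F : Set ℂ} (hF : IsConvexFigure F) {δ : ℝ} (hδ : δ ≤ 1 / 10000)
    {n0 a0 b0 c0 d0 n1 a1 b1 c1 d1 a2 b2 c2 d2 a3 b3 c3 d3 : ℂ}
    (W0 : Wall F 1 n0 a0 b0 c0 d0 δ) (W1 : Wall F I n1 a1 b1 c1 d1 δ)
    (W2 : Wall F (-1) (-n0) a2 b2 c2 d2 δ) (W3 : Wall F (-I) (-n1) a3 b3 c3 d3 δ)
    (wd : ip b0 n0 + ip b2 (-n0) = ip b1 n1 + ip b3 (-n1)) :
    ∃ (A B : ℂ) (s c p q u v : ℝ), A ≠ 0 ∧
      NF ((fun z => A * z + B) '' F) s c (1 / 100) p q u v ∧ |s| ≤ 1 / 1000 ∧ p ≤ 1 / 1000 ∧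
      q ≤ 1 / 1000 ∧ u ≤ 1 / 1000 ∧ v ≤ 1 / 1000 := by
  have hδ0 : 0 ≤ δ := (norm_nonneg _).trans W0.hn
  -- components
  have A0 := comp_le W0.ha
  have B0 := comp_le W0.hb
  have A1 := comp_le W1.ha
  have B1 := comp_le W1.hb
  have A2 := comp_le W2.ha
  have B2 := comp_le W2.hb
  have A3 := comp_le W3.ha
  have B3 := comp_le W3.hb
  have N0 := comp_le W0.hn
  have N1 := comp_le W1.hn
  simp only [mul_re, mul_im, sub_re, sub_im, add_re, add_im, one_re, one_im, I_re, I_im, neg_re,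
    neg_im] at A0 B0 A1 B1 A2 B2 A3 B3 N0 N1
  norm_num at A0 B0 A1 B1 A2 B2 A3 B3 N0 N1
  have hw0 : 999 / 1000 ≤ ip b0 n0 + ip b2 (-n0) := by
    have e : ip b0 n0 + ip b2 (-n0) = (b0.re - b2.re) * n0.re + (b0.im - b2.im) * n0.im := by
      simp [ip]
      ring
    rw [e]
    obtain ⟨p1, p2⟩ := abs_le.mp B0.1
    obtain ⟨p3, p4⟩ := abs_le.mp B0.2
    obtain ⟨p5, p6⟩ := abs_le.mp B2.1
    obtain ⟨p7, p8⟩ := abs_le.mp B2.2
    obtain ⟨p9, p10⟩ := abs_le.mp N0.1
    have f1 : (1 - 2 * δ) * (1 - δ) ≤ (b0.re - b2.re) * n0.re :=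
      mul_le_mul (by linarith only [p1, p6]) (by linarith only [p9]) (by linarith only [hδ]) (by linarith only [hδ, p1, p6])
    have f2 := mul_abs (show |b0.im - b2.im| ≤ 1 + 2 * δ from abs_le.mpr ⟨by linarith only [p3, p8], by linarith only [p4, p7]⟩)
      N0.2
    have f3 := (abs_le.mp f2).1
    linarith only [hδ, f1, f3]
  obtain ⟨h0, hh0⟩ : ∃ h0 : ℝ, h0 = ip b0 n0 := ⟨_, rfl⟩
  obtain ⟨h2, hh2⟩ : ∃ h2 : ℝ, h2 = ip b2 (-n0) := ⟨_, rfl⟩
  obtain ⟨h1, hh1⟩ : ∃ h1 : ℝ, h1 = ip b1 n1 := ⟨_, rfl⟩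
  obtain ⟨h3, hh3⟩ : ∃ h3 : ℝ, h3 = ip b3 (-n1) := ⟨_, rfl⟩
  obtain ⟨w, hw⟩ : ∃ w : ℝ, w = h0 + h2 := ⟨_, rfl⟩
  rw [← hh0, ← hh2, ← hh1, ← hh3] at wd
  rw [← hh0, ← hh2, ← hw] at hw0
  have hw' : w = h1 + h3 := by linarith only [wd, hw]
  have hwp : 0 < w := by linarith only [hw0]
  have hwc : (w : ℂ) ≠ 0 := by exact_mod_cast hwp.ne'
  have nn0 := ip_self_one W0.n1
  have nn1 := ip_self_one W1.n1
  have negr : ∀ z x : ℂ, ip z (-x) = -ip z x := by
    intro z x
    simp [ip]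
    ring
  -- the angle
  obtain ⟨s, hs⟩ : ∃ s : ℝ, s = -(n0.re * n1.re + n0.im * n1.im) := ⟨_, rfl⟩
  obtain ⟨c, hc⟩ : ∃ c : ℝ, c = n0.re * n1.im - n0.im * n1.re := ⟨_, rfl⟩
  have hcs : s ^ 2 + c ^ 2 = 1 := by
    rw [hs, hc]
    linear_combination (n1.re ^ 2 + n1.im ^ 2) * nn0 + nn1
  have hn0r : |n0.re| ≤ 1 + δ := by
    have := abs_add_le (n0.re - 1) 1
    rw [sub_add_cancel, abs_one] at this
    linarith only [N0, this]
  have hn1i : |n1.im| ≤ 1 + δ := by
    have := abs_add_le (n1.im - 1) 1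
    rw [sub_add_cancel, abs_one] at this
    linarith only [N1, this]
  have hs1 : |s| ≤ 3 * δ := by
    rw [hs, abs_neg]
    have f1 := mul_abs hn0r N1.1
    have f2 := mul_abs N0.2 hn1i
    have f3 := abs_add_le (n0.re * n1.re) (n0.im * n1.im)
    nlinarith only [hδ, hδ0, f1, f2, f3]
  have hc1 : |c - 1| ≤ 3 * δ := by
    have e : c - 1 = (n0.re - 1) * n1.im + (n1.im - 1) + n0.im * (-n1.re) := by
      rw [hc]
      ring
    rw [e]
    have f1 := mul_abs N0.1 hn1i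
    have f2 := mul_abs N0.2 (show |-n1.re| ≤ δ by rw [abs_neg]; exact N1.1)
    have f3 := abs_add_le ((n0.re - 1) * n1.im + (n1.im - 1)) (n0.im * (-n1.re))
    have f4 := abs_add_le ((n0.re - 1) * n1.im) (n1.im - 1)
    linarith only [hδ0, N1, f1, f2, f3, f4, mul_le_mul_of_nonneg_left hδ hδ0]
  have hcp : 0 < c := by
    have := (abs_le.mp hc1).1
    linarith only [hδ, this]
  -- the coordinates
  obtain ⟨A, hA⟩ : ∃ A : ℂ, A = (starRingEnd ℂ) n0 / w := ⟨_, rfl⟩
  obtain ⟨B, hB⟩ : ∃ B : ℂ, B = pt s c (h2 / w) (h3 / w) := ⟨_, rfl⟩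
  obtain ⟨X, hX⟩ : ∃ X : ℂ → ℝ, ∀ z, X z = (ip z n0 + h2) / w := ⟨_, fun z => rfl⟩
  obtain ⟨Y, hY⟩ : ∃ Y : ℂ → ℝ, ∀ z, Y z = (ip z n1 + h3) / w := ⟨_, fun z => rfl⟩
  have hAz : ∀ z, A * z = ⟨(n0.re * z.re + n0.im * z.im) / w, (n0.re * z.im - n0.im * z.re) / w⟩ := by
    intro z
    rw [hA, div_mul_eq_mul_div]
    apply Complex.ext
    · rw [Complex.div_ofReal_re]
      simp
    · rw [Complex.div_ofReal_im]
      simp
      ring
  have hpt : ∀ z, A * z + B = pt s c (X z) (Y z) := by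
    intro z
    rw [hAz, hB, hX, hY]
    apply Complex.ext
    · simp only [pt, add_re, ip]
      ring
    · simp only [pt, add_im, ip]
      field_simp
      have e : (n0.re * z.im - n0.im * z.re) * c = (z.re * n1.re + z.im * n1.im) +
          s * (z.re * n0.re + z.im * n0.im) := by
        rw [hs, hc]
        linear_combination (z.re * n1.re + z.im * n1.im) * nn0
      linear_combination e
  have hre : ∀ z, (A * z + B).re = X z := by
    intro z
    rw [hpt]
    rfl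
  have him : ∀ z, c * (A * z + B).im - s * (A * z + B).re = Y z := by
    intro z
    rw [hpt]
    simp only [pt]
    field_simp
    ring
  have hfun : ∀ d z, ip z d = w * ((((starRingEnd ℂ) n0 * d).re +
      s / c * ((starRingEnd ℂ) n0 * d).im) * X z + (((starRingEnd ℂ) n0 * d).im / c) * Y z) -
      w * ip B ((starRingEnd ℂ) n0 * d) := by
    intro d z
    have e1 : ip z d = w * ip (A * z) ((starRingEnd ℂ) n0 * d) := by
      rw [hAz]
      simp only [ip, mul_re, mul_im, conj_re, conj_im]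
      field_simp
      linear_combination (-(z.re * d.re + z.im * d.im)) * nn0
    have e2 : ip (A * z) ((starRingEnd ℂ) n0 * d) = ip (A * z + B) ((starRingEnd ℂ) n0 * d) -
        ip B ((starRingEnd ℂ) n0 * d) := by
      rw [ip_add_left]
      ring
    rw [e1, e2, hpt z]
    simp only [ip, pt]
    field_simp
    ring
  have hvert : ∀ (b d : ℂ), (∀ z ∈ F, ip z d ≤ ip b d) → ∀ z ∈ F,
      (((starRingEnd ℂ) n0 * d).re + s / c * ((starRingEnd ℂ) n0 * d).im) * X z +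
        (((starRingEnd ℂ) n0 * d).im / c) * Y z ≤
      (((starRingEnd ℂ) n0 * d).re + s / c * ((starRingEnd ℂ) n0 * d).im) * X b +
        (((starRingEnd ℂ) n0 * d).im / c) * Y b := by
    intro b d hb z hz
    have := hb z hz
    rw [hfun d z, hfun d b] at this
    exact le_of_mul_le_mul_left (by linarith only [this]) hwp
  have hX0 : ∀ z ∈ F, 0 ≤ X z := by
    intro z hz
    have := W2.sn z hz
    rw [← hh2, negr] at this
    rw [hX]
    exact div_nonneg (by linarith only [this]) hwp.le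
  have hX1 : ∀ z ∈ F, X z ≤ 1 := by
    intro z hz
    have := W0.sn z hz
    rw [← hh0] at this
    rw [hX, div_le_one hwp]
    linarith only [hw, this]
  have hY0 : ∀ z ∈ F, 0 ≤ Y z := by
    intro z hz
    have := W3.sn z hz
    rw [← hh3, negr] at this
    rw [hY]
    exact div_nonneg (by linarith only [this]) hwp.le
  have hY1 : ∀ z ∈ F, Y z ≤ 1 := by
    intro z hz
    have := W1.sn z hz
    rw [← hh1] at this
    rw [hY, div_le_one hwp]
    linarith only [wd, hw, this]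
  -- values at the vertices
  have xb0 : X b0 = 1 := by rw [hX, ← hh0, ← hw, div_self hwp.ne']
  have xa0 : X a0 = 1 := by rw [hX, W0.eq, ← hh0, ← hw, div_self hwp.ne']
  have yb1 : Y b1 = 1 := by rw [hY, ← hh1, ← hw', div_self hwp.ne']
  have ya1 : Y a1 = 1 := by rw [hY, W1.eq, ← hh1, ← hw', div_self hwp.ne']
  have xb2 : X b2 = 0 := by
    rw [negr] at hh2
    rw [hX, hh2]
    simp
  have xa2 : X a2 = 0 := by
    have := W2.eq
    rw [← hh2, negr] at this
    rw [hX, ← this]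
    simp
  have yb3 : Y b3 = 0 := by
    rw [negr] at hh3
    rw [hY, hh3]
    simp
  have ya3 : Y a3 = 0 := by
    have := W3.eq
    rw [← hh3, negr] at this
    rw [hY, ← this]
    simp
  -- sizes of the cuts
  have hsm : ∀ t : ℝ, |t| ≤ 4 * δ → t / w ≤ 1 / 1000 := by
    intro t ht
    rw [div_le_iff₀ hwp]
    have := (abs_le.mp ht).2
    linarith only [hδ, hw0, this]
  have dX : ∀ z z' : ℂ, |z.re - z'.re| ≤ 2 * δ → |z.im - z'.im| ≤ 1 + 2 * δ →
      X z - X z' ≤ 1 / 1000 := by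
    intro z z' k1 k2
    have e : X z - X z' = ip (z - z') n0 / w := by
      rw [hX, hX, ip_sub_left]
      ring
    rw [e]
    exact hsm _ (ip_small hδ0 hδ (by rwa [sub_re]) (by rwa [sub_im]) hn0r N0.2)
  have dY : ∀ z z' : ℂ, |z.re - z'.re| ≤ 1 + 2 * δ → |z.im - z'.im| ≤ 2 * δ →
      Y z - Y z' ≤ 1 / 1000 := by
    intro z z' k1 k2
    have e : Y z - Y z' = ip (z - z') n1 / w := by
      rw [hY, hY, ip_sub_left]
      ring
    rw [e]
    exact hsm _ (ip_small' hδ0 hδ (by rwa [sub_re]) (by rwa [sub_im]) N1.1 hn1i)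
  have ab : ∀ x y a b : ℝ, |x - a| ≤ δ → |y - b| ≤ δ → |x - y| ≤ |a - b| + 2 * δ := by
    intro x y a b k1 k2
    have f1 := abs_add_le ((x - a) + (a - b)) (b - y)
    have f2 := abs_add_le (x - a) (a - b)
    have f3 : |b - y| = |y - b| := abs_sub_comm _ _
    have e : (x - a) + (a - b) + (b - y) = x - y := by ring
    rw [e] at f1
    linarith only [k1, k2, f1, f2, f3]
  -- the eight cuts
  have q1 : 1 - X a1 ≤ 1 / 1000 := by
    have := dX b0 a1 (by
      have := ab _ _ _ _ B0.1 A1.1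
      norm_num at this
      exact this) (by
      have := ab _ _ _ _ B0.2 A1.2
      norm_num at this
      linarith only [this])
    rwa [xb0] at this
  have q2 : 1 - Y b0 ≤ 1 / 1000 := by
    have := dY b1 b0 (by
      have := ab (b1.re) (b0.re) (-1 / 2) (1 / 2) (by
        have := B1.1
        rwa [show b1.re - -1 / 2 = b1.re + 1 / 2 by ring]) B0.1
      norm_num at this
      exact this) (by
      have := ab _ _ _ _ B1.2 B0.2
      norm_num at this
      exact this)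
    rwa [yb1] at this
  have u1 : X b1 ≤ 1 / 1000 := by
    have := dX b1 b2 (by
      have := ab (b1.re) (b2.re) (-1 / 2) (-1 / 2) (by
        have := B1.1
        rwa [show b1.re - -1 / 2 = b1.re + 1 / 2 by ring]) (by
        have := B2.1
        rwa [show b2.re - -1 / 2 = b2.re + 1 / 2 by ring])
      norm_num at this
      exact this) (by
      have := ab (b1.im) (b2.im) (1 / 2) (-1 / 2) B1.2 (by
        have := B2.2
        rwa [show b2.im - -1 / 2 = b2.im + 1 / 2 by ring])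
      norm_num at this
      exact this)
    rwa [xb2, sub_zero] at this
  have u2 : 1 - Y a2 ≤ 1 / 1000 := by
    have := dY b1 a2 (by
      have := ab (b1.re) (a2.re) (-1 / 2) (-1 / 2) (by
        have := B1.1
        rwa [show b1.re - -1 / 2 = b1.re + 1 / 2 by ring]) (by
        have := A2.1
        rwa [show a2.re - -1 / 2 = a2.re + 1 / 2 by ring])
      norm_num at this
      linarith only [this]) (by
      have := ab _ _ _ _ B1.2 A2.2
      norm_num at this
      exact this)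
    rwa [yb1] at this
  have p1 : X a3 ≤ 1 / 1000 := by
    have := dX a3 b2 (by
      have := ab (a3.re) (b2.re) (-1 / 2) (-1 / 2) (by
        have := A3.1
        rwa [show a3.re - -1 / 2 = a3.re + 1 / 2 by ring]) (by
        have := B2.1
        rwa [show b2.re - -1 / 2 = b2.re + 1 / 2 by ring])
      norm_num at this
      exact this) (by
      have := ab (a3.im) (b2.im) (-1 / 2) (-1 / 2) (by
        have := A3.2
        rwa [show a3.im - -1 / 2 = a3.im + 1 / 2 by ring]) (by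
        have := B2.2
        rwa [show b2.im - -1 / 2 = b2.im + 1 / 2 by ring])
      norm_num at this
      linarith only [this])
    rwa [xb2, sub_zero] at this
  have p2 : Y b2 ≤ 1 / 1000 := by
    have := dY b2 b3 (by
      have := ab (b2.re) (b3.re) (-1 / 2) (1 / 2) (by
        have := B2.1
        rwa [show b2.re - -1 / 2 = b2.re + 1 / 2 by ring]) B3.1
      norm_num at this
      exact this) (by
      have := ab (b2.im) (b3.im) (-1 / 2) (-1 / 2) (by
        have := B2.2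
        rwa [show b2.im - -1 / 2 = b2.im + 1 / 2 by ring]) (by
        have := B3.2
        rwa [show b3.im - -1 / 2 = b3.im + 1 / 2 by ring])
      norm_num at this
      exact this)
    rwa [yb3, sub_zero] at this
  have v1 : 1 - X b3 ≤ 1 / 1000 := by
    have := dX b0 b3 (by
      have := ab _ _ _ _ B0.1 B3.1
      norm_num at this
      exact this) (by
      have := ab (b0.im) (b3.im) (1 / 2) (-1 / 2) B0.2 (by
        have := B3.2
        rwa [show b3.im - -1 / 2 = b3.im + 1 / 2 by ring])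
      norm_num at this
      exact this)
    rwa [xb0] at this
  have v2 : Y a0 ≤ 1 / 1000 := by
    have := dY a0 b3 (by
      have := ab _ _ _ _ A0.1 B3.1
      norm_num at this
      linarith only [this]) (by
      have := ab (a0.im) (b3.im) (-1 / 2) (-1 / 2) (by
        have := A0.2
        rwa [show a0.im - -1 / 2 = a0.im + 1 / 2 by ring]) (by
        have := B3.2
        rwa [show b3.im - -1 / 2 = b3.im + 1 / 2 by ring])
      norm_num at this
      exact this)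
    rwa [yb3, sub_zero] at this
  -- the corner functionals
  have C1 : ∀ (d : ℂ) (σ₁ σ₂ : ℝ), |σ₁| = 1 → |σ₂| = 1 → ‖d - (σ₁ + σ₂ * I)‖ ≤ δ →
      |((starRingEnd ℂ) n0 * d).re + s / c * ((starRingEnd ℂ) n0 * d).im - σ₁| ≤ 1 / 1000 ∧
      |((starRingEnd ℂ) n0 * d).im / c - σ₂| ≤ 1 / 1000 := fun d σ₁ σ₂ k1 k2 k3 =>
    coef hδ0 hδ W0.hn hs1 hc1 k1 k2 k3
  have hA0 : A ≠ 0 := by
    rw [hA]
    apply div_ne_zero _ hwc
    intro h
    have : n0 = 0 := by simpa using h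
    rw [this] at nn0
    simp at nn0
  have hcut : ∀ (b d : ℂ) (σ₁ σ₂ : ℝ), b ∈ F → (∀ z ∈ F, ip z d ≤ ip b d) → |σ₁| = 1 → |σ₂| = 1 →
      ‖d - (σ₁ + σ₂ * I)‖ ≤ δ → ∃ α β : ℝ, |α - 1| ≤ 1 / 1000 ∧ |β - 1| ≤ 1 / 1000 ∧
      ∀ z ∈ F, α * (σ₁ * X z) + β * (σ₂ * Y z) ≤ α * (σ₁ * X b) + β * (σ₂ * Y b) := by
    intro b d σ₁ σ₂ hb k1 k2 k3 k4
    obtain ⟨r1, r2⟩ := C1 d σ₁ σ₂ k2 k3 k4
    have r3 := hvert b d k1
    obtain ⟨α, hα⟩ : ∃ α : ℝ, α = ((starRingEnd ℂ) n0 * d).re + s / c * ((starRingEnd ℂ) n0 * d).im :=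
      ⟨_, rfl⟩
    obtain ⟨β, hβ⟩ : ∃ β : ℝ, β = ((starRingEnd ℂ) n0 * d).im / c := ⟨_, rfl⟩
    rw [← hα] at r1
    rw [← hβ] at r2
    simp only [← hα, ← hβ] at r3
    have s1 : σ₁ * σ₁ = 1 := by rw [← abs_mul_abs_self σ₁, k2]; ring
    have s2 : σ₂ * σ₂ = 1 := by rw [← abs_mul_abs_self σ₂, k3]; ring
    refine ⟨σ₁ * α, σ₂ * β, ?_, ?_, ?_⟩
    · have e : σ₁ * α - 1 = σ₁ * (α - σ₁) := by rw [mul_sub, s1]
      rw [e, abs_mul, k2, one_mul]
      exact r1
    · have e : σ₂ * β - 1 = σ₂ * (β - σ₂) := by rw [mul_sub, s2]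
      rw [e, abs_mul, k3, one_mul]
      exact r2
    · intro z hz
      have := r3 z hz
      have e1 : ∀ x y : ℝ, σ₁ * α * (σ₁ * x) + σ₂ * β * (σ₂ * y) = α * x + β * y := by
        intro x y
        linear_combination (α * x) * s1 + (β * y) * s2
      rw [e1, e1]
      exact this
  refine ⟨A, B, s, c, max (X a3) (Y b2), max (1 - X a1) (1 - Y b0), max (X b1) (1 - Y a2),
    max (1 - X b3) (Y a0), hA0, ?_, by linarith only [hδ, hs1], max_le p1 p2, max_le q1 q2, max_le u1 u2,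
    max_le v1 v2⟩
  have himg : ∀ z ∈ (fun z => A * z + B) '' F, ∃ x ∈ F, z.re = X x ∧ c * z.im - s * z.re = Y x := by
    rintro _ ⟨x, hx, rfl⟩
    exact ⟨x, hx, hre x, him x⟩
  have hmem : ∀ x ∈ F, pt s c (X x) (Y x) ∈ (fun z => A * z + B) '' F := by
    intro x hx
    exact ⟨x, hx, hpt x⟩
  obtain ⟨α1, β1, k11, k12, k13⟩ := hcut a3 c3 (-1) (-1) W3.ma W3.sc (by simp) (by simp) (by
    have := W3.hc
    rwa [show -I * (1 - I) = ((-1 : ℝ) : ℂ) + ((-1 : ℝ) : ℂ) * I by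
      push_cast
      linear_combination Complex.I_mul_I] at this)
  obtain ⟨α2, β2, k21, k22, k23⟩ := hcut b2 d2 (-1) (-1) W2.mb W2.sd (by simp) (by simp) (by
    have := W2.hd
    rwa [show -1 * (1 + I) = ((-1 : ℝ) : ℂ) + ((-1 : ℝ) : ℂ) * I by
      push_cast
      ring] at this)
  obtain ⟨α3, β3, k31, k32, k33⟩ := hcut b0 d0 1 1 W0.mb W0.sd (by simp) (by simp) (by
    have := W0.hd
    rwa [show 1 * (1 + I) = ((1 : ℝ) : ℂ) + ((1 : ℝ) : ℂ) * I by
      push_cast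
      ring] at this)
  obtain ⟨α4, β4, k41, k42, k43⟩ := hcut a1 c1 1 1 W1.ma W1.sc (by simp) (by simp) (by
    have := W1.hc
    rwa [show I * (1 - I) = ((1 : ℝ) : ℂ) + ((1 : ℝ) : ℂ) * I by
      push_cast
      linear_combination -Complex.I_mul_I] at this)
  obtain ⟨α5, β5, k51, k52, k53⟩ := hcut b1 d1 (-1) 1 W1.mb W1.sd (by simp) (by simp) (by
    have := W1.hd
    rwa [show I * (1 + I) = ((-1 : ℝ) : ℂ) + ((1 : ℝ) : ℂ) * I by
      push_cast
      linear_combination Complex.I_mul_I] at this)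
  obtain ⟨α6, β6, k61, k62, k63⟩ := hcut a2 c2 (-1) 1 W2.ma W2.sc (by simp) (by simp) (by
    have := W2.hc
    rwa [show -1 * (1 - I) = ((-1 : ℝ) : ℂ) + ((1 : ℝ) : ℂ) * I by
      push_cast
      ring] at this)
  obtain ⟨α7, β7, k71, k72, k73⟩ := hcut b3 d3 1 (-1) W3.mb W3.sd (by simp) (by simp) (by
    have := W3.hd
    rwa [show -I * (1 + I) = ((1 : ℝ) : ℂ) + ((-1 : ℝ) : ℂ) * I by
      push_cast
      linear_combination -Complex.I_mul_I] at this)
  obtain ⟨α8, β8, k81, k82, k83⟩ := hcut a0 c0 1 (-1) W0.ma W0.sc (by simp) (by simp) (by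
    have := W0.hc
    rwa [show 1 * (1 - I) = ((1 : ℝ) : ℂ) + ((-1 : ℝ) : ℂ) * I by
      push_cast
      ring] at this)
  refine ⟨fig_sim hF hA0 B, hcs, hcp, ?_, ?_, ?_, ?_, ?_, ?_, ?_, ?_, ?_, ?_, ?_, ?_, ?_⟩
  · intro z hz
    obtain ⟨x, hx, e1, e2⟩ := himg z hz
    rw [e2, e1]
    exact ⟨hX0 x hx, hX1 x hx, hY0 x hx, hY1 x hx⟩
  · intro z hz
    obtain ⟨x, hx, e1, e2⟩ := himg z hz
    rw [e2, e1]
    have f1 := k13 x hx
    have f2 := k23 x hx
    rw [ya3] at f1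
    rw [xb2] at f2
    rcases le_total (X a3) (Y b2) with h | h
    · rw [max_eq_right h]
      exact cut_bd k21 k22 (hX0 x hx) (hY0 x hx) (hY0 _ W2.mb) (by linarith only [f2])
    · rw [max_eq_left h]
      have := cut_bd k12 k11 (hY0 x hx) (hX0 x hx) (hX0 _ W3.ma) (by linarith only [f1])
      linarith only [this]
  · intro z hz
    obtain ⟨x, hx, e1, e2⟩ := himg z hz
    rw [e2, e1]
    have f1 := k33 x hx
    have f2 := k43 x hx
    rw [xb0] at f1
    rw [ya1] at f2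
    have g1 := hX1 x hx
    have g2 := hY1 x hx
    rcases le_total (1 - X a1) (1 - Y b0) with h | h
    · rw [max_eq_right h]
      exact cut_bd k31 k32 (by linarith only [g1]) (by linarith only [g2]) (by linarith only [hY1 _ W0.mb]) (by linarith only [f1])
    · rw [max_eq_left h]
      have := cut_bd k42 k41 (X := 1 - Y x) (Y := 1 - X x) (t := 1 - X a1) (by linarith only [g2])
        (by linarith only [g1]) (by linarith only [hX1 _ W1.ma]) (by linarith only [f2])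
      linarith only [this]
  · intro z hz
    obtain ⟨x, hx, e1, e2⟩ := himg z hz
    rw [e2, e1]
    have f1 := k53 x hx
    have f2 := k63 x hx
    rw [yb1] at f1
    rw [xa2] at f2
    have g1 := hX0 x hx
    have g2 := hY1 x hx
    rcases le_total (X b1) (1 - Y a2) with h | h
    · rw [max_eq_right h]
      exact cut_bd k61 k62 (by linarith only [g1]) (by linarith only [g2]) (by linarith only [hY1 _ W2.ma]) (by linarith only [f2])
    · rw [max_eq_left h]
      have := cut_bd k52 k51 (X := 1 - Y x) (Y := X x) (t := X b1) (by linarith only [g2])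
        (by linarith only [g1]) (hX0 _ W1.mb) (by linarith only [f1])
      linarith only [this]
  · intro z hz
    obtain ⟨x, hx, e1, e2⟩ := himg z hz
    rw [e2, e1]
    have f1 := k73 x hx
    have f2 := k83 x hx
    rw [yb3] at f1
    rw [xa0] at f2
    have g1 := hX1 x hx
    have g2 := hY0 x hx
    rcases le_total (1 - X b3) (Y a0) with h | h
    · rw [max_eq_right h]
      exact cut_bd k81 k82 (by linarith only [g1]) (by linarith only [g2]) (hY0 _ W0.ma) (by linarith only [f2])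
    · rw [max_eq_left h]
      have := cut_bd k72 k71 (X := Y x) (Y := 1 - X x) (t := 1 - X b3) (by linarith only [g2])
        (by linarith only [g1]) (by linarith only [hX1 _ W3.mb]) (by linarith only [f1])
      linarith only [this]
  · refine ⟨X a3, hX0 _ W3.ma, le_max_left _ _, ?_⟩
    have := hmem a3 W3.ma
    rwa [ya3] at this
  · refine ⟨Y b2, hY0 _ W2.mb, le_max_right _ _, ?_⟩
    have := hmem b2 W2.mb
    rwa [xb2] at this
  · refine ⟨1 - X a1, by linarith only [hX1 _ W1.ma], le_max_left _ _, ?_⟩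
    have := hmem a1 W1.ma
    rw [ya1] at this
    rwa [sub_sub_cancel]
  · refine ⟨1 - Y b0, by linarith only [hY1 _ W0.mb], le_max_right _ _, ?_⟩
    have := hmem b0 W0.mb
    rw [xb0] at this
    rwa [sub_sub_cancel]
  · refine ⟨X b1, hX0 _ W1.mb, le_max_left _ _, ?_⟩
    have := hmem b1 W1.mb
    rwa [yb1] at this
  · refine ⟨1 - Y a2, by linarith only [hY1 _ W2.ma], le_max_right _ _, ?_⟩
    have := hmem a2 W2.ma
    rw [xa2] at this
    rwa [sub_sub_cancel]
  · refine ⟨1 - X b3, by linarith only [hX1 _ W3.mb], le_max_left _ _, ?_⟩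
    have := hmem b3 W3.mb
    rw [yb3] at this
    rwa [sub_sub_cancel]
  · refine ⟨Y a0, hY0 _ W0.ma, le_max_right _ _, ?_⟩
    have := hmem a0 W0.ma
    rwa [xa0] at this

end Pool.Agent.H84.Sq
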