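import Pool.Agent.H84.Sq.Defs

set_option autoImplicit false

/-!
# The two widths agree
-/

namespace Pool.Agent.H84.Sq

open Pool.Agent.H90.Clone Pool.Agent.H21.Tri Pool.Agent.H50.CP Complex Set Pointwise MeasureTheory

private lemma RectX_abs (x y : ℂ) : |ip x y| ≤ ‖x‖ * ‖y‖ := by
  have h7 := Complex.abs_re_le_norm (x * (starRingEnd ℂ) y)
  rw [norm_mul, Complex.norm_conj] at h7
  have h8 : (x * (starRingEnd ℂ) y).re = ip x y := by
    simp [ip]
  rwa [h8] at h7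

private lemma RectX_re (n z : ℂ) : ((starRingEnd ℂ) n * z).re = ip z n := by
  simp only [ip, mul_re, conj_re, conj_im]
  ring

private lemma RectX_imI (n z : ℂ) : ((starRingEnd ℂ) n * z).im = ip z (I * n) := by
  simp only [ip, mul_re, mul_im, conj_re, conj_im, I_re, I_im]
  ring

private lemma RectX_rot {n : ℂ} (hn : ‖n‖ = 1) (z v : ℂ) :
    ip ((starRingEnd ℂ) n * z) ((starRingEnd ℂ) n * v) = ip z v := by
  have h1 := ip_self_one hn
  simp only [ip, mul_re, mul_im, conj_re, conj_im]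
  linear_combination (z.re * v.re + z.im * v.im) * h1

private lemma RectX_near {e n b p : ℂ} {δ : ℝ} (he : ‖e‖ = 1) (hn1 : ‖n‖ = 1)
    (hn : ‖n - e‖ ≤ δ) (hp : ‖p‖ ≤ 1) (hb : ‖b - e * p‖ ≤ δ) :
    ‖(starRingEnd ℂ) n * b - p‖ ≤ 2 * δ := by
  have h1 : (starRingEnd ℂ) e * e = 1 := by
    rw [mul_comm, Complex.mul_conj, Complex.normSq_eq_norm_sq, he]
    norm_num
  have h2 : (starRingEnd ℂ) n * b - p =
      (starRingEnd ℂ) n * (b - e * p) + (starRingEnd ℂ) (n - e) * (e * p) := by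
    rw [map_sub]
    linear_combination p * h1
  have hδ : 0 ≤ δ := (norm_nonneg _).trans hn
  rw [h2]
  refine (norm_add_le _ _).trans ?_
  rw [norm_mul, norm_mul, norm_mul, Complex.norm_conj, Complex.norm_conj, hn1, he, one_mul, one_mul]
  have : ‖n - e‖ * ‖p‖ ≤ δ * 1 := mul_le_mul hn hp (norm_nonneg _) hδ
  linarith

private lemma RectX_ver {F : Set ℂ} (hF : Convex ℝ F) {p q : ℂ} (hp : p ∈ F) (hq : q ∈ F)
    {y : ℝ} (e : p.re = q.re) (h1 : p.im ≤ y) (h2 : y ≤ q.im) (hpq : p.im < q.im) :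
    (⟨q.re, y⟩ : ℂ) ∈ F := by
  have hd : 0 < q.im - p.im := by linarith
  obtain ⟨t, ht⟩ : ∃ t : ℝ, t * (q.im - p.im) = y - p.im := ⟨(y - p.im) / (q.im - p.im),
    div_mul_cancel₀ _ hd.ne'⟩
  have ht0 : 0 ≤ t := by
    by_contra hc
    push Not at hc
    have := mul_neg_of_neg_of_pos hc hd
    linarith
  have ht1 : t ≤ 1 := by
    by_contra hc
    push Not at hc
    have := mul_lt_mul_of_pos_right hc hd
    linarith
  have h3 := hF hp hq (sub_nonneg.mpr ht1) ht0 (by ring)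
  have h4 : (1 - t) • p + t • q = (⟨q.re, y⟩ : ℂ) := by
    apply Complex.ext
    · simp only [add_re, real_smul, mul_re, ofReal_re, ofReal_im, zero_mul, sub_zero]
      rw [e]
      ring
    · simp only [add_im, real_smul, mul_im, ofReal_re, ofReal_im, zero_mul, add_zero]
      linear_combination ht
  rwa [h4] at h3

private lemma RectX_hor {F : Set ℂ} (hF : Convex ℝ F) {p q x y : ℝ} (hp : (⟨p, y⟩ : ℂ) ∈ F)
    (hq : (⟨q, y⟩ : ℂ) ∈ F) (h1 : p ≤ x) (h2 : x ≤ q) (hpq : p < q) : (⟨x, y⟩ : ℂ) ∈ F := by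
  have hd : 0 < q - p := by linarith
  obtain ⟨t, ht⟩ : ∃ t : ℝ, t * (q - p) = x - p := ⟨(x - p) / (q - p),
    div_mul_cancel₀ _ hd.ne'⟩
  have ht0 : 0 ≤ t := by
    by_contra hc
    push Not at hc
    have := mul_neg_of_neg_of_pos hc hd
    linarith
  have ht1 : t ≤ 1 := by
    by_contra hc
    push Not at hc
    have := mul_lt_mul_of_pos_right hc hd
    linarith
  have h3 := hF hp hq (sub_nonneg.mpr ht1) ht0 (by ring)
  have h4 : (1 - t) • (⟨p, y⟩ : ℂ) + t • (⟨q, y⟩ : ℂ) = (⟨x, y⟩ : ℂ) := by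
    apply Complex.ext
    · simp only [add_re, real_smul, mul_re, ofReal_re, ofReal_im, zero_mul, sub_zero]
      linear_combination ht
    · simp only [add_im, real_smul, mul_im, ofReal_re, ofReal_im, zero_mul, add_zero]
      ring
  rwa [h4] at h3

theorem rect_two {F : Set ℂ} {m : ℂ} (hm : ‖m‖ = 1) {β β' L h h' K : ℝ}
    (h1 : ∀ z ∈ F, -β' ≤ ip z m ∧ ip z m ≤ β) (h2 : ∀ z ∈ F, |ip z (I * m)| ≤ L)
    (h3 : ∀ z : ℂ, -h' ≤ z.re → z.re ≤ h → |z.im| ≤ K → z ∈ F) (hβ : 0 < β + β')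
    (hw : β + β' < h + h') (hK : (h + h') / (2 * (β + β')) * L ≤ K) : Two F := by
  obtain ⟨l, hl⟩ : ∃ l : ℝ, l = (h + h') / (2 * (β + β')) := ⟨_, rfl⟩
  rw [← hl] at hK
  have hlm : l * (2 * (β + β')) = h + h' := by
    rw [hl]
    exact div_mul_cancel₀ _ (by positivity)
  have hl1 : 1 / 2 < l := by
    rw [hl, lt_div_iff₀ (by positivity)]
    linarith
  have hl0 : 0 < l := by linarith
  have hcm : ‖(starRingEnd ℂ) m‖ = 1 := by rw [Complex.norm_conj, hm]
  have ere : ∀ (z : ℂ) (t : ℝ), (rot ((starRingEnd ℂ) m) (t : ℂ) hcm ((l : ℂ) * z)).re =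
      l * ip z m + t := by
    intro z t
    rw [rot_apply]
    simp [ip]
    ring
  have eim : ∀ (z : ℂ) (t : ℝ), (rot ((starRingEnd ℂ) m) (t : ℂ) hcm ((l : ℂ) * z)).im =
      l * ip z (I * m) := by
    intro z t
    rw [rot_apply]
    simp [ip]
    ring
  have eip : ∀ z : ℂ, ip z 1 = z.re := by
    intro z
    simp [ip]
  have him : ∀ z ∈ F, ∀ t : ℝ, |(rot ((starRingEnd ℂ) m) (t : ℂ) hcm ((l : ℂ) * z)).im| ≤ K := by
    intro z hz t
    rw [eim, abs_mul, abs_of_pos hl0]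
    exact (mul_le_mul_of_nonneg_left (h2 z hz) hl0.le).trans hK
  have hb : ∀ z ∈ F, -(l * β') ≤ l * ip z m ∧ l * ip z m ≤ l * β := by
    intro z hz
    obtain ⟨k1, k2⟩ := h1 z hz
    have e1 := mul_le_mul_of_nonneg_left k1 hl0.le
    have e2 := mul_le_mul_of_nonneg_left k2 hl0.le
    exact ⟨by linarith, e2⟩
  refine two_mk hl1 (rot ((starRingEnd ℂ) m) ((-h' + l * β' : ℝ) : ℂ) hcm)
    (rot ((starRingEnd ℂ) m) ((h - l * β : ℝ) : ℂ) hcm) one_ne_zero (-h' + l * (β + β'))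
    ?_ ?_ ?_ ?_
  · intro z hz
    obtain ⟨k1, k2⟩ := hb z hz
    apply h3 _ _ _ (him z hz _)
    · rw [ere]
      linarith
    · rw [ere]
      have : 0 ≤ l * (β + β') := by positivity
      linarith
  · intro z hz
    obtain ⟨k1, k2⟩ := hb z hz
    apply h3 _ _ _ (him z hz _)
    · rw [ere]
      have : 0 ≤ l * (β + β') := by positivity
      linarith
    · rw [ere]
      linarith
  · intro z hz
    obtain ⟨k1, k2⟩ := hb z hz
    rw [eip, ere]
    linarith
  · intro z hz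
    obtain ⟨k1, k2⟩ := hb z hz
    rw [eip, ere]
    linarith

theorem width_le {F : Set ℂ} (hF : IsConvexFigure F) (h2 : ¬ Two F) {e : ℂ} (he : ‖e‖ = 1)
    {δ : ℝ} (hδ : δ ≤ 1 / 1000) (hb : ∀ z ∈ F, |ip z e| ≤ 1 / 2 + δ ∧ |ip z (I * e)| ≤ 1 / 2 + δ)
    {n a b c d a' b' c' d' m : ℂ} (W : Wall F e n a b c d δ)
    (W' : Wall F (-e) (-n) a' b' c' d' δ) (hm : ‖m‖ = 1) (hme : ‖m - I * e‖ ≤ δ) {β β' : ℝ}
    (hs : ∀ z ∈ F, -β' ≤ ip z m ∧ ip z m ≤ β) : ip b n + ip b' (-n) ≤ β + β' := by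
  have hδ0 : 0 ≤ δ := (norm_nonneg _).trans W.hn
  by_contra hcon
  push Not at hcon
  have hw1 : ‖(starRingEnd ℂ) n‖ = 1 := by
    rw [Complex.norm_conj]
    exact W.n1
  have hne : ‖-e‖ = 1 := by rw [norm_neg, he]
  have hp1 : ‖(1 / 2 + I / 2 : ℂ)‖ ≤ 1 := by
    refine (norm_add_le _ _).trans ?_
    rw [norm_div, norm_div, norm_one, Complex.norm_I]
    norm_num
  have hp2 : ‖(1 / 2 - I / 2 : ℂ)‖ ≤ 1 := by
    refine (norm_sub_le _ _).trans ?_
    rw [norm_div, norm_div, norm_one, Complex.norm_I]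
    norm_num
  have r1 : (1 / 2 + I / 2 : ℂ).re = 1 / 2 := by simp
  have i1 : (1 / 2 + I / 2 : ℂ).im = 1 / 2 := by simp
  have i2 : (1 / 2 - I / 2 : ℂ).im = -(1 / 2) := by simp
  have nb := RectX_near he W.n1 W.hn hp1 W.hb
  have na := RectX_near he W.n1 W.hn hp2 W.ha
  have nb' := RectX_near hne W'.n1 W'.hn hp1 W'.hb
  have na' := RectX_near hne W'.n1 W'.hn hp2 W'.ha
  have hbre := (Complex.abs_re_le_norm _).trans nb
  have hbim := (Complex.abs_im_le_norm _).trans nb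
  have haim := (Complex.abs_im_le_norm _).trans na
  have hbre' := (Complex.abs_re_le_norm _).trans nb'
  have hbim' := (Complex.abs_im_le_norm _).trans nb'
  have haim' := (Complex.abs_im_le_norm _).trans na'
  rw [sub_re, r1, RectX_re] at hbre hbre'
  rw [sub_im, i1, map_neg, neg_mul, neg_im] at hbim'
  rw [sub_im, i1] at hbim
  rw [sub_im, i2, map_neg, neg_mul, neg_im] at haim'
  rw [sub_im, i2] at haim
  obtain ⟨s1, s2⟩ := abs_le.mp hbre
  obtain ⟨s3, s4⟩ := abs_le.mp hbre'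
  obtain ⟨s5, s6⟩ := abs_le.mp hbim
  obtain ⟨s7, s8⟩ := abs_le.mp hbim'
  obtain ⟨s9, s10⟩ := abs_le.mp haim
  obtain ⟨s11, s12⟩ := abs_le.mp haim'
  -- the width in the direction `m`
  have hwm : 1 - 3 * δ ≤ β + β' := by
    have k1 := (hs b W.mb).2
    have k2 := (hs a W.ma).1
    have k3 : ip b m - ip a m = 1 + ip (I * e) (m - I * e) + ip ((b - e * (1 / 2 + I / 2)) -
        (a - e * (1 / 2 - I / 2))) m := by
      have h1 := ip_self_one he
      simp only [ip, sub_re, sub_im, mul_re, mul_im, I_re, I_im, r1, i1, i2]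
      have r2 : (1 / 2 - I / 2 : ℂ).re = 1 / 2 := by simp
      have t1 : (1 / 2 : ℂ).re = 1 / 2 := by norm_num
      have t2 : (1 / 2 : ℂ).im = 0 := by norm_num
      have t3 : (I / 2 : ℂ).re = 0 := by simp
      have t4 : (I / 2 : ℂ).im = 1 / 2 := by simp
      rw [t1, t3]
      linear_combination h1
    have k4 := (abs_le.mp (RectX_abs (I * e) (m - I * e))).1
    have k5 := (abs_le.mp (RectX_abs ((b - e * (1 / 2 + I / 2)) - (a - e * (1 / 2 - I / 2))) m)).1
    rw [norm_mul, Complex.norm_I, he, one_mul, one_mul] at k4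
    rw [hm, mul_one] at k5
    have k6 := norm_sub_le (b - e * (1 / 2 + I / 2)) (a - e * (1 / 2 - I / 2))
    have k7 := W.ha
    have k8 := W.hb
    linarith
  have hg : ∀ z, rot ((starRingEnd ℂ) n) 0 hw1 z = (starRingEnd ℂ) n * z := by
    intro z
    rw [rot_apply, add_zero]
  have mem : ∀ z ∈ F, (starRingEnd ℂ) n * z ∈ rot ((starRingEnd ℂ) n) 0 hw1 '' F :=
    fun z hz => ⟨z, hz, hg z⟩
  have hC : Convex ℝ (rot ((starRingEnd ℂ) n) 0 hw1 '' F) := (fig_image hF _).2.1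
  apply h2
  apply two_image hF (rot ((starRingEnd ℂ) n) 0 hw1)
  refine rect_two (m := (starRingEnd ℂ) n * m) (β := β) (β' := β') (L := 51 / 100)
    (h := ip b n) (h' := ip b' (-n)) (K := 49 / 100) (by rw [norm_mul, hw1, hm, one_mul])
    ?_ ?_ ?_ (by linarith) hcon ?_
  · rintro _ ⟨z, hz, rfl⟩
    rw [hg, RectX_rot W.n1]
    exact hs z hz
  · rintro _ ⟨z, hz, rfl⟩
    rw [hg, show I * ((starRingEnd ℂ) n * m) = (starRingEnd ℂ) n * (I * m) by ring,
      RectX_rot W.n1]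
    obtain ⟨z1, z2⟩ := hb z hz
    have hz1 : ‖z‖ ≤ 1 := by
      have q1 : ‖(starRingEnd ℂ) e * z‖ = ‖z‖ := by
        rw [norm_mul, Complex.norm_conj, he, one_mul]
      have q2 : ‖(starRingEnd ℂ) e * z‖ ^ 2 = (ip z e) ^ 2 + (ip z (I * e)) ^ 2 := by
        rw [← Complex.normSq_eq_norm_sq, Complex.normSq_apply, RectX_re, RectX_imI]
        ring
      rw [← q1]
      have q3 : (ip z e) ^ 2 ≤ (1 / 2 + δ) ^ 2 := by
        rw [← sq_abs]
        exact pow_le_pow_left₀ (abs_nonneg _) z1 2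
      have q4 : (ip z (I * e)) ^ 2 ≤ (1 / 2 + δ) ^ 2 := by
        rw [← sq_abs]
        exact pow_le_pow_left₀ (abs_nonneg _) z2 2
      have q5 : ‖(starRingEnd ℂ) e * z‖ ^ 2 ≤ 1 := by
        rw [q2]
        nlinarith
      nlinarith [norm_nonneg ((starRingEnd ℂ) e * z)]
    have q6 : ip z (I * m) = -ip z e + ip z (I * (m - I * e)) := by
      simp only [ip, sub_re, sub_im, mul_re, mul_im, I_re, I_im]
      ring
    have q7 := RectX_abs z (I * (m - I * e))
    rw [norm_mul, Complex.norm_I, one_mul] at q7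
    have q8 : ‖z‖ * ‖m - I * e‖ ≤ 1 * δ := mul_le_mul hz1 hme (norm_nonneg _) zero_le_one
    rw [q6]
    refine (abs_add_le _ _).trans ?_
    rw [abs_neg]
    linarith
  · intro z z1 z2 z3
    obtain ⟨y1, y2⟩ := abs_le.mp z3
    have hneg : ip b' (-n) = -ip b' n := by
      simp [ip]
      ring
    have hneg' : ip a' (-n) = -ip a' n := by
      simp [ip]
      ring
    have g1 := RectX_ver hC (mem _ W.ma) (mem _ W.mb) (y := z.im)
      (by rw [RectX_re, RectX_re, W.eq]) (by linarith) (by linarith) (by linarith)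
    have g2 := RectX_ver hC (mem _ W'.mb) (mem _ W'.ma) (y := z.im)
      (by
        have := W'.eq
        rw [hneg, hneg'] at this
        rw [RectX_re, RectX_re]
        linarith) (by linarith) (by linarith) (by linarith)
    rw [RectX_re] at g1 g2
    have e1 := W'.eq
    rw [hneg, hneg'] at e1
    rw [hneg] at z1 s3
    exact RectX_hor hC g2 g1 (by linarith) z2 (by linarith)
  · have h5 : ip b n + ip b' (-n) ≤ 1 + 4 * δ := by linarith
    rw [div_mul_eq_mul_div, div_le_iff₀ (by linarith)]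
    linarith

end Pool.Agent.H84.Sq
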