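import Pool.Agent.H84.Sq.Defs

set_option autoImplicit false

/-!
# The right wall of a near-square without `Two`
-/

namespace Pool.Agent.H84.Sq

open Pool.Agent.H90.Clone Pool.Agent.H21.Tri Pool.Agent.H50.CP Complex Set Pointwise MeasureTheory

private lemma WallX_sum {x y r : ℝ} (h : x ^ 2 + y ^ 2 = 1) (hr : r ≤ 1 / 1000) (hx : -r ≤ x)
    (hy : -r ≤ y) : 1 / 2 ≤ x + y := by
  by_contra hc
  push Not at hc
  have hx1 : x ≤ 51 / 100 := by linarith only [hr, hy, hc]
  have hy1 : y ≤ 51 / 100 := by linarith only [hr, hx, hc]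
  have hx2 : x ^ 2 ≤ 27 / 100 := by
    have : |x| ≤ 51 / 100 := abs_le.mpr ⟨by linarith only [hr, hx], hx1⟩
    have h3 := pow_le_pow_left₀ (abs_nonneg x) this 2
    rw [sq_abs] at h3
    linarith only [h3]
  have hy2 : y ^ 2 ≤ 27 / 100 := by
    have : |y| ≤ 51 / 100 := abs_le.mpr ⟨by linarith only [hr, hy], hy1⟩
    have h3 := pow_le_pow_left₀ (abs_nonneg y) this 2
    rw [sq_abs] at h3
    linarith only [h3]
  linarith only [h, hx2, hy2]

/-- the vertex at the upper end of the right wall -/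
private lemma WallX_vert {F : Set ℂ} {ε ρ : ℝ} (hN : Near F ε) (h2 : ¬ Two F) (hρ0 : 0 < ρ)
    (hρ1 : ρ ≤ 1 / 10) (hε0 : 0 ≤ ε) (hε : ε ≤ ρ / 1000) {h t x1 x2 : ℝ}
    (hle : ∀ z ∈ F, z.re ≤ h + t * z.im) (m1 : (⟨h + t * x1, x1⟩ : ℂ) ∈ F)
    (m2 : (⟨h + t * x2, x2⟩ : ℂ) ∈ F) (hx1 : x1 ≤ -(2 / 5)) (hx2 : 1 / 2 - ρ / 1000 ≤ x2) :
    ∃ p ∈ F, p.re = h + t * p.im ∧ |p.re - 1 / 2| ≤ 2 * ε ∧ |p.im - 1 / 2| ≤ 2 * ε ∧
      ∀ z ∈ F, ip z ⟨1 + ρ, 1 - ρ⟩ ≤ ip p ⟨1 + ρ, 1 - ρ⟩ := by
  have hF := hN.fig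
  have h12 : |(1 / 2 : ℝ)| ≤ 1 / 2 := by rw [abs_of_pos]; norm_num
  have h12' : |(-(1 / 2) : ℝ)| ≤ 1 / 2 := by rw [abs_neg]; exact h12
  have cUR : (⟨1 / 2, 1 / 2⟩ : ℂ) ∈ F := hN.inn _ h12 h12
  have cUL : (⟨-(1 / 2), 1 / 2⟩ : ℂ) ∈ F := hN.inn _ h12' h12
  have cLR : (⟨1 / 2, -(1 / 2)⟩ : ℂ) ∈ F := hN.inn _ h12 h12'
  have cLL : (⟨-(1 / 2), -(1 / 2)⟩ : ℂ) ∈ F := hN.inn _ h12' h12'
  set d : ℂ := ⟨1 + ρ, 1 - ρ⟩ with hd
  have ipd : ∀ z : ℂ, ip z d = (1 + ρ) * z.re + (1 - ρ) * z.im := by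
    intro z
    rw [hd]
    unfold ip
    ring
  obtain ⟨p, hp, hpmax⟩ := exists_max hF d
  obtain ⟨q0, hq0, hqmin⟩ := exists_min hF d
  obtain ⟨po1, po2⟩ := hN.out p hp
  have pr1 := (abs_le.mp po1).2
  have pi1 := (abs_le.mp po2).2
  have hpd := hpmax _ cUR
  rw [ipd, ipd] at hpd
  simp only [] at hpd
  have pr2 : 1 / 2 - 2 * ε ≤ p.re := by
    by_contra hc
    push Not at hc
    have e1 : (1 + ρ) * p.re ≤ (1 + ρ) * (1 / 2 - 2 * ε) :=
      mul_le_mul_of_nonneg_left hc.le (by linarith only [hρ0])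
    have e2 : (1 - ρ) * p.im ≤ (1 - ρ) * (1 / 2 + ε) := mul_le_mul_of_nonneg_left pi1 (by linarith only [hρ1])
    have e3 : 0 ≤ ρ * ε := mul_nonneg hρ0.le hε0
    rcases lt_or_eq_of_le hε0 with h0 | h0
    · linarith only [hpd, e1, e2, e3, h0]
    · rw [← h0] at hc e1 e2 pi1
      have e4 : (1 + ρ) * p.re < (1 + ρ) * (1 / 2 - 2 * 0) := mul_lt_mul_of_pos_left hc (by linarith only [hρ0])
      linarith only [hpd, e2, e4]
  have pi2 : 1 / 2 - 2 * ε ≤ p.im := by
    by_contra hc
    push Not at hc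
    have e1 : (1 - ρ) * p.im ≤ (1 - ρ) * (1 / 2 - 2 * ε) :=
      mul_le_mul_of_nonneg_left hc.le (by linarith only [hρ1])
    have e2 : (1 + ρ) * p.re ≤ (1 + ρ) * (1 / 2 + ε) := mul_le_mul_of_nonneg_left pr1 (by linarith only [hρ0])
    have e3 : ρ * ε ≤ 1 / 10 * ε := mul_le_mul_of_nonneg_right hρ1 hε0
    rcases lt_or_eq_of_le hε0 with h0 | h0
    · linarith only [hpd, e1, e2, e3, h0]
    · rw [← h0] at hc e1 e2 pr1
      have e4 : (1 - ρ) * p.im < (1 - ρ) * (1 / 2 - 2 * 0) := mul_lt_mul_of_pos_left hc (by linarith only [hρ1])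
      linarith only [hpd, e2, e4]
  obtain ⟨c, hc⟩ : ∃ c : ℂ, c = ⟨ρ / 4, ρ / 4⟩ := ⟨_, rfl⟩
  have hd0 : d ≠ 0 := by
    intro h0
    have := congrArg Complex.re h0
    rw [hd] at this
    simp only [zero_re] at this
    linarith only [hρ0, this]
  have hex : ∃ v : ℂ, ‖v‖ = 1 ∧ (∀ x ∈ F, ip x v ≤ ip p v) ∧ ∃ f ∈ F, ip f v = ip p v ∧
      ip c v ≤ ip (I * (f - p)) v / 2 := by
    by_contra hcon
    apply h2
    apply rot_gain hF hp hq0 hd0 hpmax hqmin (c := c)
    · intro q hq hqe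
      obtain ⟨qo1, qo2⟩ := hN.out q hq
      have qr1 := (abs_le.mp qo1).1
      have qi1 := (abs_le.mp qo2).1
      have hqd := hqmin _ cLL
      rw [← hqe, ipd, ipd] at hqd
      simp only [] at hqd
      have qi2 : q.im ≤ -(1 / 2) + 2 * ε := by
        by_contra hc'
        push Not at hc'
        have e1 : (1 - ρ) * (-(1 / 2) + 2 * ε) < (1 - ρ) * q.im :=
          mul_lt_mul_of_pos_left hc' (by linarith only [hρ1])
        have e2 : (1 + ρ) * (-(1 / 2 + ε)) ≤ (1 + ρ) * q.re :=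
          mul_le_mul_of_nonneg_left qr1 (by linarith only [hρ0])
        have e3 : ρ * ε ≤ 1 / 10 * ε := mul_le_mul_of_nonneg_right hρ1 hε0
        linarith only [hε0, hqd, e1, e2, e3]
      have e1 : ip c d = ρ / 2 := by
        rw [ipd, hc]
        simp only []
        ring
      have e2 : ip (p - q) (I * d) = (1 + ρ) * (p.im - q.im) - (1 - ρ) * (p.re - q.re) := by
        rw [hd]
        simp [ip]
        ring
      rw [e1, e2]
      have e3 : (1 + ρ) * (1 - 4 * ε) ≤ (1 + ρ) * (p.im - q.im) :=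
        mul_le_mul_of_nonneg_left (by linarith only [pi2, qi2]) (by linarith only [hρ0])
      have e4 : (1 - ρ) * (p.re - q.re) ≤ (1 - ρ) * (1 + 2 * ε) :=
        mul_le_mul_of_nonneg_left (by linarith only [pr1, qr1]) (by linarith only [hρ1])
      have e5 : ρ * ε ≤ 1 / 10 * ε := mul_le_mul_of_nonneg_right hρ1 hε0
      have e6 : 0 ≤ ρ * ε := mul_nonneg hρ0.le hε0
      linarith only [hρ0, hε, e3, e4, e5]
    · intro v hv hvs f hf hfv
      by_contra hc'
      push Not at hc'
      exact hcon ⟨v, hv, hvs, f, hf, hfv, hc'⟩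
  obtain ⟨v, hv, hvs, f, hf, hfv, hcv⟩ := hex
  have hv1 := ip_self_one hv
  obtain ⟨Λ, hΛ⟩ : ∃ Λ : ℝ, Λ = ip (I * (f - p)) v := ⟨_, rfl⟩
  rw [← hΛ] at hcv
  have hw0 : ip (f - p) v = 0 := by rw [ip_sub_left, hfv, sub_self]
  have fre : f.re = p.re + Λ * v.im := by
    simp only [hΛ, ip, sub_re, sub_im, mul_re, mul_im, I_re, I_im] at hw0 ⊢
    linear_combination (-(f.re - p.re)) * hv1 + v.re * hw0
  have fim : f.im = p.im - Λ * v.re := by
    simp only [hΛ, ip, sub_re, sub_im, mul_re, mul_im, I_re, I_im] at hw0 ⊢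
    linear_combination (-(f.im - p.im)) * hv1 + v.im * hw0
  have vab : |v.re| ≤ 1 ∧ |v.im| ≤ 1 := by
    constructor
    · rw [abs_le]
      constructor <;> nlinarith only [hv1]
    · rw [abs_le]
      constructor <;> nlinarith only [hv1]
  obtain ⟨⟨va1, va2⟩, ⟨va3, va4⟩⟩ := And.intro (abs_le.mp vab.1) (abs_le.mp vab.2)
  have vr : -(ρ / 300) ≤ v.re := by
    by_contra hc'
    push Not at hc'
    have e1 := hvs _ cUL
    simp only [ip] at e1
    have e2 : (p.re + 1 / 2) * v.re ≤ (1 - 2 * ε) * v.re :=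
      mul_le_mul_of_nonpos_right (by linarith only [pr2]) (by linarith only [hρ0, hc'])
    have e3 : (1 - 2 * ε) * v.re ≤ (9 / 10) * v.re :=
      mul_le_mul_of_nonpos_right (by linarith only [hρ1, hε]) (by linarith only [hρ0, hc'])
    have e4 : |(p.im - 1 / 2) * v.im| ≤ 2 * ε * 1 := by
      rw [abs_mul]
      exact mul_le_mul (abs_le.mpr ⟨by linarith only [pi2], by linarith only [hε0, pi1]⟩) vab.2 (abs_nonneg _) (by linarith only [hε0])
    have e5 := (abs_le.mp e4).2
    linarith only [hρ0, hε, hc', e1, e2, e3, e5]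
  have vi : -(ρ / 300) ≤ v.im := by
    by_contra hc'
    push Not at hc'
    have e1 := hvs _ cLR
    simp only [ip] at e1
    have e2 : (p.im + 1 / 2) * v.im ≤ (1 - 2 * ε) * v.im :=
      mul_le_mul_of_nonpos_right (by linarith only [pi2]) (by linarith only [hρ0, hc'])
    have e3 : (1 - 2 * ε) * v.im ≤ (9 / 10) * v.im :=
      mul_le_mul_of_nonpos_right (by linarith only [hρ1, hε]) (by linarith only [hρ0, hc'])
    have e4 : |(p.re - 1 / 2) * v.re| ≤ 2 * ε * 1 := by
      rw [abs_mul]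
      exact mul_le_mul (abs_le.mpr ⟨by linarith only [pr2], by linarith only [hε0, pr1]⟩) vab.1 (abs_nonneg _) (by linarith only [hε0])
    have e5 := (abs_le.mp e4).2
    linarith only [hρ0, hε, hc', e1, e2, e3, e5]
  have hsum := WallX_sum (r := ρ / 300) hv1 (by linarith only [hρ1]) vr vi
  have hΛ1 : ρ / 4 ≤ Λ := by
    have e1 : ip c v = ρ / 4 * (v.re + v.im) := by
      rw [hc]
      simp only [ip]
      ring
    rw [e1] at hcv
    have e2 : ρ / 4 * (1 / 2) ≤ ρ / 4 * (v.re + v.im) :=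
      mul_le_mul_of_nonneg_left hsum (by linarith only [hρ0])
    linarith only [hcv, e2]
  have vi2 : v.im ≤ 1 / 10 := by
    by_contra hc'
    push Not at hc'
    have e1 : ρ / 4 * (1 / 10) ≤ Λ * v.im :=
      mul_le_mul hΛ1 hc'.le (by norm_num) (by linarith only [hρ0, hΛ1])
    have e2 := (abs_le.mp (hN.out f hf).1).2
    linarith only [hρ0, hε, pr2, fre, e1, e2]
  have vr2 : 9 / 10 ≤ v.re := by
    by_contra hc'
    push Not at hc'
    have e1 : |v.re| ≤ 9 / 10 := abs_le.mpr ⟨by linarith only [va4, hsum], hc'.le⟩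
    have e2 : |v.im| ≤ 1 / 10 := abs_le.mpr ⟨by linarith only [hρ1, vi], vi2⟩
    have e3 := pow_le_pow_left₀ (abs_nonneg _) e1 2
    have e4 := pow_le_pow_left₀ (abs_nonneg _) e2 2
    rw [sq_abs] at e3 e4
    linarith only [hv1, e3, e4]
  have fim2 : f.im ≤ p.im - ρ / 5 := by
    have e1 : ρ / 4 * (9 / 10) ≤ Λ * v.re := mul_le_mul hΛ1 vr2 (by norm_num) (by linarith only [hρ0, hΛ1])
    linarith only [hρ0, fim, e1]
  -- the two lines agree at all heights in the common range
  have hE : ∀ y : ℝ, x1 ≤ y → y ≤ x2 → f.im ≤ y → y ≤ p.im →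
      (h + t * y) * v.re + y * v.im = ip p v := by
    intro y y1 y2 y3 y4
    apply le_antisymm
    · -- the point of the wall
      obtain ⟨s, hs⟩ : ∃ s : ℝ, s * (x2 - x1) = y - x1 := ⟨(y - x1) / (x2 - x1),
        div_mul_cancel₀ _ (by linarith only [hρ1, hx1, hx2])⟩
      have hx : 0 < x2 - x1 := by linarith only [hρ1, hx1, hx2]
      have s0 : 0 ≤ s := by
        by_contra hc'
        push Not at hc'
        have := mul_neg_of_neg_of_pos hc' hx
        linarith only [y1, hs, this]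
      have s1 : s ≤ 1 := by
        by_contra hc'
        push Not at hc'
        have := mul_lt_mul_of_pos_right hc' hx
        linarith only [y2, hs, this]
      have k := hvs _ (hF.2.1 m1 m2 (sub_nonneg.mpr s1) s0 (by ring))
      have e : (1 - s) • (⟨h + t * x1, x1⟩ : ℂ) + s • (⟨h + t * x2, x2⟩ : ℂ) =
          (⟨h + t * y, y⟩ : ℂ) := by
        apply Complex.ext
        · simp only [add_re, real_smul, mul_re, ofReal_re, ofReal_im, zero_mul, sub_zero]
          linear_combination t * hs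
        · simp only [add_im, real_smul, mul_im, ofReal_re, ofReal_im, zero_mul, add_zero]
          linear_combination hs
      rw [e] at k
      exact k
    · -- the point of the face
      obtain ⟨s, hs⟩ : ∃ s : ℝ, s * (p.im - f.im) = y - f.im := ⟨(y - f.im) / (p.im - f.im),
        div_mul_cancel₀ _ (by linarith only [hρ0, fim2])⟩
      have hx : 0 < p.im - f.im := by linarith only [hρ0, fim2]
      have s0 : 0 ≤ s := by
        by_contra hc'
        push Not at hc'
        have := mul_neg_of_neg_of_pos hc' hx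
        linarith only [y3, hs, this]
      have s1 : s ≤ 1 := by
        by_contra hc'
        push Not at hc'
        have := mul_lt_mul_of_pos_right hc' hx
        linarith only [y4, hs, this]
      have k := hle _ (hF.2.1 hf hp (sub_nonneg.mpr s1) s0 (by ring))
      have ei : ((1 - s) • f + s • p).im = y := by
        simp only [add_im, real_smul, mul_im, ofReal_re, ofReal_im, zero_mul, add_zero]
        linear_combination hs
      have er : ((1 - s) • f + s • p).re = (1 - s) * f.re + s * p.re := by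
        simp only [add_re, real_smul, mul_re, ofReal_re, ofReal_im, zero_mul, sub_zero]
      rw [ei, er] at k
      have e1 : ((1 - s) * f.re + s * p.re) * v.re + y * v.im = ip p v := by
        have e2 : (1 - s) * ip f v + s * ip p v = ip p v := by rw [hfv]; ring
        simp only [ip] at e2 ⊢
        linear_combination e2 - v.im * hs
      have e3 := mul_le_mul_of_nonneg_right k (show 0 ≤ v.re by linarith only [vr2])
      linarith only [e1, e3]
  have hline : p.re = h + t * p.im := by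
    obtain ⟨ya, hya⟩ : ∃ ya : ℝ, ya = max x1 f.im := ⟨_, rfl⟩
    obtain ⟨yb, hyb⟩ : ∃ yb : ℝ, yb = min x2 p.im := ⟨_, rfl⟩
    have a1 : x1 ≤ ya := by rw [hya]; exact le_max_left _ _
    have a2 : f.im ≤ ya := by rw [hya]; exact le_max_right _ _
    have b1 : yb ≤ x2 := by rw [hyb]; exact min_le_left _ _
    have b2 : yb ≤ p.im := by rw [hyb]; exact min_le_right _ _
    have hab : ya < yb := by
      rw [hya, hyb]
      apply max_lt
      · exact lt_min (by linarith only [hρ1, hx1, hx2]) (by linarith only [hρ1, hε, hx1, pi2])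
      · exact lt_min (by linarith only [hρ0, hε, hx2, pi1, fim2]) (by linarith only [hρ0, fim2])
    have E1 := hE ya a1 (by linarith only [b1, hab]) a2 (by linarith only [b2, hab])
    have E2 := hE yb (by linarith only [a1, hab]) b1 (by linarith only [a2, hab]) b2
    have hB : t * v.re + v.im = 0 := by
      have : (t * v.re + v.im) * (yb - ya) = 0 := by linear_combination E2 - E1
      rcases mul_eq_zero.mp this with h0 | h0
      · exact h0
      · linarith only [hab, h0]
    have hfin : (h + t * p.im) * v.re + p.im * v.im = ip p v := by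
      linear_combination E1 + (p.im - ya) * hB
    have hfin2 : (h + t * p.im - p.re) * v.re = 0 := by
      simp only [ip] at hfin
      linear_combination hfin
    rcases mul_eq_zero.mp hfin2 with h0 | h0
    · linarith only [h0]
    · linarith only [vr2, h0]
  exact ⟨p, hp, hline, abs_le.mpr ⟨by linarith only [pr2], by linarith only [hε0, pr1]⟩, abs_le.mpr ⟨by linarith only [pi2], by linarith only [hε0, pi1]⟩,
    hpmax⟩

/-- supporting line at a boundary point -/
private lemma WallX_sup {F : Set ℂ} (hF : IsConvexFigure F) {m : ℂ} (hm : m ∈ frontier F) :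
    ∃ w : ℂ, w ≠ 0 ∧ ∀ z ∈ F, ip z w ≤ ip m w := by
  have hmi : m ∉ interior F := by
    rw [frontier, mem_sdiff] at hm
    exact hm.2
  obtain ⟨f, hf⟩ := geometric_hahn_banach_open_point hF.2.1.interior isOpen_interior hmi
  have hle : ∀ z ∈ F, f z ≤ f m := by
    intro z hz
    have h1 : F ⊆ closure (interior F) := by
      rw [hF.2.1.closure_interior_eq_closure_of_nonempty_interior hF.2.2]
      exact subset_closure
    have h2 : closure (interior F) ⊆ {z | f z ≤ f m} :=
      closure_minimal (fun z hz => (hf z hz).le) (isClosed_le f.continuous continuous_const)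
    exact h2 (h1 hz)
  obtain ⟨w, hw⟩ : ∃ w : ℂ, w = ⟨f 1, f I⟩ := ⟨_, rfl⟩
  have hfw : ∀ y, f y = ip y w := by
    intro y
    have e : y = y.re • (1 : ℂ) + y.im • I := by
      simp only [real_smul, mul_one]
      exact (Complex.re_add_im y).symm
    rw [hw]
    simp only [ip]
    conv_lhs => rw [e, map_add, map_smul, map_smul]
    simp only [smul_eq_mul]
  refine ⟨w, ?_, fun z hz => ?_⟩
  · rintro rfl
    obtain ⟨x, hx⟩ := hF.2.2
    have := hf x hx
    rw [hfw, hfw] at this
    simp [ip] at this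
  · rw [← hfw, ← hfw]
    exact hle z hz

private lemma comp_le' {z e : ℂ} {δ : ℝ} (h : ‖z - e‖ ≤ δ) : |z.re - e.re| ≤ δ ∧ |z.im - e.im| ≤ δ := by
  have h1 := Complex.abs_re_le_norm (z - e)
  have h2 := Complex.abs_im_le_norm (z - e)
  rw [sub_re] at h1
  rw [sub_im] at h2
  exact ⟨h1.trans h, h2.trans h⟩

theorem wall_ex {δ : ℝ} (hδ : 0 < δ) : ∃ ε₀ : ℝ, 0 < ε₀ ∧ ∀ ε : ℝ, 0 ≤ ε → ε ≤ ε₀ → ∀ F : Set ℂ,
    Near F ε → ¬ Two F → ∃ n a b c d : ℂ, Wall F 1 n a b c d δ := by
  obtain ⟨ρ, hρ0, hρ1, hρ2⟩ : ∃ ρ : ℝ, 0 < ρ ∧ ρ ≤ 1 / 10 ∧ ρ ≤ δ / 10 :=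
    ⟨min (1 / 10) (δ / 10), lt_min (by norm_num) (by linarith only [hδ]), min_le_left _ _, min_le_right _ _⟩
  obtain ⟨η, hη⟩ : ∃ η : ℝ, η = ρ / 1000 := ⟨_, rfl⟩
  have hη0 : 0 < η := by rw [hη]; positivity
  obtain ⟨e1, p1, H⟩ := sq_edge (⟨-(1 / 2), -(1 / 2)⟩ : ℂ) 1 one_ne_zero hη0
  refine ⟨min (e1 / 2) (ρ / 1000), lt_min (by linarith only [p1]) (by positivity), ?_⟩
  intro ε h0 hε F hN h2
  have hε1 : 2 * ε ≤ e1 := by
    have := hε.trans (min_le_left _ _)
    linarith only [this]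
  have hε2 : ε ≤ ρ / 1000 := hε.trans (min_le_right _ _)
  have hF := hN.fig
  obtain ⟨x, y, hseg, hx, hy⟩ := H (2 * ε) (by linarith only [h0]) hε1 F (⟨-(1 / 2) - ε, -(1 / 2) - ε⟩ : ℂ) hF
    (by
      rintro _ ⟨α, β, k1, k2, k3, k4, rfl⟩
      apply hN.inn
      · simp only [add_re, mul_re, ofReal_re, ofReal_im, one_re, one_im, I_re, I_im, mul_im]
        rw [abs_le]
        constructor <;> linarith
      · simp only [add_im, mul_re, ofReal_re, ofReal_im, one_re, one_im, I_re, I_im, mul_im]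
        rw [abs_le]
        constructor <;> linarith)
    (by
      intro z hz
      obtain ⟨k1, k2⟩ := hN.out z hz
      obtain ⟨k3, k4⟩ := abs_le.mp k1
      obtain ⟨k5, k6⟩ := abs_le.mp k2
      have hp : 0 < 1 + 2 * ε := by linarith only [h0]
      refine ⟨(z.re + 1 / 2 + ε) / (1 + 2 * ε), (z.im + 1 / 2 + ε) / (1 + 2 * ε),
        div_nonneg (by linarith only [k3]) hp.le, by rw [div_le_one hp]; linarith only [k4],
        div_nonneg (by linarith only [k5]) hp.le, by rw [div_le_one hp]; linarith only [k6], ?_⟩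
      apply Complex.ext
      · simp only [add_re, mul_re, ofReal_re, ofReal_im, one_re, one_im, I_re, I_im, mul_im]
        field_simp
        ring
      · simp only [add_im, mul_re, ofReal_re, ofReal_im, one_re, one_im, I_re, I_im, mul_im]
        field_simp
        ring) h2
  have hx' := comp_le' hx
  have hy' := comp_le' hy
  simp only [add_re, add_im, one_re, one_im, I_re, I_im, norm_one, mul_one] at hx' hy'
  obtain ⟨⟨x1, x2⟩, ⟨x3, x4⟩⟩ := And.intro (abs_le.mp hx'.1) (abs_le.mp hx'.2)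
  obtain ⟨⟨y1, y2⟩, ⟨y3, y4⟩⟩ := And.intro (abs_le.mp hy'.1) (abs_le.mp hy'.2)
  have hcl : IsClosed F := hF.1.isClosed
  have hxF : x ∈ F := by
    have := hseg (left_mem_segment ℝ x y)
    rw [frontier, hcl.closure_eq] at this
    exact this.1
  have hyF : y ∈ F := by
    have := hseg (right_mem_segment ℝ x y)
    rw [frontier, hcl.closure_eq] at this
    exact this.1
  obtain ⟨m, hm⟩ : ∃ m : ℂ, m = (1 / 2 : ℝ) • x + (1 / 2 : ℝ) • y := ⟨_, rfl⟩
  have hmf : m ∈ frontier F := by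
    apply hseg
    rw [hm]
    exact ⟨1 / 2, 1 / 2, by norm_num, by norm_num, by norm_num, rfl⟩
  have mre : m.re = (x.re + y.re) / 2 := by
    rw [hm]
    simp only [add_re, real_smul, mul_re, ofReal_re, ofReal_im]
    ring
  have mim : m.im = (x.im + y.im) / 2 := by
    rw [hm]
    simp only [add_im, real_smul, mul_im, ofReal_re, ofReal_im]
    ring
  obtain ⟨w, hw0, hw⟩ := WallX_sup hF hmf
  have k1 := hw x hxF
  have k2 := hw y hyF
  have k3 : ip x w + ip y w = 2 * ip m w := by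
    simp only [ip]
    rw [mre, mim]
    ring
  have k4 : ip x w = ip m w := by linarith only [k1, k2, k3]
  have k5 : ip y w = ip m w := by linarith only [k1, k2, k3]
  have hη1 : η ≤ 1 / 10000 := by rw [hη]; linarith only [hρ1]
  have horth : (y.re - x.re) * w.re + (y.im - x.im) * w.im = 0 := by
    have : ip x w = ip y w := by rw [k4, k5]
    simp only [ip] at this
    linarith only [this]
  have hyx : 0 < y.im - x.im := by linarith only [hρ1, hη, x4, y3]
  -- `w.re > 0`
  have hwi : |w.im| ≤ 3 * η * |w.re| := by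
    have e1 : |(y.im - x.im) * w.im| = |(y.re - x.re) * w.re| := by
      have : (y.im - x.im) * w.im = -((y.re - x.re) * w.re) := by linarith only [horth]
      rw [this, abs_neg]
    rw [abs_mul, abs_mul, abs_of_pos hyx] at e1
    have e2 : |y.re - x.re| ≤ 2 * η := abs_le.mpr ⟨by linarith only [x2, y1], by linarith only [x1, y2]⟩
    have e3 : |y.re - x.re| * |w.re| ≤ 2 * η * |w.re| :=
      mul_le_mul_of_nonneg_right e2 (abs_nonneg _)
    have e4 : (1 - 2 * η) * |w.im| ≤ (y.im - x.im) * |w.im| :=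
      mul_le_mul_of_nonneg_right (by linarith only [x4, y3]) (abs_nonneg _)
    have e5 : (9 / 10) * |w.im| ≤ (1 - 2 * η) * |w.im| :=
      mul_le_mul_of_nonneg_right (by linarith only [hρ1, hη]) (abs_nonneg _)
    have e6 : 0 ≤ η * |w.re| := mul_nonneg hη0.le (abs_nonneg _)
    linarith only [e1, e3, e4, e5, e6]
  have hwr : 0 < w.re := by
    by_contra hc
    push Not at hc
    rcases lt_or_eq_of_le hc with hlt | heq
    · have e0 : (⟨-(1 / 2), 0⟩ : ℂ) ∈ F := by
        apply hN.inn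
        · simp only []
          rw [abs_neg, abs_of_pos] <;> norm_num
        · simp only []
          rw [abs_zero]
          norm_num
      have e1 := hw _ e0
      simp only [ip] at e1
      rw [abs_of_neg hlt] at hwi
      have e2 : (m.re + 1 / 2) * w.re ≤ (9 / 10) * w.re :=
        mul_le_mul_of_nonpos_right (by linarith only [hρ1, hη, x1, y1, mre]) hlt.le
      have e3 : |m.im * w.im| ≤ 1 * (3 * η * -w.re) := by
        rw [abs_mul]
        exact mul_le_mul (abs_le.mpr ⟨by linarith only [hρ1, hη, x3, y3, mim], by linarith only [hρ1, hη, x4, y4, mim]⟩) hwi (abs_nonneg _) zero_le_one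
      have e4 := (abs_le.mp e3).2
      have e5 : η * (-w.re) ≤ 1 / 10000 * (-w.re) := mul_le_mul_of_nonneg_right hη1 (by linarith only [hlt])
      linarith only [hlt, e1, e2, e4, e5]
    · rw [heq, abs_zero, mul_zero] at hwi
      have : w.im = 0 := abs_eq_zero.mp (le_antisymm hwi (abs_nonneg _))
      exact hw0 (Complex.ext heq this)
  rw [abs_of_pos hwr] at hwi
  -- the line
  obtain ⟨t, ht⟩ : ∃ t : ℝ, t * w.re = -w.im := ⟨-w.im / w.re, div_mul_cancel₀ _ hwr.ne'⟩
  obtain ⟨h, hh⟩ : ∃ h : ℝ, h * w.re = ip m w := ⟨ip m w / w.re, div_mul_cancel₀ _ hwr.ne'⟩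
  have ht1 : |t| ≤ 3 * η := by
    have e1 : |t| * w.re ≤ 3 * η * w.re := by
      rw [← abs_of_pos hwr, ← abs_mul, ht, abs_neg, abs_of_pos hwr]
      exact hwi
    exact le_of_mul_le_mul_right e1 hwr
  have hle : ∀ z ∈ F, z.re ≤ h + t * z.im := by
    intro z hz
    have e1 := hw z hz
    have e2 : z.re * w.re ≤ (h + t * z.im) * w.re := by
      have e3 : (h + t * z.im) * w.re = ip m w - z.im * w.im := by linear_combination hh + z.im * ht
      rw [e3]
      simp only [ip] at e1 ⊢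
      linarith only [e1]
    exact le_of_mul_le_mul_right e2 hwr
  have hon : ∀ z : ℂ, ip z w = ip m w → z.re = h + t * z.im := by
    intro z hz
    have e1 : (z.re - (h + t * z.im)) * w.re = 0 := by
      simp only [ip] at hz hh
      linear_combination hz - hh - z.im * ht
    rcases mul_eq_zero.mp e1 with e2 | e2
    · linarith only [e2]
    · exact absurd e2 hwr.ne'
  have hx5 := hon x k4
  have hy5 := hon y k5
  have m1 : (⟨h + t * x.im, x.im⟩ : ℂ) ∈ F := by
    rw [← hx5]
    exact hxF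
  have m2 : (⟨h + t * y.im, y.im⟩ : ℂ) ∈ F := by
    rw [← hy5]
    exact hyF
  -- the upper end
  obtain ⟨b, hb, b1, b2, b3, b4⟩ := WallX_vert hN h2 hρ0 hρ1 h0 hε2 hle m1 m2 (by linarith only [hρ1, hη, x4])
    (by linarith only [hη, y3])
  -- the lower end
  have n1 : ‖(1 : ℂ)‖ = 1 := by simp
  have hg : ∀ z, refl 1 0 n1 z = (starRingEnd ℂ) z := by
    intro z
    rw [refl_apply, one_mul, add_zero]
  have hcc : ∀ z : ℂ, (starRingEnd ℂ) ((starRingEnd ℂ) z) = z := Complex.conj_conj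
  have hN' : Near (refl 1 0 n1 '' F) ε := by
    refine ⟨fig_image hF _, ?_, ?_⟩
    · intro z g1 g2
      refine ⟨(starRingEnd ℂ) z, hN.inn _ (by rwa [conj_re]) (by rwa [conj_im, abs_neg]), ?_⟩
      rw [hg, hcc]
    · rintro _ ⟨z, hz, rfl⟩
      rw [hg, conj_re, conj_im, abs_neg]
      exact hN.out z hz
  have h2' : ¬ Two (refl 1 0 n1 '' F) := fun hT => h2 (two_image hF _ hT)
  obtain ⟨b', ⟨a, ha, hab⟩, a1, a2, a3, a4⟩ := WallX_vert hN' h2' hρ0 hρ1 h0 hε2 (h := h) (t := -t)
    (x1 := -y.im) (x2 := -x.im)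
    (by
      rintro _ ⟨z, hz, rfl⟩
      rw [hg, conj_re, conj_im]
      have := hle z hz
      linarith only [this])
    (by
      refine ⟨y, hyF, ?_⟩
      rw [hg]
      apply Complex.ext
      · rw [conj_re, hy5]
        ring
      · rw [conj_im])
    (by
      refine ⟨x, hxF, ?_⟩
      rw [hg]
      apply Complex.ext
      · rw [conj_re, hx5]
        ring
      · rw [conj_im])
    (by linarith only [hρ1, hη, y3]) (by linarith only [hη, x4])
  rw [hg] at hab
  subst hab
  rw [conj_re, conj_im] at a1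
  rw [conj_re] at a2
  rw [conj_im] at a3
  -- the normal
  obtain ⟨k, hk⟩ : ∃ k : ℝ, k = (Real.sqrt (1 + t ^ 2))⁻¹ := ⟨_, rfl⟩
  have hs0 : 0 < Real.sqrt (1 + t ^ 2) := Real.sqrt_pos.mpr (by positivity)
  have hk0 : 0 < k := by rw [hk]; positivity
  have hk1 : k ^ 2 * (1 + t ^ 2) = 1 := by
    rw [hk, inv_pow, Real.sq_sqrt (by positivity)]
    exact inv_mul_cancel₀ (by positivity)
  have hk2 : k ≤ 1 := by
    by_contra hc
    push Not at hc
    nlinarith only [hk1, hc]
  have htt : |t| ≤ 1 / 1000 := by linarith only [hρ1, hη, ht1]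
  have hk3 : 1 - k ≤ |t| := by
    have e1 : k ^ 2 ≤ k := by nlinarith only [hk0, hk2]
    have e2 : t ^ 2 ≤ |t| := by
      rw [← sq_abs]
      nlinarith only [hρ1, hη, ht1, abs_nonneg t]
    have e3 : k ^ 2 * t ^ 2 ≤ 1 * t ^ 2 :=
      mul_le_mul_of_nonneg_right (by linarith only [hk2, e1]) (sq_nonneg t)
    linarith only [hk1, e1, e2, e3]
  have ipn : ∀ z : ℂ, ip z ⟨k, -(k * t)⟩ = k * (z.re - t * z.im) := by
    intro z
    simp only [ip]
    ring
  have hnorm : ∀ z : ℂ, ∀ r : ℝ, |z.re| ≤ r → |z.im| ≤ r → ‖z‖ ≤ 2 * r := by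
    intro z r g1 g2
    have := Complex.norm_le_abs_re_add_abs_im z
    linarith only [g1, g2, this]
  refine ⟨⟨k, -(k * t)⟩, a, b, ⟨1 + ρ, -(1 - ρ)⟩, ⟨1 + ρ, 1 - ρ⟩, ?_⟩
  constructor
  · exact ha
  · exact hb
  · have e1 : ‖(⟨k, -(k * t)⟩ : ℂ)‖ ^ 2 = 1 := by
      rw [Complex.sq_norm, Complex.normSq_apply]
      simp only []
      linear_combination hk1
    exact (pow_eq_one_iff_of_nonneg (norm_nonneg _) two_ne_zero).mp e1
  · intro z hz
    rw [ipn, ipn]
    apply mul_le_mul_of_nonneg_left _ hk0.le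
    have := hle z hz
    linarith only [b1, this]
  · rw [ipn, ipn]
    have : a.re - t * a.im = b.re - t * b.im := by linarith only [b1, a1]
    rw [this]
  · intro z hz
    have e1 := a4 _ ⟨z, hz, rfl⟩
    rw [hg] at e1
    simp only [ip, conj_re, conj_im] at e1 ⊢
    linarith only [e1]
  · exact b4
  · refine (hnorm _ (3 * η) ?_ ?_).trans (by linarith only [hρ2, hη, hη0])
    · rw [sub_re, one_re, abs_sub_comm, abs_of_nonneg (by simp only []; linarith only [hk2])]
      simp only []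
      linarith only [ht1, hk3]
    · rw [sub_im, one_im, sub_zero]
      simp only []
      rw [abs_neg, abs_mul, abs_of_pos hk0]
      have := mul_le_mul_of_nonneg_right hk2 (abs_nonneg t)
      linarith only [ht1, this]
  · refine (hnorm _ (2 * ε) ?_ ?_).trans (by linarith only [hρ2, hη, hη0, hε2])
    · simpa using a2
    · have : (a - 1 * (1 / 2 - I / 2)).im = -(-a.im - 1 / 2) := by
        simp
        ring
      rw [this, abs_neg]
      exact a3
  · refine (hnorm _ (2 * ε) ?_ ?_).trans (by linarith only [hρ2, hη, hη0, hε2])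
    · simpa using b2
    · simpa using b3
  · refine (hnorm _ ρ ?_ ?_).trans (by linarith only [hρ2, hη, hη0])
    · simp [abs_of_pos hρ0]
    · simp [abs_of_pos hρ0]
  · refine (hnorm _ ρ ?_ ?_).trans (by linarith only [hρ2, hη, hη0])
    · simp [abs_of_pos hρ0]
    · simp [abs_of_pos hρ0]

end Pool.Agent.H84.Sq
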