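import Pool.Agent.H84.Sq.Defs

set_option autoImplicit false

/-!
# Opposite walls are parallel

PROOF of `wedge_two`. `F` lies in the trapezoid `-h' - τ y ≤ x ≤ h`, `|y| ≤ 51/100`, and contains the trapezoid
`-h' - τ y ≤ x ≤ h`, `|y| ≤ 49/100` (convexity along horizontal lines). Put `l = 1/2 + τ/10` and
 `A : z ↦ l z + a`, `a = (-(1 - l) h' - τ/5) + I/5` (flush with the left line: `-h' - τ (1/5) - ...`),
 `B : z ↦ l conj z + b`, `b = (1 - l) h - I/5` (flush with the right line).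
 For `z = x + i y ∈ F`: `A z = (l x - (1 - l) h' - τ/5, l y + 1/5)`: `≥ -h' - τ (l y + 1/5)` because
 `x ≥ -h' - τ y`; `≤ h`; height in `[-1/10, 49/100]`. `B z = (l x + (1 - l) h, -l y - 1/5)`: `≤ h`; and
 `l x + (1 - l) h ≥ -l h' - l τ y + (1 - l) h = S + τ Y` with `Y = -l y - 1/5`, `S = -l h' + (1 - l) h + τ/5`.
 The line `X = S + τ Y` separates: on `A`: `X ≤ l h - (1 - l) h' - τ/5`, `Y ≥ 1/5 - l 51/100`, and
 `(2 l - 1)(h + h') = τ/5 (h + h') ≤ τ (3/5 - l 51/100)`, as `h + h' ≤ 51/50`. Use `two_mk` (Base.lean) with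
 `g1 = rot 1 a`, `g2 = refl 1 b` (H21/Tri/Two.lean) and `n = 1 - τ I` (`ip z n = z.re - τ z.im`), `t = S`.
PROOF of `par_walls`. Rotate by `conj n` (`F1 = rot (conj n) 0 '' F`, `two_image` in H50/CP/CornerFin.lean; a private lemma
 `Wall F e n .. → Wall (w F) (w e) (w n) ..` for `‖w‖ = 1` is useful; `ip (w z) (w z') = ip z z'` is `ip_rot` in
 H50/CP/Rot2.lean). Now `n = 1`, `‖e - 1‖ ≤ δ`; so the right wall has `z.re ≤ h := b.re` on `F`, contains `a = (h, a.im)` and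
 `b = (h, b.im)` with `a.im ≤ -49/100`, `b.im ≥ 49/100` (all errors are `≤ 4 δ`), so `(h, y) ∈ F` for `|y| ≤ 49/100`.
 `‖n' + 1‖ ≤ 2 δ`; if `n'.im = 0` then `n' = -1`, done. Otherwise with `-h' = ip b' n' / n'.re`, `τ = n'.im / n'.re`
 one has `-h' - τ z.im ≤ z.re` on `F` with equality at `a'`, `b'` (`a' ≈ -1/2 + I/2`, `b' ≈ -1/2 - I/2`), so
 `wedge_two` applies if `τ > 0`, and if `τ < 0` it applies to the image of `F` under `conj` (`refl 1 0`).
-/

namespace Pool.Agent.H84.Sq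

open Pool.Agent.H90.Clone Pool.Agent.H21.Tri Pool.Agent.H50.CP Complex Set Pointwise MeasureTheory

private lemma WedgeX_seg {F : Set ℂ} (hF : Convex ℝ F) {p q : ℂ} (hp : p ∈ F) (hq : q ∈ F)
    {k τ y : ℝ} (e1 : p.re = k - τ * p.im) (e2 : q.re = k - τ * q.im) (h1 : p.im ≤ y)
    (h2 : y ≤ q.im) (hpq : p.im < q.im) : (⟨k - τ * y, y⟩ : ℂ) ∈ F := by
  have hd : 0 < q.im - p.im := by linarith
  have ht0 : 0 ≤ (y - p.im) / (q.im - p.im) := div_nonneg (by linarith) hd.le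
  have ht1 : (y - p.im) / (q.im - p.im) ≤ 1 := by
    rw [div_le_one hd]
    linarith
  have hk : (y - p.im) / (q.im - p.im) * (q.im - p.im) = y - p.im := div_mul_cancel₀ _ hd.ne'
  have := hF hp hq (sub_nonneg.mpr ht1) ht0 (by ring)
  convert this using 1
  apply Complex.ext
  · simp only [add_re, real_smul, mul_re, ofReal_re, ofReal_im, zero_mul, sub_zero]
    rw [e1, e2]
    linear_combination (τ) * hk
  · simp only [add_im, real_smul, mul_im, ofReal_re, ofReal_im, zero_mul, add_zero]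
    linear_combination -hk

private lemma WedgeX_hor {F : Set ℂ} (hF : Convex ℝ F) {p q x y : ℝ} (hp : (⟨p, y⟩ : ℂ) ∈ F)
    (hq : (⟨q, y⟩ : ℂ) ∈ F) (h1 : p ≤ x) (h2 : x ≤ q) : (⟨x, y⟩ : ℂ) ∈ F := by
  rcases eq_or_lt_of_le (h1.trans h2) with h | h
  · have : x = p := le_antisymm (by linarith) h1
    rw [this]
    exact hp
  · have hd : 0 < q - p := by linarith
    have ht0 : 0 ≤ (x - p) / (q - p) := div_nonneg (by linarith) hd.le
    have ht1 : (x - p) / (q - p) ≤ 1 := by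
      rw [div_le_one hd]
      linarith
    have hk : (x - p) / (q - p) * (q - p) = x - p := div_mul_cancel₀ _ hd.ne'
    have := hF hp hq (sub_nonneg.mpr ht1) ht0 (by ring)
    convert this using 1
    apply Complex.ext
    · simp only [add_re, real_smul, mul_re, ofReal_re, ofReal_im, zero_mul, sub_zero]
      linear_combination -hk
    · simp only [add_im, real_smul, mul_im, ofReal_re, ofReal_im, zero_mul, add_zero]
      ring

theorem wedge_two {F : Set ℂ} (hF : IsConvexFigure F) {h h' τ : ℝ} (hτ : 0 < τ) (hτ1 : τ ≤ 1 / 100)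
    (hh : |h - 1 / 2| ≤ 1 / 100) (hh' : |h' - 1 / 2| ≤ 1 / 100) (hR : ∀ z ∈ F, z.re ≤ h)
    (hL : ∀ z ∈ F, -h' - τ * z.im ≤ z.re) (hy : ∀ z ∈ F, |z.im| ≤ 51 / 100)
    (pR : ∀ y : ℝ, |y| ≤ 49 / 100 → (⟨h, y⟩ : ℂ) ∈ F)
    (pL : ∀ y : ℝ, |y| ≤ 49 / 100 → (⟨-h' - τ * y, y⟩ : ℂ) ∈ F) : Two F := by
  have hC : Convex ℝ F := hF.2.1
  have fill : ∀ z : ℂ, |z.im| ≤ 49 / 100 → -h' - τ * z.im ≤ z.re → z.re ≤ h → z ∈ F := by
    intro z h1 h2 h3
    have := WedgeX_hor hC (pL z.im h1) (pR z.im h1) h2 h3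
    simpa using this
  obtain ⟨hh1, hh2⟩ := abs_le.mp hh
  obtain ⟨hh1', hh2'⟩ := abs_le.mp hh'
  set l : ℝ := 1 / 2 + τ / 10 with hl
  have hl1 : l ≤ 501 / 1000 := by rw [hl]; linarith
  have hl0 : 1 / 2 < l := by rw [hl]; linarith
  set a : ℂ := ⟨-((1 - l) * h') - τ / 5, 1 / 5⟩ with ha
  set b : ℂ := ⟨(1 - l) * h, -(1 / 5)⟩ with hb
  have n1 : ‖(1 : ℂ)‖ = 1 := by simp
  have A1 : ∀ z : ℂ, (rot 1 a n1 ((l : ℂ) * z)).re = l * z.re - (1 - l) * h' - τ / 5 := by
    intro z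
    rw [rot_apply, ha]
    simp
    ring
  have A2 : ∀ z : ℂ, (rot 1 a n1 ((l : ℂ) * z)).im = l * z.im + 1 / 5 := by
    intro z
    rw [rot_apply, ha]
    simp
  have B1 : ∀ z : ℂ, (refl 1 b n1 ((l : ℂ) * z)).re = l * z.re + (1 - l) * h := by
    intro z
    rw [refl_apply, hb]
    simp
  have B2 : ∀ z : ℂ, (refl 1 b n1 ((l : ℂ) * z)).im = -(l * z.im) - 1 / 5 := by
    intro z
    rw [refl_apply, hb]
    simp
    ring
  have hly : ∀ z ∈ F, |l * z.im| ≤ 26 / 100 := by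
    intro z hz
    rw [abs_mul, abs_of_pos (by linarith : (0 : ℝ) < l)]
    nlinarith [hy z hz, abs_nonneg z.im]
  have hlx : ∀ z ∈ F, -(l * h') - τ * (l * z.im) ≤ l * z.re := by
    intro z hz
    nlinarith [hL z hz]
  have hlx' : ∀ z ∈ F, l * z.re ≤ l * h := by
    intro z hz
    nlinarith [hR z hz]
  have hs1 : (1 - l) * (h + h') ≥ 48 / 100 := by nlinarith
  have hn : (⟨1, -τ⟩ : ℂ) ≠ 0 := by
    intro h0
    have := congrArg Complex.re h0
    simp at this
  refine two_mk hl0 (rot 1 a n1) (refl 1 b n1) hn (-(l * h') + (1 - l) * h + τ / 5) ?_ ?_ ?_ ?_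
  · intro z hz
    obtain ⟨k1, k2⟩ := abs_le.mp (hly z hz)
    apply fill
    · rw [A2, abs_le]
      constructor <;> linarith
    · rw [A1, A2]
      nlinarith [hlx z hz]
    · rw [A1]
      nlinarith [hlx' z hz]
  · intro z hz
    obtain ⟨k1, k2⟩ := abs_le.mp (hly z hz)
    apply fill
    · rw [B2, abs_le]
      constructor <;> linarith
    · rw [B1, B2]
      nlinarith [hlx z hz]
    · rw [B1]
      nlinarith [hlx' z hz]
  · intro z hz
    obtain ⟨k1, k2⟩ := abs_le.mp (hly z hz)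
    rw [ip, A1, A2]
    have e1 : (2 * l - 1) * (h + h') ≤ τ * (21 / 100) := by
      have : 2 * l - 1 = τ / 5 := by rw [hl]; ring
      rw [this]
      nlinarith
    have e2 : -(τ * (l * z.im)) ≤ τ * (26 / 100) := by nlinarith
    have := hlx' z hz
    show (l * z.re - (1 - l) * h' - τ / 5) * 1 + (l * z.im + 1 / 5) * (-τ) ≤ _
    nlinarith
  · intro z hz
    rw [ip, B1, B2]
    have := hlx z hz
    show _ ≤ (l * z.re + (1 - l) * h) * 1 + (-(l * z.im) - 1 / 5) * (-τ)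
    nlinarith

private lemma WedgeX_core {F : Set ℂ} (hF : IsConvexFigure F) {a b a' b' m : ℂ}
    (ma : a ∈ F) (mb : b ∈ F) (ma' : a' ∈ F) (mb' : b' ∈ F)
    (hR : ∀ z ∈ F, z.re ≤ b.re) (hab : a.re = b.re) (hb : |b.re - 1 / 2| ≤ 1 / 500)
    (ha1 : a.im ≤ -(49 / 100)) (hb1 : 49 / 100 ≤ b.im)
    (hm : ‖m + 1‖ ≤ 1 / 500)
    (hL : ∀ z ∈ F, ip z m ≤ ip b' m) (hab' : ip a' m = ip b' m) (hb' : |ip b' m - 1 / 2| ≤ 1 / 500)
    (ha1' : 49 / 100 ≤ a'.im) (hb1' : b'.im ≤ -(49 / 100))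
    (hy : ∀ z ∈ F, |z.im| ≤ 51 / 100) (him : m.im < 0) : Two F := by
  have hC : Convex ℝ F := hF.2.1
  have h1 := (Complex.abs_re_le_norm (m + 1)).trans hm
  have h2 := (Complex.abs_im_le_norm (m + 1)).trans hm
  rw [add_re, one_re] at h1
  rw [add_im, one_im, add_zero] at h2
  obtain ⟨h1a, h1b⟩ := abs_le.mp h1
  obtain ⟨h2a, h2b⟩ := abs_le.mp h2
  obtain ⟨hb2, hb3⟩ := abs_le.mp hb'
  have hr : m.re < 0 := by linarith
  obtain ⟨τ, hτ⟩ : ∃ τ : ℝ, τ * m.re = m.im := ⟨m.im / m.re, div_mul_cancel₀ _ hr.ne⟩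
  obtain ⟨k, hk⟩ : ∃ k : ℝ, -k * m.re = ip b' m :=
    ⟨-(ip b' m / m.re), by rw [neg_neg]; exact div_mul_cancel₀ _ hr.ne⟩
  have hτ0 : 0 < τ := by
    by_contra h
    push Not at h
    nlinarith
  have hτ1 : τ ≤ 1 / 100 := by
    by_contra h
    push Not at h
    nlinarith
  have hk1 : |k - 1 / 2| ≤ 1 / 100 := by
    rw [abs_le]
    constructor
    · by_contra h
      push Not at h
      nlinarith
    · by_contra h
      push Not at h
      nlinarith
  have on : ∀ z : ℂ, ip z m = ip b' m → z.re = -k - τ * z.im := by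
    intro z hz
    rw [← hk, ip, ← hτ] at hz
    have : (z.re - (-k - τ * z.im)) * m.re = 0 := by linear_combination hz
    rcases mul_eq_zero.mp this with h | h
    · linarith
    · exact absurd h hr.ne
  have ub : ∀ y : ℝ, |y| ≤ 49 / 100 → (⟨-k - τ * y, y⟩ : ℂ) ∈ F := by
    intro y hy
    obtain ⟨y1, y2⟩ := abs_le.mp hy
    exact WedgeX_seg hC mb' ma' (on b' rfl) (on a' hab') (by linarith) (by linarith)
      (by linarith)
  have ur : ∀ y : ℝ, |y| ≤ 49 / 100 → (⟨b.re, y⟩ : ℂ) ∈ F := by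
    intro y hy
    obtain ⟨y1, y2⟩ := abs_le.mp hy
    have := WedgeX_seg hC ma mb (k := b.re) (τ := 0) (y := y) (by rw [hab]; ring) (by ring)
      (by linarith) (by linarith) (by linarith)
    simpa using this
  refine wedge_two hF hτ0 hτ1 (hb.trans (by norm_num)) hk1 hR ?_ hy ur ub
  intro z hz
  have h3 := hL z hz
  rw [← hk, ip, ← hτ] at h3
  by_contra h
  push Not at h
  nlinarith

private lemma WedgeX_ipc (z v : ℂ) : ip ((starRingEnd ℂ) z) ((starRingEnd ℂ) v) = ip z v := by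
  simp [ip]

private lemma WedgeX_im {F : Set ℂ} (hF : IsConvexFigure F) (hT : ¬ Two F) {a b a' b' m : ℂ}
    (ma : a ∈ F) (mb : b ∈ F) (ma' : a' ∈ F) (mb' : b' ∈ F)
    (hR : ∀ z ∈ F, z.re ≤ b.re) (hab : a.re = b.re) (hb : |b.re - 1 / 2| ≤ 1 / 500)
    (ha1 : a.im ≤ -(49 / 100)) (hb1 : 49 / 100 ≤ b.im)
    (hm : ‖m + 1‖ ≤ 1 / 500)
    (hL : ∀ z ∈ F, ip z m ≤ ip b' m) (hab' : ip a' m = ip b' m) (hb' : |ip b' m - 1 / 2| ≤ 1 / 500)
    (ha1' : 49 / 100 ≤ a'.im) (hb1' : b'.im ≤ -(49 / 100))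
    (hy : ∀ z ∈ F, |z.im| ≤ 51 / 100) : m.im = 0 := by
  rcases lt_trichotomy m.im 0 with h | h | h
  · exact absurd (WedgeX_core hF ma mb ma' mb' hR hab hb ha1 hb1 hm hL hab' hb' ha1' hb1' hy h) hT
  · exact h
  · exfalso
    apply hT
    have n1 : ‖(1 : ℂ)‖ = 1 := by simp
    have hg : ∀ z, refl 1 0 n1 z = (starRingEnd ℂ) z := by
      intro z
      rw [refl_apply, one_mul, add_zero]
    apply two_image hF (refl 1 0 n1)
    have mem : ∀ z ∈ F, (starRingEnd ℂ) z ∈ refl 1 0 n1 '' F := fun z hz => ⟨z, hz, hg z⟩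
    refine WedgeX_core (fig_image hF _) (a := (starRingEnd ℂ) b) (b := (starRingEnd ℂ) a)
      (a' := (starRingEnd ℂ) b') (b' := (starRingEnd ℂ) a') (m := (starRingEnd ℂ) m)
      (mem _ mb) (mem _ ma) (mem _ mb') (mem _ ma') ?_ ?_ ?_ ?_ ?_ ?_ ?_ ?_ ?_ ?_ ?_ ?_ ?_
    · rintro _ ⟨z, hz, rfl⟩
      rw [hg, conj_re, conj_re, hab]
      exact hR z hz
    · rw [conj_re, conj_re, hab]
    · rw [conj_re, hab]
      exact hb
    · rw [conj_im]
      linarith
    · rw [conj_im]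
      linarith
    · have : (starRingEnd ℂ) m + 1 = (starRingEnd ℂ) (m + 1) := by simp
      rw [this, Complex.norm_conj]
      exact hm
    · rintro _ ⟨z, hz, rfl⟩
      rw [hg, WedgeX_ipc, WedgeX_ipc, hab']
      exact hL z hz
    · rw [WedgeX_ipc, WedgeX_ipc, hab']
    · rw [WedgeX_ipc, hab']
      exact hb'
    · rw [conj_im]
      linarith
    · rw [conj_im]
      linarith
    · rintro _ ⟨z, hz, rfl⟩
      rw [hg, conj_im, abs_neg]
      exact hy z hz
    · rw [conj_im]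
      linarith

private lemma WedgeX_near {e n b p : ℂ} {δ : ℝ} (he : ‖e‖ = 1) (hn1 : ‖n‖ = 1)
    (hn : ‖n - e‖ ≤ δ) (hp : ‖p‖ ≤ 1) (hb : ‖b - e * p‖ ≤ δ) :
    ‖(starRingEnd ℂ) n * b - p‖ ≤ 2 * δ := by
  have h1 : (starRingEnd ℂ) e * e = 1 := by
    rw [mul_comm, Complex.mul_conj, Complex.normSq_eq_norm_sq, he]
    norm_num
  have h2 : (starRingEnd ℂ) n * b - p =
      (starRingEnd ℂ) n * (b - e * p) + (starRingEnd ℂ) (n - e) * (e * p) := by
    rw [map_sub]
    linear_combination p * h1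
  have hδ : 0 ≤ δ := (norm_nonneg _).trans hn
  rw [h2]
  refine (norm_add_le _ _).trans ?_
  rw [norm_mul, norm_mul, norm_mul, Complex.norm_conj, Complex.norm_conj, hn1, he, one_mul, one_mul]
  have : ‖n - e‖ * ‖p‖ ≤ δ * 1 := mul_le_mul hn hp (norm_nonneg _) hδ
  linarith

private lemma WedgeX_rot {n : ℂ} (hn : ‖n‖ = 1) (z v : ℂ) :
    ip ((starRingEnd ℂ) n * z) ((starRingEnd ℂ) n * v) = ip z v := by
  have h1 : n.re * n.re + n.im * n.im = 1 := by
    have := Complex.normSq_eq_norm_sq n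
    rw [hn, Complex.normSq_apply] at this
    linarith
  simp only [ip, mul_re, mul_im, conj_re, conj_im]
  linear_combination (z.re * v.re + z.im * v.im) * h1

private lemma WedgeX_re (n z : ℂ) : ((starRingEnd ℂ) n * z).re = ip z n := by
  simp only [ip, mul_re, conj_re, conj_im]
  ring

private lemma WedgeX_imI (n z : ℂ) : ((starRingEnd ℂ) n * z).im = ip z (I * n) := by
  simp only [ip, mul_re, mul_im, conj_re, conj_im, I_re, I_im]
  ring

theorem par_walls {F : Set ℂ} (hF : IsConvexFigure F) (h2 : ¬ Two F) {e : ℂ} (he : ‖e‖ = 1)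
    {δ : ℝ} (hδ : δ ≤ 1 / 1000) (hb : ∀ z ∈ F, |ip z e| ≤ 1 / 2 + δ ∧ |ip z (I * e)| ≤ 1 / 2 + δ)
    {n a b c d n' a' b' c' d' : ℂ} (W : Wall F e n a b c d δ) (W' : Wall F (-e) n' a' b' c' d' δ) :
    n' = -n := by
  have hδ0 : 0 ≤ δ := (norm_nonneg _).trans W.hn
  have hw1 : ‖(starRingEnd ℂ) n‖ = 1 := by
    rw [Complex.norm_conj]
    exact W.n1
  have hwn : (starRingEnd ℂ) n * n = 1 := by
    rw [mul_comm, Complex.mul_conj, Complex.normSq_eq_norm_sq, W.n1]
    norm_num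
  have hne : ‖-e‖ = 1 := by rw [norm_neg, he]
  have hp1 : ‖(1 / 2 + I / 2 : ℂ)‖ ≤ 1 := by
    refine (norm_add_le _ _).trans ?_
    rw [norm_div, norm_div, norm_one, Complex.norm_I]
    norm_num
  have hp2 : ‖(1 / 2 - I / 2 : ℂ)‖ ≤ 1 := by
    refine (norm_sub_le _ _).trans ?_
    rw [norm_div, norm_div, norm_one, Complex.norm_I]
    norm_num
  have r1 : (1 / 2 + I / 2 : ℂ).re = 1 / 2 := by simp
  have i1 : (1 / 2 + I / 2 : ℂ).im = 1 / 2 := by simp
  have i2 : (1 / 2 - I / 2 : ℂ).im = -(1 / 2) := by simp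
  -- the corners after the rotation
  have nb := WedgeX_near he W.n1 W.hn hp1 W.hb
  have na := WedgeX_near he W.n1 W.hn hp2 W.ha
  have nb' : ‖(starRingEnd ℂ) n * b' - -(1 / 2 + I / 2)‖ ≤ 2 * δ := by
    refine WedgeX_near he W.n1 W.hn (by rw [norm_neg]; exact hp1) ?_
    have := W'.hb
    rwa [neg_mul, ← mul_neg] at this
  have na' : ‖(starRingEnd ℂ) n * a' - -(1 / 2 - I / 2)‖ ≤ 2 * δ := by
    refine WedgeX_near he W.n1 W.hn (by rw [norm_neg]; exact hp2) ?_
    have := W'.ha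
    rwa [neg_mul, ← mul_neg] at this
  have nb2 := WedgeX_near hne W'.n1 W'.hn hp1 W'.hb
  have hbre := (Complex.abs_re_le_norm _).trans nb
  have hbim := (Complex.abs_im_le_norm _).trans nb
  have haim := (Complex.abs_im_le_norm _).trans na
  have hbim' := (Complex.abs_im_le_norm _).trans nb'
  have haim' := (Complex.abs_im_le_norm _).trans na'
  have hbre2 := (Complex.abs_re_le_norm _).trans nb2
  rw [sub_re, r1] at hbre hbre2
  rw [sub_im, i1] at hbim
  rw [sub_im, i2] at haim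
  rw [sub_im, neg_im, i1] at hbim'
  rw [sub_im, neg_im, i2] at haim'
  rw [WedgeX_re] at hbre2
  have hm : ‖(starRingEnd ℂ) n * n' + 1‖ ≤ 1 / 500 := by
    have : (starRingEnd ℂ) n * n' + 1 = (starRingEnd ℂ) n * ((n' - -e) + (n - e)) := by
      linear_combination (-1 : ℂ) * hwn
    rw [this, norm_mul, hw1, one_mul]
    refine (norm_add_le _ _).trans ?_
    linarith [W.hn, W'.hn]
  have key : ((starRingEnd ℂ) n * n').im = 0 := by
    have hg : ∀ z, rot ((starRingEnd ℂ) n) 0 hw1 z = (starRingEnd ℂ) n * z := by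
      intro z
      rw [rot_apply, add_zero]
    have mem : ∀ z ∈ F, (starRingEnd ℂ) n * z ∈ rot ((starRingEnd ℂ) n) 0 hw1 '' F :=
      fun z hz => ⟨z, hz, hg z⟩
    refine WedgeX_im (F := rot ((starRingEnd ℂ) n) 0 hw1 '' F) (fig_image hF _)
      (fun h => h2 (two_image hF _ h)) (a := (starRingEnd ℂ) n * a) (b := (starRingEnd ℂ) n * b)
      (a' := (starRingEnd ℂ) n * a') (b' := (starRingEnd ℂ) n * b')
      (mem _ W.ma) (mem _ W.mb) (mem _ W'.ma) (mem _ W'.mb) ?_ ?_ ?_ ?_ ?_ hm ?_ ?_ ?_ ?_ ?_ ?_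
    · rintro _ ⟨z, hz, rfl⟩
      rw [hg, WedgeX_re, WedgeX_re]
      exact W.sn z hz
    · rw [WedgeX_re, WedgeX_re]
      exact W.eq
    · exact hbre.trans (by linarith)
    · have := (abs_le.mp haim).2
      linarith
    · have := (abs_le.mp hbim).1
      linarith
    · rintro _ ⟨z, hz, rfl⟩
      rw [hg, WedgeX_rot W.n1, WedgeX_rot W.n1]
      exact W'.sn z hz
    · rw [WedgeX_rot W.n1, WedgeX_rot W.n1]
      exact W'.eq
    · rw [WedgeX_rot W.n1]
      exact hbre2.trans (by linarith)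
    · have := (abs_le.mp haim').1
      linarith
    · have := (abs_le.mp hbim').2
      linarith
    · rintro _ ⟨z, hz, rfl⟩
      rw [hg]
      obtain ⟨z1, z2⟩ := hb z hz
      -- `‖z‖ ≤ 1`
      have hz1 : ‖z‖ ≤ 1 := by
        have q1 : ‖(starRingEnd ℂ) e * z‖ = ‖z‖ := by
          rw [norm_mul, Complex.norm_conj, he, one_mul]
        have q2 : ‖(starRingEnd ℂ) e * z‖ ^ 2 = (ip z e) ^ 2 + (ip z (I * e)) ^ 2 := by
          rw [← Complex.normSq_eq_norm_sq, Complex.normSq_apply, WedgeX_re, WedgeX_imI]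
          ring
        rw [← q1]
        have q3 : (ip z e) ^ 2 ≤ (1 / 2 + δ) ^ 2 := by
          rw [← sq_abs]
          exact pow_le_pow_left₀ (abs_nonneg _) z1 2
        have q4 : (ip z (I * e)) ^ 2 ≤ (1 / 2 + δ) ^ 2 := by
          rw [← sq_abs]
          exact pow_le_pow_left₀ (abs_nonneg _) z2 2
        have q5 : ‖(starRingEnd ℂ) e * z‖ ^ 2 ≤ 1 := by
          rw [q2]
          nlinarith
        nlinarith [norm_nonneg ((starRingEnd ℂ) e * z)]
      have q6 : ((starRingEnd ℂ) n * z).im =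
          ((starRingEnd ℂ) e * z).im + ((starRingEnd ℂ) (n - e) * z).im := by
        rw [map_sub, ← add_im]
        congr 1
        ring
      rw [q6]
      refine (abs_add_le _ _).trans ?_
      have q7 : |((starRingEnd ℂ) (n - e) * z).im| ≤ δ := by
        refine (Complex.abs_im_le_norm _).trans ?_
        rw [norm_mul, Complex.norm_conj]
        have : ‖n - e‖ * ‖z‖ ≤ δ * 1 := mul_le_mul W.hn hz1 (norm_nonneg _) hδ0
        linarith
      rw [WedgeX_imI]
      linarith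
  have hnm : ‖(starRingEnd ℂ) n * n'‖ = 1 := by rw [norm_mul, hw1, W'.n1, one_mul]
  have hre := (Complex.abs_re_le_norm _).trans hm
  rw [add_re, one_re] at hre
  have hsq : ((starRingEnd ℂ) n * n').re ^ 2 = 1 := by
    have := Complex.normSq_eq_norm_sq ((starRingEnd ℂ) n * n')
    rw [hnm, Complex.normSq_apply, key] at this
    nlinarith
  have hre1 : ((starRingEnd ℂ) n * n').re = -1 := by
    have h3 : (((starRingEnd ℂ) n * n').re - 1) * (((starRingEnd ℂ) n * n').re + 1) = 0 := by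
      linear_combination hsq
    rcases mul_eq_zero.mp h3 with h | h
    · have := (abs_le.mp hre).2
      linarith
    · linarith
  have hfin : (starRingEnd ℂ) n * n' = -1 := by
    apply Complex.ext
    · rw [hre1]
      simp
    · rw [key]
      simp
  linear_combination n * hfin - n' * hwn

end Pool.Agent.H84.Sq
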