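import Pool.Agent.H50.CP.Rot2
import Pool.Agent.H84.Sq.Combo
import Pool.Agent.H84.Sq.Nf
import Pool.Agent.H84.Sq.WallEx
import Pool.Agent.H84.Sq.Wedge
import Pool.Agent.H84.Sq.Rect
import Pool.Agent.H84.Sq.SqTwo

set_option autoImplicit false

/-!
# A near-square in which two large clones do not fit is a square
-/

namespace Pool.Agent.H84.Sq

open Pool.Agent.H90.Clone Pool.Agent.H21.Tri Pool.Agent.H50.CP Complex Set Pointwise MeasureTheory

lemma wall_mul {F : Set ℂ} {e e' n a b c d : ℂ} {δ : ℝ} (he : ‖e‖ = 1) (hee : e * e' = 1)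
    (W : Wall ((fun z => e' * z + 0) '' F) 1 n a b c d δ) :
    Wall F e (e * n) (e * a) (e * b) (e * c) (e * d) δ := by
  have hmem : ∀ z ∈ (fun z => e' * z + 0) '' F, e * z ∈ F := by
    rintro _ ⟨x, hx, rfl⟩
    have : e * ((fun z => e' * z + 0) x) = x := by
      simp only []
      linear_combination x * hee
    rw [this]
    exact hx
  have hmem' : ∀ z ∈ F, e' * z ∈ (fun z => e' * z + 0) '' F := fun z hz => ⟨z, hz, by simp⟩
  have hz : ∀ z, z = e * (e' * z) := by
    intro z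
    linear_combination (-z) * hee
  have hs : ∀ x y : ℂ, (∀ z ∈ (fun z => e' * z + 0) '' F, ip z y ≤ ip x y) →
      ∀ z ∈ F, ip z (e * y) ≤ ip (e * x) (e * y) := by
    intro x y h z hzF
    have h1 := h _ (hmem' z hzF)
    rw [ip_rot he]
    nth_rewrite 1 [hz z]
    rw [ip_rot he]
    exact h1
  have hn : ∀ x y : ℂ, ‖x - 1 * y‖ ≤ δ → ‖e * x - e * y‖ ≤ δ := by
    intro x y h
    rw [← mul_sub, norm_mul, he, one_mul]
    rwa [one_mul] at h
  refine ⟨hmem _ W.ma, hmem _ W.mb, by rw [norm_mul, he, W.n1, one_mul], hs _ _ W.sn, ?_, hs _ _ W.sc,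
    hs _ _ W.sd, ?_, hn _ _ W.ha, hn _ _ W.hb, hn _ _ W.hc, hn _ _ W.hd⟩
  · rw [ip_rot he, ip_rot he]
    exact W.eq
  · have := hn n 1 (by rw [mul_one]; exact W.hn)
    rwa [mul_one] at this

lemma near_I {F : Set ℂ} {r : ℝ} (h : Near F r) : Near ((fun z => I * z + 0) '' F) r := by
  refine ⟨fig_sim h.fig Complex.I_ne_zero 0, ?_, ?_⟩
  · intro z h1 h2
    refine ⟨-I * z, h.inn _ ?_ ?_, ?_⟩
    · simpa using h2
    · simpa using h1
    · simp only []
      linear_combination (-z) * Complex.I_mul_I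
  · rintro _ ⟨x, hx, rfl⟩
    obtain ⟨h1, h2⟩ := h.out x hx
    constructor
    · simpa using h2
    · simpa using h1

theorem near_isSq : ∃ ε₀ : ℝ, 0 < ε₀ ∧ ∀ ε : ℝ, 0 ≤ ε → ε ≤ ε₀ → ∀ F : Set ℂ,
    Near F ε → ¬ Two F → IsSq F := by
  obtain ⟨e1, p1, H⟩ := wall_ex (show (0:ℝ) < 1 / 10000 by norm_num)
  refine ⟨min e1 (1 / 10000), lt_min p1 (by norm_num), fun ε h0 h1 F hN h2 => ?_⟩
  have hε1 := h1.trans (min_le_left _ _)
  have hε2 := h1.trans (min_le_right _ _)
  have hF := hN.fig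
  -- the rotated figures
  have N1 := near_I hN
  have N2 := near_I N1
  have N3 := near_I N2
  have T1 : ¬ Two ((fun z => I * z + 0) '' F) := fun h => h2 (two_sim Complex.I_ne_zero h)
  have T2 : ¬ Two ((fun z => I * z + 0) '' ((fun z => I * z + 0) '' F)) :=
    fun h => T1 (two_sim Complex.I_ne_zero h)
  have T3 : ¬ Two ((fun z => I * z + 0) '' ((fun z => I * z + 0) '' ((fun z => I * z + 0) '' F))) :=
    fun h => T2 (two_sim Complex.I_ne_zero h)
  obtain ⟨n0, a0, b0, c0, d0, W0⟩ := H ε h0 hε1 _ hN h2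
  obtain ⟨n3, a3, b3, c3, d3, W3⟩ := H ε h0 hε1 _ N1 T1
  obtain ⟨n2, a2, b2, c2, d2, W2⟩ := H ε h0 hε1 _ N2 T2
  obtain ⟨n1, a1, b1, c1, d1, W1⟩ := H ε h0 hε1 _ N3 T3
  have E2 : (fun z => I * z + 0) '' ((fun z => I * z + 0) '' F) = (fun z => (-1) * z + 0) '' F := by
    rw [← image_comp]
    apply image_congr
    intro z _
    simp only [Function.comp]
    linear_combination z * Complex.I_mul_I
  have E3 : (fun z => I * z + 0) '' ((fun z => I * z + 0) '' ((fun z => I * z + 0) '' F)) =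
      (fun z => (-I) * z + 0) '' F := by
    rw [E2, ← image_comp]
    apply image_congr
    intro z _
    simp only [Function.comp]
    ring
  rw [E2] at W2
  rw [E3] at W1
  have V3 := wall_mul (e := -I) (by simp) (by linear_combination -Complex.I_mul_I) W3
  have V2 := wall_mul (e := -1) (by simp) (by ring) W2
  have V1 := wall_mul (e := I) (by simp) (by linear_combination -Complex.I_mul_I) W1
  have hb1 : ∀ z ∈ F, |ip z 1| ≤ 1 / 2 + 1 / 10000 ∧ |ip z (I * 1)| ≤ 1 / 2 + 1 / 10000 := by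
    intro z hz
    obtain ⟨k1, k2⟩ := hN.out z hz
    constructor
    · simp only [ip, one_re, one_im, mul_one, mul_zero, add_zero]
      linarith
    · simp only [ip, mul_one, I_re, I_im, mul_zero, zero_add]
      linarith
  have hb2 : ∀ z ∈ F, |ip z I| ≤ 1 / 2 + 1 / 10000 ∧ |ip z (I * I)| ≤ 1 / 2 + 1 / 10000 := by
    intro z hz
    obtain ⟨k1, k2⟩ := hN.out z hz
    constructor
    · simp only [ip, mul_one, I_re, I_im, mul_zero, zero_add]
      linarith
    · rw [Complex.I_mul_I]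
      simp only [ip, neg_re, one_re, neg_im, one_im, neg_zero, mul_zero, add_zero, mul_neg, mul_one,
        abs_neg]
      linarith
  -- parallel
  have P02 := par_walls hF h2 (e := 1) (by simp) (by norm_num) hb1 W0 V2
  have P13 := par_walls hF h2 (e := I) (by simp) (by norm_num) hb2 V1 V3
  rw [P02] at V2
  rw [P13] at V3
  -- widths
  have w1 := width_le hF h2 (e := 1) (by simp) (by norm_num) hb1 W0 V2 V1.n1
    (by rw [mul_one]; exact V1.hn) (β := ip (I * b1) (I * n1)) (β' := ip (-I * b3) (-(I * n1)))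
    (by
      intro z hz
      have k1 := V1.sn z hz
      have k2 := V3.sn z hz
      have k3 : ip z (-(I * n1)) = -ip z (I * n1) := by
        simp [ip]
        ring
      rw [k3] at k2
      exact ⟨by linarith, k1⟩)
  have w2 := width_le hF h2 (e := I) (by simp) (by norm_num) hb2 V1 V3 V2.n1
    (by rw [Complex.I_mul_I]; exact V2.hn) (β := ip (-1 * b2) (-n0)) (β' := ip b0 n0)
    (by
      intro z hz
      have k1 := W0.sn z hz
      have k2 := V2.sn z hz
      have k3 : ip z (-n0) = -ip z n0 := by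
        simp [ip]
        ring
      rw [k3] at k2 ⊢
      exact ⟨by linarith, k2⟩)
  obtain ⟨A, B, s, c, p, q, u, v, hA, hNF, k1, k2, k3, k4, k5⟩ :=
    nf_of_walls hF (by norm_num) W0 V1 V2 V3 (by linarith)
  have h3 : ¬ Two ((fun z => A * z + B) '' F) := fun h => h2 (two_sim hA h)
  obtain ⟨r1, r2, r3, r4, r5⟩ := nf_zero hNF h3 k1 k2 k3 k4 k5
  subst r1 r2 r3 r4 r5
  have hpar := nf_square hNF
  refine ⟨-B / A, 1 / A, I / A, one_div_ne_zero hA, by rw [norm_div, norm_div]; simp, ?_, ?_⟩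
  · have : I / A = I * (1 / A) := by ring
    rw [this]
    simp [ip]
    ring
  · ext z
    constructor
    · intro hz
      have : A * z + B ∈ Par 0 1 I := by
        rw [← hpar]
        exact ⟨z, hz, rfl⟩
      obtain ⟨x, y, g1, g2, g3, g4, g5⟩ := this
      refine ⟨x, y, g1, g2, g3, g4, ?_⟩
      field_simp
      linear_combination g5
    · rintro ⟨x, y, g1, g2, g3, g4, rfl⟩
      have : ((0 : ℂ) + x * 1 + y * I) ∈ Par 0 1 I := ⟨x, y, g1, g2, g3, g4, rfl⟩
      rw [← hpar] at this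
      obtain ⟨t, ht, hte⟩ := this
      have e : -B / A + (x : ℂ) * (1 / A) + (y : ℂ) * (I / A) = t := by
        field_simp
        linear_combination -hte
      rw [e]
      exact ht

theorem iso_core (o u : ℂ) (hu : u ≠ 0) : ∃ ε₀ : ℝ, 0 < ε₀ ∧
    ∀ ε : ℝ, 0 ≤ ε → ε ≤ ε₀ → ∀ (F : Set ℂ) (o' : ℂ), IsConvexFigure F → Par o u (I * u) ⊆ F →
      F ⊆ Par o' (((1 + ε : ℝ) : ℂ) * u) (((1 + ε : ℝ) : ℂ) * (I * u)) → ¬ Two F → IsSq F := by
  obtain ⟨ε₀, p, H⟩ := near_isSq
  refine ⟨ε₀, p, fun ε h0 h1 F o' hF hin hout h2 => ?_⟩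
  set b : ℂ := -(o + (1 + I) / 2 * u) / u with hb
  have hi : (u⁻¹ : ℂ) ≠ 0 := inv_ne_zero hu
  -- the normalised figure
  have hsq : IsSq ((fun z => u⁻¹ * z + b) '' F) := by
    apply H ε h0 h1 _ _ (fun h => h2 (two_sim hi h))
    have hinn : ∀ z : ℂ, |z.re| ≤ 1 / 2 → |z.im| ≤ 1 / 2 → z ∈ (fun z => u⁻¹ * z + b) '' F := by
      intro z k1 k2
      rw [abs_le] at k1 k2
      refine ⟨u * (z - b), hin ⟨z.re + 1 / 2, z.im + 1 / 2, by linarith, by linarith, by linarith,
        by linarith, ?_⟩, ?_⟩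
      · rw [hb]
        field_simp
        push_cast
        have e := Complex.re_add_im z
        linear_combination (-2 * u) * e
      · simp only []
        field_simp
        ring
    refine ⟨fig_sim hF hi b, hinn, ?_⟩
    -- coordinates in the outer square
    have hout' : ∀ z ∈ (fun z => u⁻¹ * z + b) '' F, ∃ x y : ℝ, 0 ≤ x ∧ x ≤ 1 ∧ 0 ≤ y ∧ y ≤ 1 ∧
        z.re = (u⁻¹ * o' + b).re + (1 + ε) * x ∧ z.im = (u⁻¹ * o' + b).im + (1 + ε) * y := by
      rintro _ ⟨x, hx, rfl⟩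
      obtain ⟨α, β, k1, k2, k3, k4, k5⟩ := hout hx
      refine ⟨α, β, k1, k2, k3, k4, ?_⟩
      have e : (fun z => u⁻¹ * z + b) x = (u⁻¹ * o' + b) + (((1 + ε) * α : ℝ) : ℂ) +
          (((1 + ε) * β : ℝ) : ℂ) * I := by
        simp only []
        rw [k5]
        field_simp
        push_cast
        ring
      rw [e]
      constructor
      · simp
      · simp
    obtain ⟨x1, y1, a1, a2, a3, a4, a5, a6⟩ := hout' _ (hinn ⟨-1 / 2, -1 / 2⟩
      (by rw [abs_le]; constructor <;> norm_num) (by rw [abs_le]; constructor <;> norm_num))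
    obtain ⟨x2, y2, c1, c2, c3, c4, c5, c6⟩ := hout' _ (hinn ⟨1 / 2, 1 / 2⟩
      (by rw [abs_le]; constructor <;> norm_num) (by rw [abs_le]; constructor <;> norm_num))
    simp only [] at a5 a6 c5 c6
    intro z hz
    obtain ⟨x, y, d1, d2, d3, d4, d5, d6⟩ := hout' z hz
    have hε : 0 ≤ 1 + ε := by linarith
    have f1 := mul_nonneg hε a1
    have f2 := mul_nonneg hε a3
    have f3 := mul_le_mul_of_nonneg_left c2 hε
    have f4 := mul_le_mul_of_nonneg_left c4 hε
    have f5 := mul_nonneg hε d1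
    have f6 := mul_nonneg hε d3
    have f7 := mul_le_mul_of_nonneg_left d2 hε
    have f8 := mul_le_mul_of_nonneg_left d4 hε
    rw [abs_le, abs_le]
    refine ⟨⟨by linarith, by linarith⟩, by linarith, by linarith⟩
  obtain ⟨o1, u1, v1, g1, g2, g3, g4⟩ := hsq
  refine ⟨u * (o1 - b), u * u1, u * v1, mul_ne_zero hu g1, by rw [norm_mul, norm_mul, g2], ?_, ?_⟩
  · have e : ip (u * u1) (u * v1) = (u.re ^ 2 + u.im ^ 2) * ip u1 v1 := by
      simp only [ip, mul_re, mul_im]
      ring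
    rw [e, g3, mul_zero]
  · ext z
    constructor
    · intro hz
      have : u⁻¹ * z + b ∈ Par o1 u1 v1 := by
        rw [← g4]
        exact ⟨z, hz, rfl⟩
      obtain ⟨x, y, k1, k2, k3, k4, k5⟩ := this
      refine ⟨x, y, k1, k2, k3, k4, ?_⟩
      have e : z = u * (u⁻¹ * z + b - b) := by
        field_simp
        ring
      rw [e, k5]
      ring
    · rintro ⟨x, y, k1, k2, k3, k4, rfl⟩
      have : o1 + (x : ℂ) * u1 + (y : ℂ) * v1 ∈ Par o1 u1 v1 := ⟨x, y, k1, k2, k3, k4, rfl⟩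
      rw [← g4] at this
      obtain ⟨t, ht, hte⟩ := this
      have e : u * (o1 - b) + (x : ℂ) * (u * u1) + (y : ℂ) * (u * v1) = t := by
        have e2 : u * (u⁻¹ * t + b - b) = t := by
          field_simp
          ring
        rw [← e2]
        have e3 : u⁻¹ * t + b = o1 + (x : ℂ) * u1 + (y : ℂ) * v1 := hte
        rw [e3]
        ring
      rw [e]
      exact ht

end Pool.Agent.H84.Sq
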