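import Pool.Agent.H84.Sq.Defs

set_option autoImplicit false

/-!
# The tilted pair of copies in a figure in normal form
-/

namespace Pool.Agent.H84.Sq

open Pool.Agent.H90.Clone Pool.Agent.H21.Tri Pool.Agent.H50.CP Complex Set Pointwise MeasureTheory

/-- a criterion for points of `F` near one corner -/
theorem inner_mem {F : Set ℂ} (hF : IsConvexFigure F) {o A B : ℂ} {p x1 y1 X1 Y1 X2 Y2 a b : ℝ}
    (h1 : o + (x1 : ℂ) * A ∈ F) (h2 : o + (y1 : ℂ) * B ∈ F) (hx1 : x1 ≤ p) (hy1 : y1 ≤ p) (h3 : o + (X1 : ℂ) * A ∈ F) (h4 : o + (Y1 : ℂ) * B ∈ F)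
    (h5 : o + (X2 : ℂ) * A + (Y2 : ℂ) * B ∈ F) (hX1 : 4 / 5 ≤ X1) (hY1 : 4 / 5 ≤ Y1)
    (hX2 : 4 / 5 ≤ X2) (hY2 : 4 / 5 ≤ Y2) (ha : 0 ≤ a) (ha1 : a ≤ 4 / 5) (hb : 0 ≤ b)
    (hb1 : b ≤ 4 / 5) (hab : p ≤ a + b) : o + (a : ℂ) * A + (b : ℂ) * B ∈ F := by
  by_contra hcon
  obtain ⟨v, hv, hsep⟩ := sep_pt hF hcon
  have k1 := hsep _ h1
  have k2 := hsep _ h2
  have k3 := hsep _ h3
  have k4 := hsep _ h4
  have k5 := hsep _ h5
  simp only [ip_add_left, ip_smul_left] at k1 k2 k3 k4 k5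
  obtain ⟨α, hα⟩ : ∃ α : ℝ, α = ip A v := ⟨_, rfl⟩
  obtain ⟨β, hβ⟩ : ∃ β : ℝ, β = ip B v := ⟨_, rfl⟩
  rw [← hα, ← hβ] at k1 k2 k3 k4 k5
  rcases le_total 0 α with hα0 | hα0
  · rcases le_total 0 β with hβ0 | hβ0
    · have e1 := mul_le_mul_of_nonneg_right (ha1.trans hX2) hα0
      have e2 := mul_le_mul_of_nonneg_right (hb1.trans hY2) hβ0
      linarith only [k5, e1, e2]
    · have e1 := mul_le_mul_of_nonneg_right (ha1.trans hX1) hα0
      have e2 : b * β ≤ 0 := mul_nonpos_of_nonneg_of_nonpos hb hβ0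
      linarith only [k3, e1, e2]
  · rcases le_total 0 β with hβ0 | hβ0
    · have e1 := mul_le_mul_of_nonneg_right (hb1.trans hY1) hβ0
      have e2 : a * α ≤ 0 := mul_nonpos_of_nonneg_of_nonpos ha hα0
      linarith only [k4, e1, e2]
    · rcases le_total α β with hαβ | hαβ
      · -- use the point on the `B` axis
        have e1 : a * α ≤ a * β := mul_le_mul_of_nonneg_left hαβ ha
        have e2 : p * (-β) ≤ (a + b) * (-β) := mul_le_mul_of_nonneg_right hab (by linarith only [hβ0])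
        have e3 : y1 * (-β) ≤ p * (-β) := mul_le_mul_of_nonneg_right hy1 (by linarith only [hβ0])
        linarith only [k2, e1, e2, e3]
      · have e1 : b * β ≤ b * α := mul_le_mul_of_nonneg_left hαβ hb
        have e2 : p * (-α) ≤ (a + b) * (-α) := mul_le_mul_of_nonneg_right hab (by linarith only [hα0])
        have e3 : x1 * (-α) ≤ p * (-α) := mul_le_mul_of_nonneg_right hx1 (by linarith only [hα0])
        linarith only [k1, e1, e2, e3]

lemma pt_eq (s c x y : ℝ) : pt s c x y = (x : ℂ) * pt s c 1 0 + (y : ℂ) * pt s c 0 1 := by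
  apply Complex.ext
  · simp [pt]
  · simp [pt]
    ring

lemma pt_self {s c : ℝ} (hc : c ≠ 0) (w : ℂ) : w = pt s c w.re (c * w.im - s * w.re) := by
  apply Complex.ext
  · simp [pt]
  · simp only [pt]
    field_simp
    ring

lemma unit_bd {C S : ℝ} (hC : 0 < C) (h : C ^ 2 + S ^ 2 = 1) : C ≤ 1 ∧ 1 - S ^ 2 ≤ C := by
  have h1 : C ≤ 1 := by nlinarith only [h]
  exact ⟨h1, by nlinarith only [hC, h]⟩

lemma sq_le_of_abs {s r : ℝ} (hs : |s| ≤ r) : s ^ 2 ≤ r ^ 2 := by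
  rw [← sq_abs s]
  exact pow_le_pow_left₀ (abs_nonneg s) hs 2

/-- the numerical part: gain -/
private lemma tilt_gain {s c u ρ S C : ℝ} (hρ : ρ ≤ 1 / 1000) (hs : |s| ≤ ρ) (hc0 : 0 < c)
    (hc1 : c ≤ 1) (hu0 : 0 ≤ u) (hu : u ≤ ρ) (hS : 0 < S) (hS1 : S ≤ 3 * ρ) (hC0 : 0 < C)
    (hCS : C ^ 2 + S ^ 2 = 1) (hg : S / 2 + ρ / 50 < s + u) :
    (1 + (1 - 99 / 100 * u) / c * S * C) / 2 < C / 2 + S * (1 + s) / (2 * c) - S * (|s| * S) := by
  have hρ0 : 0 < ρ := by linarith only [hS, hS1]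
  have hS2 : S ≤ 3 / 1000 := by linarith only [hρ, hS1]
  have hSS : S ^ 2 ≤ 9 / 1000000 := by nlinarith only [hρ, hS, hS1]
  have hC1 : C ≤ 1 := by nlinarith only [hCS]
  have hC2 : 1 - S ^ 2 ≤ C := by nlinarith only [hC0, hCS]
  obtain ⟨g, hgd⟩ : ∃ g : ℝ, g = 1 - C := ⟨_, rfl⟩
  have hC : C = 1 - g := by linarith only [hgd]
  have hg0 : 0 ≤ g := by linarith only [hC1, hgd]
  have hg1 : g ≤ 9 / 1000000 := by linarith only [hSS, hC2, hgd]
  have hg2 : g * (2 - g) = S ^ 2 := by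
    have : C ^ 2 = (1 - g) ^ 2 := by rw [hC]
    linarith only [hCS, this]
  have hg3 : g ≤ S * (S / 2 + ρ / 10000) := by
    have h1 : g * (2 - 9 / 1000000) ≤ S ^ 2 := by
      rw [← hg2]
      exact mul_le_mul_of_nonneg_left (by linarith only [hSS, hC2, hgd]) hg0
    have h2 : S ^ 2 ≤ (2 - 9 / 1000000) * (S * (S / 2 + ρ / 10000)) := by
      have h3 : S * S ≤ S * (3 * ρ) := mul_le_mul_of_nonneg_left hS1 hS.le
      linarith only [hC1, hC2, h3]
    linarith only [h1, h2]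
  have habs := abs_nonneg s
  -- the bracket
  have hb : S / 2 + ρ / 10000 < s + g + 99 / 100 * u * C - 2 * (|s| * S) * c := by
    have e1 : (|s| * S) * c ≤ 3 / 1000 * ρ := by
      have f1 : |s| * S ≤ ρ * (3 / 1000) := mul_le_mul hs hS2 hS.le hρ0.le
      have f2 : 0 ≤ |s| * S := mul_nonneg habs hS.le
      have f3 : (|s| * S) * c ≤ (|s| * S) * 1 := mul_le_mul_of_nonneg_left hc1 f2
      linarith only [f1, f3]
    have e2 : u * (1 - 9 / 1000000) ≤ u * C := mul_le_mul_of_nonneg_left (by linarith only [hSS, hC2]) hu0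
    have e3 : 99 / 100 * u * C = 99 / 100 * (u * C) := by ring
    rw [e3]
    linarith only [hu, hg, hρ0, hC1, hgd, e1, e2]
  have hbS := mul_lt_mul_of_pos_left hb hS
  -- clear denominators
  have key : c * (1 - C) < S * (1 + s) - (1 - 99 / 100 * u) * S * C - 2 * (S * (|s| * S)) * c := by
    have e1 : c * (1 - C) ≤ g := by
      rw [← hgd]
      calc c * g ≤ 1 * g := mul_le_mul_of_nonneg_right hc1 hg0
        _ = g := one_mul g
    have e2 : S * (s + g + 99 / 100 * u * C - 2 * (|s| * S) * c) =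
        S * (1 + s) - (1 - 99 / 100 * u) * S * C - 2 * (S * (|s| * S)) * c := by
      rw [hC]
      ring
    rw [← e2]
    linarith only [hg3, hbS, e1]
  have e3 : (1 + (1 - 99 / 100 * u) / c * S * C) / 2 =
      (c + (1 - 99 / 100 * u) * S * C) / (2 * c) := by field_simp
  have e4 : C / 2 + S * (1 + s) / (2 * c) - S * (|s| * S) =
      (c * C + S * (1 + s) - 2 * (S * (|s| * S)) * c) / (2 * c) := by field_simp
  rw [e3, e4]
  apply div_lt_div_of_pos_right _ (by positivity)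
  linarith only [key]

/-- the numerical part: position -/
private lemma tilt_num {s c p u S C l Y x0 y0 x y D M : ℝ} (hs1 : -(1 / 1000) ≤ s)
    (hs2 : s ≤ 1 / 1000) (hc0 : 0 < c) (hc1 : c ≤ 1) (hc2 : 999 / 1000 ≤ c)
    (hu1 : u ≤ 1 / 1000) (hp0 : 0 ≤ p) (hS : 0 < S) (hS3 : S ≤ 3 / 1000)
    (hS2 : 102 / 100 * p ≤ S) (hC1 : C ≤ 1) (hC2 : 9999 / 10000 ≤ C) (hl1 : 1 / 2 < l)
    (hl2 : l ≤ 51 / 100) (hcY : c * Y = 1 - 99 / 100 * u) (hY1 : 1 - 99 / 100 * u ≤ Y)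
    (hx0 : x0 = l * Y * S) (hx02 : x0 ≤ 18 / 10000) (hsx1 : 0 ≤ c * y0 - s * x0)
    (hsx2 : c * y0 - s * x0 ≤ 1 / 1000) (b1 : 0 ≤ x) (b2 : x ≤ 1) (b3 : 0 ≤ D) (b4 : D ≤ 1)
    (b5 : 99 / 100 * p ≤ x + D) (b6 : 99 / 100 * u ≤ x + (1 - D)) (hyc : c * y = D + s * x)
    (hM : c * M = x + s * D) :
    0 ≤ l * (C * x - S * y) + x0 ∧ l * (C * x - S * y) + x0 ≤ 4 / 5 ∧
    0 ≤ l * (C * D + S * M) + (c * y0 - s * x0) ∧
    l * (C * D + S * M) + (c * y0 - s * x0) ≤ 4 / 5 ∧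
    p ≤ l * (C * x - S * y) + x0 + (l * (C * D + S * M) + (c * y0 - s * x0)) := by
  have hl0 : 0 < l := by linarith only [hl1]
  have hsx4 : -(1 / 1000 * x) ≤ s * x := by
    have := mul_le_mul_of_nonneg_right hs1 b1
    linarith only [this]
  have hsx5 : s * x ≤ 1 / 1000 * x := mul_le_mul_of_nonneg_right hs2 b1
  have hsD1 : -(1 / 1000 * D) ≤ s * D := by
    have := mul_le_mul_of_nonneg_right hs1 b3
    linarith only [this]
  have hsD2 : s * D ≤ 1 / 1000 * D := mul_le_mul_of_nonneg_right hs2 b3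
  have hcx : 999 / 1000 * x ≤ c * x := mul_le_mul_of_nonneg_right hc2 b1
  have hcx' : c * x ≤ x := by
    have := mul_le_mul_of_nonneg_right hc1 b1
    linarith only [this]
  have hcD : 999 / 1000 * D ≤ c * D := mul_le_mul_of_nonneg_right hc2 b3
  have hCx : 9999 / 10000 * x ≤ C * x := mul_le_mul_of_nonneg_right hC2 b1
  have hCx' : C * x ≤ x := by
    have := mul_le_mul_of_nonneg_right hC1 b1
    linarith only [this]
  have hCD : 9999 / 10000 * D ≤ C * D := mul_le_mul_of_nonneg_right hC2 b3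
  have hCD' : C * D ≤ D := by
    have := mul_le_mul_of_nonneg_right hC1 b3
    linarith only [this]
  have hy1 : -(2 / 1000) ≤ y := by
    have e : c * (-(2 / 1000)) ≤ c * y := by
      rw [hyc]
      linarith only [hc2, b2, b3, hsx4]
    exact le_of_mul_le_mul_left e hc0
  have hyle : y ≤ Y + 11 / 10 * x := by
    have e1 : c * y ≤ c * (Y + 11 / 10 * x) := by
      rw [mul_add, hcY, hyc]
      linarith only [b1, b6, hsx5, hcx]
    exact le_of_mul_le_mul_left e1 hc0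
  have hM1 : -(1 / 100 * D) ≤ M := by
    have e : c * (-(1 / 100 * D)) ≤ c * M := by
      rw [hM]
      linarith only [b1, b3, hsD1, hcD]
    exact le_of_mul_le_mul_left e hc0
  have hM2 : M ≤ 11 / 10 := by
    have e : c * M ≤ c * (11 / 10) := by
      rw [hM]
      linarith only [hc2, b2, b4, hsD2]
    exact le_of_mul_le_mul_left e hc0
  have hM3 : x - 1 / 900 * D ≤ M := by
    have e : c * (x - 1 / 900 * D) ≤ c * M := by
      rw [hM]
      linarith only [b3, hsD1, hcx', hcD]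
    exact le_of_mul_le_mul_left e hc0
  have hy2 : y ≤ 11 / 10 * (x + D) := by
    have e : c * y ≤ c * (11 / 10 * (x + D)) := by
      rw [hyc]
      linarith only [b1, b3, hsx5, hcx, hcD]
    exact le_of_mul_le_mul_left e hc0
  have hSx : S * x ≤ 3 / 1000 * x := mul_le_mul_of_nonneg_right hS3 b1
  have hSD : S * D ≤ 3 / 1000 * D := mul_le_mul_of_nonneg_right hS3 b3
  have hSx0 : 0 ≤ S * x := mul_nonneg hS.le b1
  have hSD0 : 0 ≤ S * D := mul_nonneg hS.le b3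
  have hSyY : S * y ≤ S * (Y + 11 / 10 * x) := mul_le_mul_of_nonneg_left hyle hS.le
  have hSy2 : S * y ≤ S * (11 / 10 * (x + D)) := mul_le_mul_of_nonneg_left hy2 hS.le
  have hSy1 : S * (-(2 / 1000)) ≤ S * y := mul_le_mul_of_nonneg_left hy1 hS.le
  have hSM1 : S * (-(1 / 100 * D)) ≤ S * M := mul_le_mul_of_nonneg_left hM1 hS.le
  have hSM2 : S * M ≤ S * (11 / 10) := mul_le_mul_of_nonneg_left hM2 hS.le
  have hSM3 : S * (x - 1 / 900 * D) ≤ S * M := mul_le_mul_of_nonneg_left hM3 hS.le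
  have hDpos : 0 ≤ l * (C * D + S * M) := mul_nonneg hl0.le (by linarith only [b3, hCD, hSD, hSM1])
  refine ⟨?_, ?_, by linarith only [hsx1, hDpos], ?_, ?_⟩
  · have e4 : -(S * Y) ≤ C * x - S * y := by linarith only [b1, hCx, hSx, hSyY]
    have e5 : l * (-(S * Y)) ≤ l * (C * x - S * y) := mul_le_mul_of_nonneg_left e4 hl0.le
    rw [hx0]
    linarith only [e5]
  · have e4 : C * x - S * y ≤ 1001 / 1000 := by linarith only [hS3, b2, hCx', hSy1]
    have e3 : l * (C * x - S * y) ≤ l * (1001 / 1000) := mul_le_mul_of_nonneg_left e4 hl0.le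
    linarith only [hl2, hx02, e3]
  · have e4 : C * D + S * M ≤ 101 / 100 := by linarith only [hS3, b4, hCD', hSM2]
    have e3 : l * (C * D + S * M) ≤ l * (101 / 100) := mul_le_mul_of_nonneg_left e4 hl0.le
    linarith only [hl2, hsx2, e3]
  · have f2 : (C - 12 / 10 * S) * (x + D) ≤ C * x - S * y + (C * D + S * M) := by
      have e : (C - 12 / 10 * S) * (x + D) = C * x + C * D - 12 / 10 * (S * x) -
        12 / 10 * (S * D) := by ring
      rw [e]
      linarith only [hSx0, hSD0, hSy2, hSM1]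
    have f3 : (98 / 100 + 6 / 1000) * p ≤ (C - 12 / 10 * S) * (x + D) := by
      have g2 : 996 / 1000 ≤ C - 12 / 10 * S := by linarith only [hS3, hC2]
      have g3 : 996 / 1000 * (99 / 100 * p) ≤ (C - 12 / 10 * S) * (x + D) :=
        mul_le_mul g2 b5 (by linarith only [hp0]) (by linarith only [hS3, hC2])
      linarith only [b1, b3, b5, hCx, hCD, hSx, hSD]
    have f4 : (1018 / 1000) * p ≤ Y * S := by
      have g1 : 999 / 1000 ≤ Y := by linarith only [hu1, hY1]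
      have g2 : (999 / 1000) * (102 / 100 * p) ≤ Y * S :=
        mul_le_mul g1 hS2 (by linarith only [hp0]) (by linarith only [hu1, hY1])
      linarith only [hp0, g2]
    have f5 : l * (2 * p) ≤ l * (C * x - S * y + (C * D + S * M) + Y * S) := by
      apply mul_le_mul_of_nonneg_left _ hl0.le
      linarith only [b1, b5, hCx, hCD, hSx, hSD, hSyY, hSy2, hSM3, f4]
    have f6 : 1 / 2 * (2 * p) ≤ l * (2 * p) := mul_le_mul_of_nonneg_right hl1.le (by linarith only [hp0])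
    have f7 : l * (C * x - S * y + (C * D + S * M) + Y * S) = l * (C * x - S * y) +
      l * (C * D + S * M) + l * Y * S := by ring
    rw [hx0] at *
    linarith only [hsx1, f5, f6]

theorem tilt_two {F : Set ℂ} {s c p q u v ρ S : ℝ} (h : NF F s c (1 / 100) p q u v)
    (hρ : ρ ≤ 1 / 1000) (hs : |s| ≤ ρ) (hp : p ≤ ρ) (hqp : q ≤ p) (hu : u ≤ ρ) (hv : v ≤ ρ)
    (hS : 0 < S) (hS1 : S ≤ 3 * ρ) (hS2 : 102 / 100 * p ≤ S) (hg : S / 2 + ρ / 50 < s + u) :
    Two F := by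
  have hF := h.fig
  have hc0 := h.c0
  have hcs := h.cs
  obtain ⟨xa, xa0, xa1, mxa⟩ := h.LL1
  obtain ⟨ya, ya0, ya1, mya⟩ := h.LL2
  obtain ⟨xb, xb0, xb1, mxb⟩ := h.UR1
  obtain ⟨yb, yb0, yb1, myb⟩ := h.UR2
  obtain ⟨xc, xc0, xc1, mxc⟩ := h.UL1
  obtain ⟨yc, yc0, yc1, myc⟩ := h.UL2
  obtain ⟨xd, xd0, xd1, mxd⟩ := h.LR1
  obtain ⟨yd, yd0, yd1, myd⟩ := h.LR2
  have hp0 : 0 ≤ p := xa0.trans xa1
  have hu0 : 0 ≤ u := xc0.trans xc1
  have hρ0 : 0 < ρ := by linarith only [hS, hS1]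
  have hS3 : S ≤ 3 / 1000 := by linarith only [hρ, hS1]
  have hSS : S ^ 2 ≤ 9 / 1000000 := by
    have := pow_le_pow_left₀ hS.le hS3 2
    linarith only [this]
  obtain ⟨hs1, hs2⟩ := abs_le.mp hs
  have hss : s ^ 2 ≤ 1 / 1000000 := by
    have := sq_le_of_abs (hs.trans hρ)
    linarith only [this]
  obtain ⟨hc1, hc2'⟩ := unit_bd hc0 (by rw [add_comm]; exact hcs : c ^ 2 + s ^ 2 = 1)
  have hc2 : 999 / 1000 ≤ c := by linarith only [hss, hc2']
  -- the rotation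
  obtain ⟨C, hC⟩ : ∃ C : ℝ, C = Real.sqrt (1 - S ^ 2) := ⟨_, rfl⟩
  have hC0 : 0 < C := by
    rw [hC]
    apply Real.sqrt_pos.mpr
    linarith only [hSS]
  have hCS : C ^ 2 + S ^ 2 = 1 := by
    rw [hC, Real.sq_sqrt (by linarith only [hSS])]
    ring
  obtain ⟨hC1, hC3⟩ := unit_bd hC0 hCS
  have hgain := tilt_gain hρ hs hc0 hc1 hu0 hu hS hS1 hC0 hCS hg
  obtain ⟨Y, hY⟩ : ∃ Y : ℝ, Y = (1 - 99 / 100 * u) / c := ⟨_, rfl⟩
  rw [← hY] at hgain
  have hY1 : 1 - 99 / 100 * u ≤ Y := by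
    rw [hY, le_div_iff₀ hc0]
    have : (1 - 99 / 100 * u) * c ≤ (1 - 99 / 100 * u) * 1 :=
      mul_le_mul_of_nonneg_left hc1 (by linarith only [hρ, hu])
    linarith only [this]
  have hY2 : Y ≤ 1001 / 1000 + 1 / 100000 := by
    rw [hY, div_le_iff₀ hc0]
    linarith only [xc0, xc1, hss, hc2']
  have hY0 : 0 < Y := by linarith only [hρ, hu, hY1]
  have hcY : c * Y = 1 - 99 / 100 * u := by
    rw [hY]
    field_simp
  -- the scale
  obtain ⟨E, hE⟩ : ∃ E : ℝ, E = C / 2 + S * (1 + s) / (2 * c) - S * (|s| * S) := ⟨_, rfl⟩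
  rw [← hE] at hgain
  have hYSC : 0 < Y * S * C := by positivity
  obtain ⟨l, hl1, hl2, hl3⟩ : ∃ l : ℝ, 1 / 2 < l ∧ l ≤ 51 / 100 ∧ l * (1 + Y * S * C) ≤ E := by
    refine ⟨min (51 / 100) (E / (1 + Y * S * C)), lt_min (by norm_num) ?_, min_le_left _ _, ?_⟩
    · rw [lt_div_iff₀ (by linarith only [hYSC])]
      linarith only [hgain]
    · have h1 := min_le_right (51 / 100) (E / (1 + Y * S * C))
      calc min (51 / 100) (E / (1 + Y * S * C)) * (1 + Y * S * C)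
          ≤ E / (1 + Y * S * C) * (1 + Y * S * C) := mul_le_mul_of_nonneg_right h1 (by linarith only [hYSC])
        _ = E := by field_simp
  have hl0 : 0 < l := by linarith only [hl1]
  -- the translation
  obtain ⟨x0, hx0⟩ : ∃ x0 : ℝ, x0 = l * Y * S := ⟨_, rfl⟩
  obtain ⟨y0, hy0⟩ : ∃ y0 : ℝ, y0 = |s| * S := ⟨_, rfl⟩
  have habs := abs_nonneg s
  have hx00 : 0 ≤ x0 := by rw [hx0]; positivity
  have hy00 : 0 ≤ y0 := by rw [hy0]; positivity
  have hlY : l * Y ≤ 6 / 10 := by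
    calc l * Y ≤ 51 / 100 * (1001 / 1000 + 1 / 100000) := mul_le_mul hl2 hY2 hY0.le (by norm_num)
      _ ≤ 6 / 10 := by norm_num
  have hx01 : x0 ≤ 6 / 10 * S := by
    rw [hx0]
    exact mul_le_mul_of_nonneg_right hlY hS.le
  have hx02 : x0 ≤ 18 / 10000 := by linarith only [hρ, hS1, hx01]
  have hy01 : y0 ≤ 3 / 1000000 := by
    rw [hy0]
    calc |s| * S ≤ 1 / 1000 * (3 / 1000) := mul_le_mul (by linarith only [hρ, hs]) hS3 hS.le (by norm_num)
      _ = 3 / 1000000 := by norm_num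
  have hsx : |s * x0| ≤ c * y0 := by
    rw [abs_mul, abs_of_nonneg hx00, hy0]
    have e1 : |s| * x0 ≤ |s| * (6 / 10 * S) := mul_le_mul_of_nonneg_left hx01 habs
    have e2 : 6 / 10 * (|s| * S) ≤ c * (|s| * S) :=
      mul_le_mul_of_nonneg_right (by linarith only [hss, hc2']) (mul_nonneg habs hS.le)
    linarith only [e1, e2]
  obtain ⟨hsx1, hsx2⟩ := abs_le.mp hsx
  have hcy0 : c * y0 ≤ 3 / 1000000 := by
    have := mul_le_mul_of_nonneg_right hc1 hy00
    linarith only [hy01, this]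
  set e : ℂ := ⟨C, S⟩ with he
  have hen : ‖e‖ = 1 := by
    have h1 : ‖e‖ ^ 2 = 1 := by
      rw [Complex.sq_norm, Complex.normSq_apply, he]
      simp only []
      linarith only [hCS]
    have h2 := norm_nonneg e
    exact (pow_eq_one_iff_of_nonneg h2 two_ne_zero).mp h1
  set τ : ℂ := ⟨x0, y0⟩ with hτ
  -- coordinates of the points of the first copy
  have key : ∀ z ∈ F, 0 ≤ (e * ((l : ℂ) * z) + τ).re ∧ (e * ((l : ℂ) * z) + τ).re ≤ 4 / 5 ∧
      0 ≤ c * (e * ((l : ℂ) * z) + τ).im - s * (e * ((l : ℂ) * z) + τ).re ∧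
      c * (e * ((l : ℂ) * z) + τ).im - s * (e * ((l : ℂ) * z) + τ).re ≤ 4 / 5 ∧
      p ≤ (e * ((l : ℂ) * z) + τ).re +
        (c * (e * ((l : ℂ) * z) + τ).im - s * (e * ((l : ℂ) * z) + τ).re) ∧
      ip (e * ((l : ℂ) * z) + τ) e ≤ l + C * x0 + S * y0 := by
    intro z hz
    obtain ⟨b1, b2, b3, b4⟩ := h.sub z hz
    have b5 := h.oLL z hz
    have b6 := h.oUL z hz
    obtain ⟨x, hx⟩ : ∃ x : ℝ, x = z.re := ⟨_, rfl⟩
    obtain ⟨y, hy⟩ : ∃ y : ℝ, y = z.im := ⟨_, rfl⟩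
    obtain ⟨D, hD⟩ : ∃ D : ℝ, D = c * y - s * x := ⟨_, rfl⟩
    have ere : (e * ((l : ℂ) * z) + τ).re = l * (C * x - S * y) + x0 := by
      rw [he, hτ, hx, hy]
      simp
      ring
    have eim : (e * ((l : ℂ) * z) + τ).im = l * (S * x + C * y) + y0 := by
      rw [he, hτ, hx, hy]
      simp
      ring
    rw [← hx, ← hy, ← hD] at b3 b4 b5 b6
    rw [← hx] at b1 b2
    have eip : ip (e * ((l : ℂ) * z) + τ) e = l * x + C * x0 + S * y0 := by
      unfold ip
      rw [ere, eim, he]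
      simp only []
      linear_combination (l * x) * hCS
    rw [ere, eim, eip]
    have hyc : c * y = D + s * x := by linarith only [hD]
    have hDid : c * (l * (S * x + C * y) + y0) - s * (l * (C * x - S * y) + x0) =
        l * (C * D + S * (c * x + s * y)) + (c * y0 - s * x0) := by
      rw [hD]
      ring
    rw [hDid]
    have hM : c * (c * x + s * y) = x + s * D := by
      have e1 : c * (c * x + s * y) = c ^ 2 * x + s * (c * y) := by ring
      rw [e1, hyc]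
      linear_combination x * hcs
    obtain ⟨k1, k2, k3, k4, k5⟩ := tilt_num (y0 := y0) (by linarith only [hρ, hu, hS, hg]) (by linarith only [hρ, hs2]) hc0 hc1 hc2 (by linarith only [hρ, hu])
      hp0 hS hS3 hS2 hC1 (by linarith only [hSS, hC3]) hl1 hl2 hcY hY1 hx0 hx02 (by linarith only [hsx2]) (by linarith only [hsx1, hcy0]) b1 b2 b3
      b4 (by linarith only [b5]) (by linarith only [b6]) hyc hM
    refine ⟨k1, k2, k3, k4, k5, ?_⟩
    have : l * x ≤ l * 1 := mul_le_mul_of_nonneg_left b2 hl0.le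
    linarith only [this]
  -- the two copies
  obtain ⟨Z, hZ⟩ : ∃ Z : ℂ, Z = pt s c 1 1 := ⟨_, rfl⟩
  have hneg : ‖(-e)‖ = 1 := by rw [norm_neg, hen]
  have he0 : e ≠ 0 := by
    intro h0
    rw [h0] at hen
    simp at hen
  have hZe : ip Z e = C + S * (1 + s) / c := by
    rw [hZ, he]
    unfold ip pt
    simp only []
    field_simp
  have hfin : l + C * x0 + S * y0 ≤ ip Z e / 2 := by
    have e1 : l * (1 + Y * S * C) = l + C * x0 := by rw [hx0]; ring
    have e2 : E = ip Z e / 2 - S * y0 := by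
      rw [hE, hZe, hy0]
      field_simp
    linarith only [hl3, e1, e2]
  have hopp : ∀ z : ℂ, -e * ((l : ℂ) * z) + (Z - τ) = Z - (e * ((l : ℂ) * z) + τ) := by
    intro z
    ring
  refine two_mk hl1 (rot e τ hen) (rot (-e) (Z - τ) hneg) he0 (ip Z e / 2) ?_ ?_ ?_ ?_
  · intro z hz
    rw [rot_apply]
    obtain ⟨k1, k2, k3, k4, k5, -⟩ := key z hz
    rw [pt_self hc0.ne' (s := s) (e * ((l : ℂ) * z) + τ), pt_eq]
    have m1 := mxa
    have m2 := mya
    have m3 := mxd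
    have m4 := myc
    have m5 := mxb
    rw [pt_eq] at m1 m2 m3 m4 m5
    simp only [ofReal_zero, zero_mul, add_zero, zero_add] at m1 m2 m3 m4
    have := inner_mem hF (o := 0) (A := pt s c 1 0) (B := pt s c 0 1) (by rwa [zero_add])
      (by rwa [zero_add]) xa1 ya1 (by rwa [zero_add]) (by rwa [zero_add])
      (X2 := 1 - xb) (Y2 := 1) (by rwa [zero_add]) (by linarith only [hρ, hv, xd1]) (by linarith only [hρ, hu, yc1]) (by linarith only [hρ, hp, hqp, xb1])
      (by norm_num) k1 k2 k3 k4 k5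
    rwa [zero_add] at this
  · intro z hz
    rw [rot_apply, hopp]
    obtain ⟨k1, k2, k3, k4, k5, -⟩ := key z hz
    obtain ⟨a, ha⟩ : ∃ a : ℝ, a = (e * ((l : ℂ) * z) + τ).re := ⟨_, rfl⟩
    obtain ⟨b, hb⟩ : ∃ b : ℝ, b = c * (e * ((l : ℂ) * z) + τ).im -
      s * (e * ((l : ℂ) * z) + τ).re := ⟨_, rfl⟩
    rw [pt_self hc0.ne' (s := s) (e * ((l : ℂ) * z) + τ), ← hb, ← ha, pt_eq]
    rw [← hb, ← ha] at k5
    rw [← ha] at k1 k2
    rw [← hb] at k3 k4
    have hZ2 : Z = pt s c 1 0 + pt s c 0 1 := by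
      rw [hZ, pt_eq]
      simp
    have e1 : Z - ((a : ℂ) * pt s c 1 0 + (b : ℂ) * pt s c 0 1) =
        Z + (a : ℂ) * (-pt s c 1 0) + (b : ℂ) * (-pt s c 0 1) := by ring
    rw [e1]
    apply inner_mem hF (p := p) (x1 := xb) (y1 := yb) (X1 := 1 - xc) (Y1 := 1 - yd)
      (X2 := 1 - xa) (Y2 := 1) _ _ (xb1.trans hqp) (yb1.trans hqp) _ _ _
      (by linarith only [hρ, hu, xc1]) (by linarith only [hρ, hv, yd1]) (by linarith only [hρ, hp, xa1]) (by norm_num) k1 k2 k3 k4 k5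
    · have e2 : Z + (xb : ℂ) * (-pt s c 1 0) = pt s c (1 - xb) 1 := by
        rw [pt_eq s c (1 - xb) 1, hZ2]
        push_cast
        ring
      rw [e2]
      exact mxb
    · have e2 : Z + (yb : ℂ) * (-pt s c 0 1) = pt s c 1 (1 - yb) := by
        rw [pt_eq s c 1 (1 - yb), hZ2]
        push_cast
        ring
      rw [e2]
      exact myb
    · have e2 : Z + ((1 - xc : ℝ) : ℂ) * (-pt s c 1 0) = pt s c xc 1 := by
        rw [pt_eq s c xc 1, hZ2]
        push_cast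
        ring
      rw [e2]
      exact mxc
    · have e2 : Z + ((1 - yd : ℝ) : ℂ) * (-pt s c 0 1) = pt s c 1 yd := by
        rw [pt_eq s c 1 yd, hZ2]
        push_cast
        ring
      rw [e2]
      exact myd
    · have e2 : Z + ((1 - xa : ℝ) : ℂ) * (-pt s c 1 0) + ((1 : ℝ) : ℂ) * (-pt s c 0 1) =
          pt s c xa 0 := by
        rw [pt_eq s c xa 0, hZ2]
        push_cast
        ring
      rw [e2]
      exact mxa
  · intro z hz
    rw [rot_apply]
    obtain ⟨-, -, -, -, -, k6⟩ := key z hz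
    linarith only [hfin, k6]
  · intro z hz
    rw [rot_apply, hopp, ip_sub_left]
    obtain ⟨-, -, -, -, -, k6⟩ := key z hz
    linarith only [hfin, k6]

end Pool.Agent.H84.Sq
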